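import Pool.Agent.W_868bb7_h94.ObjK

set_option autoImplicit false

/-!
# Stat: the two conditions of the criterion
-/

namespace Pool.Agent.W_868bb7_h94

open CategoryTheory MonoidalCategory Limits Pool.Agent.W_MP_868bb7_ag

universe v u w

variable (K : Type w) [Field K] {C : Type u} [Category.{v} C] [MonoidalCategory C]
  [Preadditive C] [Linear K C] [SymmetricCategory C]

/-- the `n!` permutations of the factors of `M^{⊗ n}` are linearly dependent over `K` -/
def Dep (M : C) (n : ℕ) : Prop :=
  ¬ LinearIndependent K (fun σ : Equiv.Perm (Fin n) => act M n σ)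

/-- some endomorphism `π` of `M` (not assumed to be idempotent) has `tr (π^k) = p` for all `k ≥ 1`,
and the trace of the identity of `M` is `p - q` -/
def Signed [RightRigidCategory C] (M : C) (p q : ℕ) : Prop :=
  (∃ π : M ⟶ M, ∀ k : ℕ, 1 ≤ k → trU (it π k) = (p : K) • 𝟙 (𝟙_ C)) ∧
    trU (𝟙 M) = ((p : K) - q) • 𝟙 (𝟙_ C)

end Pool.Agent.W_868bb7_h94
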