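import Pool.Agent.W_868bb7_h94.ZbA

set_option autoImplicit false

/-!
# PhiZ: an element with star sums `q - p` is a relation
-/

namespace Pool.Agent.W_868bb7_h94

open CategoryTheory MonoidalCategory Equiv Pool.Agent.W_MP_868bb7_ag

universe v u w

variable (K : Type w) [Field K] {C : Type u} [Category.{v} C] [MonoidalCategory C]
  [Preadditive C] [Linear K C] [MonoidalPreadditive C] [MonoidalLinear K C]
  [SymmetricCategory C]

/-- expand a tensor power of a sum (induction on `n`, `Fin.consEquiv`/`Fin.insertNthEquiv`, additivity of `⊗ₘ`) -/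
theorem Hw_expand {X : C} (n : ℕ) (f f' : X ⟶ X) :
    Hw n (fun _ => f + f') = ∑ S : Fin n → Bool, Hw n (let2 f f' S) := by
  induction n with
  | zero =>
    rw [Fintype.sum_unique]
    rfl
  | succ n ih =>
    have e1 : (∑ S : Fin (n + 1) → Bool, Hw (n + 1) (let2 f f' S)) =
        ∑ q : Bool × (Fin n → Bool),
          (((if q.1 = true then f' else f) ⊗ₘ Hw n (let2 f f' q.2) :
            X ⊗ pow X n ⟶ X ⊗ pow X n)) := by
      rw [← Equiv.sum_comp (Fin.consEquiv (fun _ : Fin (n + 1) => Bool))]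
      refine Finset.sum_congr rfl fun q _ => ?_
      rfl
    rw [e1, Fintype.sum_prod_type, Fintype.sum_bool]
    simp only [if_true, Bool.false_eq_true, if_false]
    change ((f + f') ⊗ₘ Hw n (fun _ => f + f') : X ⊗ pow X n ⟶ X ⊗ pow X n) = _
    rw [ih, MonoidalPreadditive.add_tensor, tensor_sum, tensor_sum, add_comm]

/-- For a fixed part `S`, let `H` be the set of the `τ` with `Compat S τ`.  For `τ ∈ H`, reindex `σ ↦ τ * σ`:
`B = ∑_σ x σ act σ ≫ Hw (let2 f f' S) = ∑_σ x (τ * σ) act σ ≫ act τ ≫ Hw (let2 f f' S)`, and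
`act τ ≫ Hw (let2 f f' S) = Hw (let2 f f' S) ≫ act τ` (`act_Hw`).  Sum over `τ ∈ H`:
`card H • B = ∑_σ act σ ≫ Zb K n f f' S (fun τ => x (τ * σ)) = 0`. -/
theorem block_zero [CharZero K] {X : C} (n : ℕ) (f f' : X ⟶ X) (S : Fin n → Bool)
    (x : G n → K) (h : ∀ σ : G n, Zb K n f f' S (fun τ => x (τ * σ)) = 0) :
    Phi K X n x ≫ Hw n (let2 f f' S) = 0 := by
  have h1 : ∀ τ : G n, Compat S τ → Phi K X n x ≫ Hw n (let2 f f' S) =
      ∑ σ : G n, act X n σ ≫ (x (τ * σ) • (Hw n (let2 f f' S) ≫ act X n τ)) := by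
    intro τ hτ
    have e : Phi K X n x = ∑ σ : G n, x (τ * σ) • act X n (τ * σ) := by
      unfold Phi
      exact (Equiv.sum_comp (Equiv.mulLeft τ) (fun σ => x σ • act X n σ)).symm
    rw [e, Preadditive.sum_comp]
    refine Finset.sum_congr rfl fun σ _ => ?_
    rw [Linear.smul_comp, Linear.comp_smul, act_mul, Category.assoc, act_Hw]
    have h2 : (fun i => let2 f f' S (τ i)) = let2 f f' S := by
      funext i
      unfold let2
      rw [hτ i]
    rw [h2]
  have h3 : ∑ τ ∈ Finset.univ.filter (fun τ : G n => Compat S τ),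
      Phi K X n x ≫ Hw n (let2 f f' S) = 0 := by
    rw [Finset.sum_congr rfl fun τ hτ => h1 τ (Finset.mem_filter.1 hτ).2, Finset.sum_comm]
    refine Finset.sum_eq_zero fun σ _ => ?_
    rw [← Preadditive.comp_sum]
    have h4 := h σ
    unfold Zb at h4
    rw [h4, Limits.comp_zero]
  rw [Finset.sum_const, ← Nat.cast_smul_eq_nsmul K] at h3
  have hc : ((Finset.univ.filter (fun τ : G n => Compat S τ)).card : K) ≠ 0 := by
    rw [Nat.cast_ne_zero]
    refine Finset.card_ne_zero_of_mem (a := (1 : G n)) ?_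
    rw [Finset.mem_filter]
    exact ⟨Finset.mem_univ _, fun i => rfl⟩
  exact (smul_eq_zero.1 h3).resolve_left hc

/-- `Phi x = Phi x ≫ Hw (fun _ => 𝟙) = ∑_S Phi x ≫ Hw (let2 f f' S)`, `block_zero`, `Zb_zero`, `Jst_R` -/
theorem Phi_zero [CharZero K] {X : C} (p q : ℕ) (f f' : X ⟶ X) (hff : f + f' = 𝟙 X)
    (hf : powMap f (p + 1) ≫ E true X (p + 1) = 0)
    (hf' : powMap f' (q + 1) ≫ E false X (q + 1) = 0)
    (x : G ((p + 1) * (q + 1)) → K) (hx : Star ((q : K) - p) x) :
    Phi K X ((p + 1) * (q + 1)) x = 0 := by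
  have h1 : Hw ((p + 1) * (q + 1)) (fun _ => f + f') = 𝟙 (pow X ((p + 1) * (q + 1))) := by
    rw [Hw_const, hff, powMap_id]
  rw [← Category.comp_id (Phi K X ((p + 1) * (q + 1)) x), ← h1, Hw_expand, Preadditive.comp_sum]
  refine Finset.sum_eq_zero fun S _ => ?_
  refine block_zero K _ f f' S x fun σ => ?_
  exact Zb_zero K p q f f' hf hf' S _ (Jst_R _ _ x hx σ)

end Pool.Agent.W_868bb7_h94
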