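import Pool.Agent.W_868bb7_h94.Defs
import Pool.Agent.W_MP_868bb7_ag.Hook

set_option autoImplicit false

/-!
# DefsC: definitions for the converse

`SP T` (library, module `Hook`) is the finite set of the permutations supported in `T`.
-/

namespace Pool.Agent.W_868bb7_h94

open CategoryTheory MonoidalCategory Equiv Pool.Agent.W_MP_868bb7_ag

universe v u w

section Comb

variable {K : Type*} [Field K]

/-- (anti)symmetrization over all permutations supported in `T` -/
def SEf (b : Bool) {n : ℕ} (T : Finset (Fin n)) (x : G n → K) : G n → K :=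
  fun g => ∑ σ ∈ SP T, (((chi b σ : ℤˣ) : ℤ) : K) * x (σ * g)

/-- `σ` preserves the two parts `S = false` and `S = true` -/
def Compat {n : ℕ} (S : Fin n → Bool) (σ : G n) : Prop := ∀ i, S (σ i) = S i

instance {n : ℕ} (S : Fin n → Bool) : DecidablePred (Compat S) := fun σ =>
  inferInstanceAs (Decidable (∀ i, S (σ i) = S i))

/-- stable under left translations by permutations preserving the parts -/
def HStable {n : ℕ} (S : Fin n → Bool) (V : Submodule K (G n → K)) : Prop :=
  ∀ x ∈ V, ∀ h : G n, Compat S h → (fun g => x (h * g)) ∈ V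

/-- the functions with star sums `c` -/
def Jst (c : K) (n : ℕ) : Submodule K (G n → K) where
  carrier := {x | Star c x}
  add_mem' := by
    intro x y hx hy k g
    have h1 := hx k g
    have h2 := hy k g
    simp only [Pi.add_apply, Finset.sum_add_distrib, mul_add]
    rw [h1, h2]
  zero_mem' := by
    intro k g
    simp
  smul_mem' := by
    intro a x hx k g
    have h1 := hx k g
    simp only [Pi.smul_apply, smul_eq_mul, ← Finset.mul_sum]
    rw [h1]
    ring

theorem mem_Jst (c : K) (n : ℕ) (x : G n → K) : x ∈ Jst c n ↔ Star c x := Iff.rfl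

end Comb

/-- `σ` acting on the last `a` of `a + b` strands -/
def shiftN {a : ℕ} : (b : ℕ) → G a → G (a + b)
  | 0, σ => σ
  | b + 1, σ => shift (shiftN b σ)

section Cat

variable {C : Type u} [Category.{v} C]

/-- the letters of the part `S`: `f` on `S = false`, `f'` on `S = true` -/
def let2 {X : C} {n : ℕ} (f f' : X ⟶ X) (S : Fin n → Bool) : Fin n → (X ⟶ X) :=
  fun i => if S i = true then f' else f

variable [MonoidalCategory C] [SymmetricCategory C] [Preadditive C] (K : Type w) [Field K]
  [Linear K C]

/-- the block of `x` for the part `S` -/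
def Zb {X : C} (n : ℕ) (f f' : X ⟶ X) (S : Fin n → Bool) (x : G n → K) : pow X n ⟶ pow X n :=
  ∑ σ ∈ Finset.univ.filter (fun σ : G n => Compat S σ), x σ • (Hw n (let2 f f' S) ≫ act X n σ)

end Cat

end Pool.Agent.W_868bb7_h94
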