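import Pool.Agent.W_868bb7_h94.Defs

set_option autoImplicit false

/-!
# AddSym: (anti)symmetrization over one more strand

`e = cs b` is `1` or `-1`, so `e * e = 1`.
-/

namespace Pool.Agent.W_868bb7_h94

open Equiv Pool.Agent.W_MP_868bb7_ag

variable {K : Type*} [Field K]

theorem AddSym_cs (b : Bool) : ((cs b : ℤ) : K) * ((cs b : ℤ) : K) = 1 := by
  cases b <;> simp [cs]

theorem AddSym_conj {n : ℕ} (i i' j k : Fin n) (g : G n) (hk : k ≠ i) (hk' : k ≠ i') :
    swap j k * (swap i i' * g) = swap i i' * (swap (swap i i' j) k * g) := by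
  rw [← mul_assoc, ← mul_assoc, Equiv.swap_mul_eq_mul_swap, Equiv.swap_inv,
    Equiv.swap_apply_of_ne_of_ne hk hk']

theorem AddSym_three {n : ℕ} (i j k : Fin n) (g : G n) (hij : j ≠ i) (hkj : j ≠ k) (hki : i ≠ k) :
    swap j k * (swap i k * g) = swap i j * (swap j k * g) := by
  rw [← mul_assoc, ← mul_assoc]
  congr 1
  rw [Equiv.swap_mul_eq_mul_swap (swap j k) i j, Equiv.swap_inv, Equiv.swap_apply_left,
    Equiv.swap_apply_of_ne_of_ne hij.symm hki]

theorem AddSym_mixed (b : Bool) {n : ℕ} (T : Finset (Fin n)) (k : Fin n) (hk : k ∉ T)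
    (x : G n → K) (hx : IsSym b T x) (i : Fin n) (hi : i ∈ T) (g : G n) :
    addSym b T k x (swap i k * g) = ((cs b : ℤ) : K) * addSym b T k x g := by
  have hki : i ≠ k := fun h => hk (h ▸ hi)
  have h0 : ∑ j ∈ T, x (swap j k * (swap i k * g)) =
      x g + ((cs b : ℤ) : K) * ∑ j ∈ T.erase i, x (swap j k * g) := by
    rw [← Finset.add_sum_erase T _ hi, ← mul_assoc, Equiv.swap_mul_self, one_mul,
      Finset.mul_sum]
    congr 1
    refine Finset.sum_congr rfl fun j hj => ?_
    have hji : j ≠ i := Finset.ne_of_mem_erase hj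
    have hjT : j ∈ T := Finset.mem_of_mem_erase hj
    have hjk : j ≠ k := fun h => hk (h ▸ hjT)
    rw [AddSym_three i j k g hji hjk hki, hx i hi j hjT hji.symm]
  have h1 := AddSym_cs (K := K) b
  unfold addSym
  rw [h0, ← Finset.add_sum_erase T (fun j => x (swap j k * g)) hi]
  linear_combination (x (swap i k * g) * (-1) + 0) * h1 +
    ((∑ j ∈ T.erase i, x (swap j k * g)) * 0) * h1

theorem addSym_mem (b : Bool) {n : ℕ} (V : Submodule K (G n → K)) (hV : LStable V)
    (T : Finset (Fin n)) (k : Fin n) (x : G n → K) (hx : x ∈ V) : addSym b T k x ∈ V := by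
  have h : addSym b T k x = x + ((cs b : ℤ) : K) • ∑ j ∈ T, (fun g => x (swap j k * g)) := by
    funext g
    simp only [addSym, Pi.add_apply, Pi.smul_apply, Finset.sum_apply, smul_eq_mul]
  rw [h]
  exact V.add_mem hx (V.smul_mem _ (V.sum_mem fun j _ => hV x hx _))

/-- Let `y = addSym b T k x`, `e = cs b`.
* `i ≠ i'` in `T`: `swap j k * swap i i' = swap i i' * swap (swap i i' j) k` (`k ∉ {i, i'}`), so
  `y (swap i i' * g) = e x g + e ∑_{j ∈ T} x (swap i i' * swap (swap i i' j) k * g)
  = e x g + e ∑_{j ∈ T} e x (swap (swap i i' j) k * g)`, and `swap i i'` permutes `T`.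
* `i ∈ T` and `k`: `y (swap i k * g) = x (swap i k * g) + e ∑_{j ∈ T} x (swap j k * swap i k * g)`;
  the summand `j = i` is `x g`; for `j ≠ i`, `swap j k * swap i k = swap i j * swap j k`, so the summand
  is `e x (swap j k * g)`.  With `e * e = 1` the total is `e * y g`.
  `swap k i = swap i k` (`Equiv.swap_comm`). -/
theorem addSym_insert (b : Bool) {n : ℕ} (T : Finset (Fin n)) (k : Fin n) (hk : k ∉ T)
    (x : G n → K) (hx : IsSym b T x) : IsSym b (insert k T) (addSym b T k x) := by
  intro i hi i' hi' hii g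
  rcases Finset.mem_insert.1 hi with rfl | hiT
  · rcases Finset.mem_insert.1 hi' with rfl | hiT'
    · exact absurd rfl hii
    · rw [Equiv.swap_comm]
      exact AddSym_mixed b T i hk x hx i' hiT' g
  · rcases Finset.mem_insert.1 hi' with rfl | hiT'
    · exact AddSym_mixed b T i' hk x hx i hiT g
    · have hki : k ≠ i := fun h => hk (h ▸ hiT)
      have hki' : k ≠ i' := fun h => hk (h ▸ hiT')
      have h0 : ∑ j ∈ T, x (swap j k * (swap i i' * g)) =
          ((cs b : ℤ) : K) * ∑ j ∈ T, x (swap j k * g) := by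
        rw [Finset.mul_sum]
        refine Finset.sum_equiv (swap i i') ?_ ?_
        · intro j
          by_cases h1 : j = i
          · rw [h1, Equiv.swap_apply_left]
            exact ⟨fun _ => hiT', fun _ => hiT⟩
          · by_cases h2 : j = i'
            · rw [h2, Equiv.swap_apply_right]
              exact ⟨fun _ => hiT, fun _ => hiT'⟩
            · rw [Equiv.swap_apply_of_ne_of_ne h1 h2]
        · intro j _
          rw [AddSym_conj i i' j k g hki hki', hx i hiT i' hiT' hii]
      unfold addSym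
      rw [h0, hx i hiT i' hiT' hii]
      ring

/-- for `i ≠ i'` in `T'` and `j ∈ T`: `i, i'` are different from `j, k`, so `swap j k` and
`swap i i'` commute -/
theorem addSym_other (b b' : Bool) {n : ℕ} (T T' : Finset (Fin n)) (k : Fin n) (hk : k ∉ T')
    (hT : Disjoint T T') (x : G n → K) (hx' : IsSym b' T' x) :
    IsSym b' T' (addSym b T k x) := by
  intro i hi i' hi' hii g
  have hki : k ≠ i := fun h => hk (h ▸ hi)
  have hki' : k ≠ i' := fun h => hk (h ▸ hi')
  have h0 : ∑ j ∈ T, x (swap j k * (swap i i' * g)) =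
      ((cs b' : ℤ) : K) * ∑ j ∈ T, x (swap j k * g) := by
    rw [Finset.mul_sum]
    refine Finset.sum_congr rfl fun j hj => ?_
    have hji : j ≠ i := fun h => Finset.disjoint_left.1 hT hj (h ▸ hi)
    have hji' : j ≠ i' := fun h => Finset.disjoint_left.1 hT hj (h ▸ hi')
    rw [AddSym_conj i i' j k g hki hki', Equiv.swap_apply_of_ne_of_ne hji hji',
      hx' i hi i' hi' hii]
  unfold addSym
  rw [h0, hx' i hi i' hi' hii]
  ring

end Pool.Agent.W_868bb7_h94
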