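import Pool.Agent.W_868bb7_h94.Defs

set_option autoImplicit false

/-!
# HwA: letters and permutations
-/

namespace Pool.Agent.W_868bb7_h94

open CategoryTheory MonoidalCategory Equiv Pool.Agent.W_MP_868bb7_ag

universe v u w

variable {C : Type u} [Category.{v} C] [MonoidalCategory C]

theorem Hw_const {X : C} (n : ℕ) (f : X ⟶ X) : Hw n (fun _ => f) = powMap f n := by
  induction n with
  | zero => rfl
  | succ n ih =>
    change f ⊗ₘ Hw n (fun _ => f) = f ⊗ₘ powMap f n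
    rw [ih]

theorem HwA_aux1 {X P : C} {a : P ⟶ P} {m : X ⊗ P ⟶ X ⊗ P} {f g : X ⟶ X} {r r' r'' : P ⟶ P}
    (hm : m ≫ (f ⊗ₘ r) = (g ⊗ₘ r') ≫ m) (ha : a ≫ r' = r'' ≫ a) :
    (X ◁ a ≫ m) ≫ (f ⊗ₘ r) = (g ⊗ₘ r'') ≫ (X ◁ a ≫ m) := by
  have e : X ◁ a ≫ (g ⊗ₘ r') = (g ⊗ₘ r'') ≫ X ◁ a := by
    rw [← id_tensorHom, tensorHom_comp_tensorHom, tensorHom_comp_tensorHom, ha,
      Category.comp_id, Category.id_comp]
  rw [Category.assoc, hm, ← Category.assoc, e, Category.assoc]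

section Sym

variable [SymmetricCategory C]

theorem sw_tensor (X Z : C) (f g : X ⟶ X) (r : Z ⟶ Z) :
    sw X Z ≫ (f ⊗ₘ (g ⊗ₘ r)) = (g ⊗ₘ (f ⊗ₘ r)) ≫ sw X Z := by
  unfold sw
  rw [associator_inv_naturality_assoc, Category.assoc, Category.assoc]
  congr 1
  rw [← associator_naturality]
  rw [← Category.assoc, ← Category.assoc]
  congr 1
  rw [← tensorHom_id, tensorHom_comp_tensorHom, tensorHom_comp_tensorHom,
    BraidedCategory.braiding_naturality, Category.comp_id, Category.id_comp]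

theorem HwA_aux2 {X P : C} {m : X ⊗ P ⟶ X ⊗ P} {f0 f1 g : X ⟶ X} {r r' : P ⟶ P}
    (h : m ≫ (f1 ⊗ₘ r) = (g ⊗ₘ r') ≫ m) :
    (sw X P ≫ X ◁ m) ≫ (f0 ⊗ₘ (f1 ⊗ₘ r)) = (g ⊗ₘ (f0 ⊗ₘ r')) ≫ (sw X P ≫ X ◁ m) := by
  have e : X ◁ m ≫ (f0 ⊗ₘ (f1 ⊗ₘ r)) = (f0 ⊗ₘ (g ⊗ₘ r')) ≫ X ◁ m := by
    rw [← id_tensorHom, tensorHom_comp_tensorHom, tensorHom_comp_tensorHom, h,
      Category.comp_id, Category.id_comp]
  rw [Category.assoc, e, ← Category.assoc, sw_tensor, Category.assoc]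

/-- `mv X n p` moves the factor in position `0` to position `p`.  Induction on `n`; `p = 0`: `mv` is the
identity (`pa_mv_zero`); `n + 1`, `p + 1`: `mv = sw ≫ X ◁ mv X n p` by definition,
`X ◁ mv X n p ≫ (h 0 ⊗ₘ Hw (n + 1) h') = h 0 ⊗ₘ (mv X n p ≫ Hw (n + 1) h')` with `h' i = h i.succ`,
induction hypothesis, `sw_tensor`; finally `(p.succ).succAbove 0 = 0` and
`(p.succ).succAbove j.succ = (p.succAbove j).succ`.  (Help Lean with type ascriptions
`X ⊗ pow X n` instead of `pow X (n + 1)`; see `pa_st3`, `pa_st4` in the library, module `PowAct`.) -/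
theorem mv_Hw (X : C) (n : ℕ) (p : Fin (n + 1)) (h : Fin (n + 1) → (X ⟶ X)) :
    (mv X n p : X ⊗ pow X n ⟶ X ⊗ pow X n) ≫ (h 0 ⊗ₘ Hw n (fun i => h i.succ)) =
      (h p ⊗ₘ Hw n (fun i => h (p.succAbove i))) ≫ (mv X n p : X ⊗ pow X n ⟶ X ⊗ pow X n) := by
  induction n with
  | zero =>
    obtain rfl : p = 0 := Fin.fin_one_eq_zero p
    change 𝟙 (X ⊗ pow X 0) ≫ _ = _ ≫ 𝟙 (X ⊗ pow X 0)
    rw [Category.id_comp, Category.comp_id]
    rfl
  | succ n ih =>
    induction p using Fin.cases with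
    | zero =>
      change 𝟙 (X ⊗ pow X (n + 1)) ≫ _ = _ ≫ 𝟙 (X ⊗ pow X (n + 1))
      rw [Category.id_comp, Category.comp_id, Fin.succAbove_zero]
    | succ q =>
      have h1 := ih q (fun i => h i.succ)
      have e : (Hw (n + 1) (fun i => h (q.succ.succAbove i)) : pow X (n + 1) ⟶ pow X (n + 1)) =
          (h 0 ⊗ₘ Hw n (fun i => h (q.succAbove i).succ) :
            X ⊗ pow X n ⟶ X ⊗ pow X n) := by
        change (h (q.succ.succAbove 0) ⊗ₘ Hw n (fun i => h (q.succ.succAbove i.succ)) :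
            X ⊗ pow X n ⟶ X ⊗ pow X n) = _
        rw [Fin.succ_succAbove_zero]
        simp only [Fin.succ_succAbove_succ]
      rw [e]
      exact HwA_aux2 h1

/-- Induction on `n`: `act X (n + 1) σ = X ◁ act X n (tail σ) ≫ mv X n (σ 0)` by definition
(`pa_act_succ`), `mv_Hw`, induction hypothesis for `tail σ`, and `σ i.succ = (σ 0).succAbove (tail σ i)`
(`tail_spec`). -/
theorem act_Hw (X : C) (n : ℕ) (σ : G n) (h : Fin n → (X ⟶ X)) :
    act X n σ ≫ Hw n h = Hw n (fun i => h (σ i)) ≫ act X n σ := by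
  induction n with
  | zero => rfl
  | succ n ih =>
    have h1 := mv_Hw X n (σ 0) h
    have h2 := ih (tail σ) (fun i => h ((σ 0).succAbove i))
    simp only [← tail_spec] at h2
    exact HwA_aux1 h1 h2

end Sym

theorem Hw_zero [Preadditive C] [MonoidalPreadditive C] {X : C} (n : ℕ) (h : Fin n → (X ⟶ X))
    (i : Fin n) (hi : h i = 0) : Hw n h = 0 := by
  induction n with
  | zero => exact i.elim0
  | succ n ih =>
    change (h 0 ⊗ₘ Hw n (fun i => h i.succ) : X ⊗ pow X n ⟶ X ⊗ pow X n) = 0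
    induction i using Fin.cases with
    | zero =>
      rw [hi, MonoidalCategory.tensorHom_def, MonoidalPreadditive.zero_whiskerRight, Limits.zero_comp]
    | succ j =>
      rw [ih (fun i => h i.succ) j hi, MonoidalCategory.tensorHom_def, MonoidalPreadditive.whiskerLeft_zero,
        Limits.comp_zero]

end Pool.Agent.W_868bb7_h94
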