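import Pool.Agent.W_868bb7_h94.ShiftN
import Pool.Agent.W_868bb7_h94.HwA

set_option autoImplicit false

/-!
# BlockKill: `p + 1` letters `e` are killed by the antisymmetrizer of their strands
-/

namespace Pool.Agent.W_868bb7_h94

open CategoryTheory MonoidalCategory Equiv Pool.Agent.W_MP_868bb7_ag

universe v u w

variable {C : Type u} [Category.{v} C] [MonoidalCategory C] [Preadditive C]
  [MonoidalPreadditive C] [SymmetricCategory C]

omit [SymmetricCategory C] in
theorem BlockKill_aux1 {X P : C} {ι : Type*} (s : Finset ι) (c : ι → ℤ) (g : X ⟶ X) (H : P ⟶ P)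
    (m : ι → (P ⟶ P)) (h : H ≫ ∑ i ∈ s, c i • m i = 0) :
    (g ⊗ₘ H) ≫ ∑ i ∈ s, c i • (X ◁ m i) = 0 := by
  have h1 : ∑ i ∈ s, c i • (X ◁ m i) = X ◁ (∑ i ∈ s, c i • m i) := by
    rw [whiskerLeft_sum]
    apply Finset.sum_congr rfl
    intro i _
    exact (((tensoringLeft C).obj X).mapAddHom.map_zsmul (c i) (m i)).symm
  rw [h1, ← id_tensorHom, tensorHom_comp_tensorHom, h, Category.comp_id,
    MonoidalCategory.tensorHom_def, MonoidalPreadditive.whiskerLeft_zero, Limits.comp_zero]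

/-- Induction on `b`: `b = 0`: `∑ chi act` is `E`, the letters are all `f` (`Hw_const`).  `b + 1`:
`act (shift τ) = X ◁ act τ` (`act_shift`), so the left side is `h 0 ⊗ₘ (...)` with the induction hypothesis for
`fun i => h i.succ`. -/
theorem last_kill (e : Bool) (X : C) (f : X ⟶ X) (a b : ℕ) (hf : powMap f a ≫ E e X a = 0)
    (h : Fin (a + b) → (X ⟶ X)) (hh : ∀ i : Fin (a + b), b ≤ i.val → h i = f) :
    Hw (a + b) h ≫ ∑ σ : G a, ((chi e σ : ℤˣ) : ℤ) • act X (a + b) (shiftN b σ) = 0 := by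
  induction b with
  | zero =>
    have h1 : h = fun _ => f := funext fun i => hh i (Nat.zero_le _)
    rw [h1]
    rw [← Hw_const] at hf
    exact hf
  | succ b ih =>
    have h1 := ih (fun i => h i.succ) (fun i hi => hh i.succ (by
      rw [Fin.val_succ]
      omega))
    have h2 := BlockKill_aux1 (X := X) Finset.univ
      (fun σ : G a => ((chi e σ : ℤˣ) : ℤ)) (h 0) (Hw (a + b) (fun i => h i.succ))
      (fun σ : G a => act X (a + b) (shiftN b σ)) h1
    simp only [← act_shift] at h2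
    exact h2

theorem BlockKill_aux2 (a b : ℕ) :
    (Finset.univ.filter (fun j : Fin (a + b) => b ≤ j.val)).card = a := by
  have h1 : (Finset.univ.filter (fun j : Fin (a + b) => b ≤ j.val)).card
      = ((Finset.range (a + b)).filter (fun j => b ≤ j)).card := by
    refine Finset.card_bij (fun j _ => j.val) ?_ ?_ ?_
    · intro j hj
      rw [Finset.mem_filter] at hj ⊢
      exact ⟨Finset.mem_range.mpr j.isLt, hj.2⟩
    · intro j _ k _ hjk
      exact Fin.ext hjk
    · intro j hj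
      rw [Finset.mem_filter, Finset.mem_range] at hj
      exact ⟨⟨j, hj.1⟩, by rw [Finset.mem_filter]; exact ⟨Finset.mem_univ _, hj.2⟩, rfl⟩
  have h2 : (Finset.range (a + b)).filter (fun j => b ≤ j) = Finset.Ico b (a + b) := by
    ext j
    simp only [Finset.mem_filter, Finset.mem_range, Finset.mem_Ico]
    tauto
  rw [h1, h2, Nat.card_Ico]
  omega

/-- Write `n = a + b` (`a = card T ≤ n`) and choose `ρ : G n` mapping the last `a` strands onto `T`.  The permutations
supported in `T` are the `ρ * τ * ρ⁻¹` with `τ` supported in the last `a` strands, same sign, and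
`act (ρ * τ * ρ⁻¹) = act ρ⁻¹ ≫ act τ ≫ act ρ`; `Hw n h ≫ act ρ⁻¹ = act ρ⁻¹ ≫ Hw n (fun i => h (ρ i))` (`act_Hw` for
`ρ⁻¹`).  Then `last_kill`, `sum_SP_last`, `chi_shiftN`. -/
theorem block_kill (e : Bool) (X : C) (f : X ⟶ X) (a : ℕ) (hf : powMap f a ≫ E e X a = 0)
    (n : ℕ) (h : Fin n → (X ⟶ X)) (T : Finset (Fin n)) (hT : T.card = a)
    (hh : ∀ i ∈ T, h i = f) :
    Hw n h ≫ ∑ σ ∈ SP T, ((chi e σ : ℤˣ) : ℤ) • act X n σ = 0 := by
  obtain ⟨b, rfl⟩ : ∃ b, n = a + b := by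
    refine ⟨n - a, ?_⟩
    have h1 := Finset.card_le_univ T
    rw [hT, Fintype.card_fin] at h1
    omega
  set L : Finset (Fin (a + b)) := Finset.univ.filter (fun j : Fin (a + b) => b ≤ j.val) with hL
  have hLc : L.card = T.card := by
    rw [hT, hL]
    exact BlockKill_aux2 a b
  obtain ⟨ρ, hρ⟩ : ∃ ρ : G (a + b), ∀ j, ρ j ∈ T ↔ j ∈ L := by
    let ε : {x // x ∈ L} ≃ {x // x ∈ T} := Finset.equivOfCardEq hLc
    refine ⟨ε.extendSubtype, fun j => ?_⟩
    constructor
    · intro h1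
      by_contra h2
      exact ε.extendSubtype_not_mem j h2 h1
    · intro h1
      exact ε.extendSubtype_mem j h1
  have hre : ∑ σ ∈ SP T, ((chi e σ : ℤˣ) : ℤ) • act X (a + b) σ =
      ∑ τ ∈ SP L, ((chi e τ : ℤˣ) : ℤ) • act X (a + b) (ρ * τ * ρ⁻¹) := by
    refine Finset.sum_bij' (fun σ _ => ρ⁻¹ * σ * ρ) (fun τ _ => ρ * τ * ρ⁻¹) ?_ ?_ ?_ ?_ ?_
    · intro σ hσ
      rw [mem_SP'] at hσ ⊢
      intro y hy
      have h1 : ρ y ∉ T := fun h2 => hy ((hρ y).mp h2)
      rw [Equiv.Perm.mul_apply, Equiv.Perm.mul_apply, hσ _ h1]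
      exact ρ.symm_apply_apply y
    · intro τ hτ
      rw [mem_SP'] at hτ ⊢
      intro y hy
      have h1 : ρ⁻¹ y ∉ L := by
        intro h2
        rw [← hρ] at h2
        have h3 : ρ (ρ⁻¹ y) = y := ρ.apply_symm_apply y
        rw [h3] at h2
        exact hy h2
      rw [Equiv.Perm.mul_apply, Equiv.Perm.mul_apply, hτ _ h1]
      exact ρ.apply_symm_apply y
    · intro σ _
      group
    · intro τ _
      group
    · intro σ _
      have h1 : ρ * (ρ⁻¹ * σ * ρ) * ρ⁻¹ = σ := by group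
      have h2 : chi e (ρ⁻¹ * σ * ρ) = chi e σ := by
        rw [map_mul, map_mul, map_inv, mul_comm, ← mul_assoc, mul_inv_cancel, one_mul]
      simp only [h1, h2]
  have hact : ∀ τ : G (a + b), act X (a + b) (ρ * τ * ρ⁻¹) =
      act X (a + b) ρ⁻¹ ≫ act X (a + b) τ ≫ act X (a + b) ρ := by
    intro τ
    rw [act_mul, act_mul]
  have hcomm : Hw (a + b) h ≫ act X (a + b) ρ⁻¹ =
      act X (a + b) ρ⁻¹ ≫ Hw (a + b) (fun i => h (ρ i)) := by
    rw [act_Hw]
    have h1 : (fun i => (fun i => h (ρ i)) (ρ⁻¹ i)) = h :=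
      funext fun i => congrArg h (ρ.apply_symm_apply i)
    rw [h1]
  have hk := last_kill e X f a b hf (fun i => h (ρ i)) (fun i hi => hh _ ((hρ i).mpr (by
    rw [hL, Finset.mem_filter]
    exact ⟨Finset.mem_univ _, hi⟩)))
  have hk2 : Hw (a + b) (fun i => h (ρ i)) ≫
      ∑ τ ∈ SP L, ((chi e τ : ℤˣ) : ℤ) • act X (a + b) τ = 0 := by
    rw [hL, sum_SP_last a b (fun τ => ((chi e τ : ℤˣ) : ℤ) • act X (a + b) τ)]
    simp only [chi_shiftN]
    exact hk
  rw [hre]
  have hfin : ∑ τ ∈ SP L, ((chi e τ : ℤˣ) : ℤ) • act X (a + b) (ρ * τ * ρ⁻¹) =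
      act X (a + b) ρ⁻¹ ≫ (∑ τ ∈ SP L, ((chi e τ : ℤˣ) : ℤ) • act X (a + b) τ) ≫
        act X (a + b) ρ := by
    rw [Preadditive.sum_comp, Preadditive.comp_sum]
    apply Finset.sum_congr rfl
    intro τ _
    rw [hact, Preadditive.zsmul_comp, Preadditive.comp_zsmul]
  rw [hfin, ← Category.assoc, hcomm, Category.assoc, ← Category.assoc (Hw _ _), hk2,
    Limits.zero_comp, Limits.comp_zero]

end Pool.Agent.W_868bb7_h94
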