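import Pool.Agent.W_868bb7_h94.DefsC

set_option autoImplicit false

/-!
# Compl: a complement stable under the permutations preserving the parts
-/

namespace Pool.Agent.W_868bb7_h94

open Equiv Pool.Agent.W_MP_868bb7_ag

variable {K : Type*} [Field K]

/-- left translation -/
def Compl_T {n : ℕ} (h : G n) : (G n → K) →ₗ[K] (G n → K) where
  toFun x := fun g => x (h * g)
  map_add' _ _ := rfl
  map_smul' _ _ := rfl

theorem Compl_T_mul {n : ℕ} (h h' : G n) (x : G n → K) :
    Compl_T h (Compl_T h' x) = Compl_T (h' * h) x := by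
  funext g
  change x (h' * (h * g)) = x (h' * h * g)
  rw [mul_assoc]

theorem Compl_T_one {n : ℕ} (x : G n → K) : Compl_T (1 : G n) x = x := by
  funext g
  change x (1 * g) = x g
  rw [one_mul]

theorem Compl_compat_mul {n : ℕ} {S : Fin n → Bool} {σ τ : G n} (hσ : Compat S σ)
    (hτ : Compat S τ) : Compat S (σ * τ) := fun i => (hσ (τ i)).trans (hτ i)

theorem Compl_compat_inv {n : ℕ} {S : Fin n → Bool} {σ : G n} (hσ : Compat S σ) :
    Compat S σ⁻¹ := fun i => by
  have h := hσ (σ⁻¹ i)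
  have h2 : σ (σ⁻¹ i) = i := by simp
  rw [h2] at h
  exact h.symm

/-- Let `P` be a linear projection of `G n → K` onto `U` (`Submodule.exists_isCompl`,
`Submodule.linearProjOfIsCompl` or `Submodule.exists_leftInverse_of_...`), and
`P' x = (card H)⁻¹ ∑_{h ∈ H} h (P (h⁻¹ x))`, where `H` is the finite set of the `h` with `Compat S h` (a group) and
`(h x) g = x (h⁻¹ * g)`.  Then `P'` maps everything into `U` (`hU`), is the identity on `U`, and commutes with `H`.
`Q = V ⊓ ker P'`: for `x ∈ V`, `x ∉ U`: `x - P' x ∈ Q` (`P' x ∈ U ≤ V`) is not zero. -/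
theorem exists_compl [CharZero K] {n : ℕ} (S : Fin n → Bool) (V U : Submodule K (G n → K))
    (hUV : U ≤ V) (hV : HStable S V) (hU : HStable S U) (hne : ¬ V ≤ U) :
    ∃ Q : Submodule K (G n → K), Q ≤ V ∧ Q ⊓ U = ⊥ ∧ Q ≠ ⊥ ∧ HStable S Q := by
  obtain ⟨p, hp⟩ := LinearMap.exists_leftInverse_of_injective U.subtype U.ker_subtype
  have hp' : ∀ u : G n → K, u ∈ U → ((p u : U) : G n → K) = u := fun u hu => by
    have := LinearMap.congr_fun hp ⟨u, hu⟩
    exact congrArg Subtype.val this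
  obtain ⟨H, hH⟩ : ∃ H : Finset (G n), H = Finset.univ.filter (fun σ => Compat S σ) := ⟨_, rfl⟩
  have hHm : ∀ σ, σ ∈ H ↔ Compat S σ := fun σ => by
    rw [hH, Finset.mem_filter]
    exact ⟨fun h => h.2, fun h => ⟨Finset.mem_univ _, h⟩⟩
  obtain ⟨P', hP'⟩ : ∃ P' : (G n → K) →ₗ[K] (G n → K),
      P' = ∑ h ∈ H, (Compl_T h⁻¹).comp ((U.subtype.comp p).comp (Compl_T h)) := ⟨_, rfl⟩
  have hPx : ∀ x, P' x = ∑ h ∈ H, Compl_T h⁻¹ ((p (Compl_T h x) : U) : G n → K) := by
    intro x
    rw [hP', LinearMap.sum_apply]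
    rfl
  have hPU : ∀ x, P' x ∈ U := by
    intro x
    rw [hPx]
    exact U.sum_mem fun h hh => hU _ (p (Compl_T h x)).2 h⁻¹ (Compl_compat_inv ((hHm h).1 hh))
  have hPid : ∀ u ∈ U, P' u = (H.card : K) • u := by
    intro u hu
    rw [hPx]
    have h1 : ∀ h ∈ H, Compl_T h⁻¹ ((p (Compl_T h u) : U) : G n → K) = u := by
      intro h hh
      have h2 : ((p (Compl_T h u) : U) : G n → K) = Compl_T h u :=
        hp' _ (hU u hu h ((hHm h).1 hh))
      rw [h2, Compl_T_mul, mul_inv_cancel, Compl_T_one]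
    rw [Finset.sum_congr rfl h1, Finset.sum_const, Nat.cast_smul_eq_nsmul]
  have hPc : ∀ s, Compat S s → ∀ x, P' (Compl_T s x) = Compl_T s (P' x) := by
    intro s hs x
    rw [hPx, hPx, map_sum]
    refine Finset.sum_bij (fun h _ => s * h) ?_ ?_ ?_ ?_
    · intro h hh
      exact (hHm _).2 (Compl_compat_mul hs ((hHm h).1 hh))
    · intro h _ h' _ e
      exact mul_left_cancel e
    · intro h hh
      exact ⟨s⁻¹ * h, (hHm _).2 (Compl_compat_mul (Compl_compat_inv hs) ((hHm h).1 hh)),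
        mul_inv_cancel_left s h⟩
    · intro h hh
      rw [Compl_T_mul, Compl_T_mul]
      congr 1
      group
  have hcard : (H.card : K) ≠ 0 := by
    rw [Nat.cast_ne_zero]
    exact Finset.card_ne_zero_of_mem ((hHm 1).2 fun _ => rfl)
  refine ⟨V ⊓ LinearMap.ker P', inf_le_left, ?_, ?_, ?_⟩
  · rw [eq_bot_iff]
    rintro x ⟨⟨-, hx2⟩, hxU⟩
    have h1 := hPid x hxU
    rw [LinearMap.mem_ker.1 hx2] at h1
    exact (smul_eq_zero.1 h1.symm).resolve_left hcard
  · intro hbot
    apply hne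
    intro x hx
    have h1 : (H.card : K) • x - P' x ∈ V ⊓ LinearMap.ker P' := by
      refine ⟨V.sub_mem (V.smul_mem _ hx) (hUV (hPU x)), ?_⟩
      refine LinearMap.mem_ker.2 ?_
      rw [map_sub, map_smul, hPid _ (hPU x), sub_self]
    rw [hbot, Submodule.mem_bot, sub_eq_zero] at h1
    have h2 : (H.card : K) • x ∈ U := by
      rw [h1]
      exact hPU x
    exact (U.smul_mem_iff hcard).1 h2
  · rintro x ⟨hx1, hx2⟩ h hh
    refine ⟨hV x hx1 h hh, ?_⟩
    have h1 := hPc h hh x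
    rw [LinearMap.mem_ker.1 hx2, map_zero] at h1
    exact h1

end Pool.Agent.W_868bb7_h94
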