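import Pool.Agent.W_868bb7_h94.AddSym

set_option autoImplicit false

/-!
# FlagEx: flags with minimal sum of the colours

Choose the pair `(col, x)` with `∑ j, col j` minimal (`Nat.find`, or `WellFounded.min`, or strong induction
on the sum) among all pairs with `col j < N`, `x ∈ V`, `x ≠ 0`, `x` of sign `s l` in each class `l`.
* Second property: let `l < col k`, `T = cl col l` (`k ∉ T`), `y = addSym (s l) T k x ∈ V`
  (`addSym_mem`).  With `col' = Function.update col k l`: the class `l` of `col'` is `insert k T`, where `y` has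
  sign `s l` (`addSym_insert`); the other classes `l'` of `col'` are subsets of `cl col l'` without `k`,
  disjoint from `T`, where `y` has sign `s l'` (`addSym_other`).  The sum of `col'` is smaller, so
  `y = 0`: `x g + e ∑ x (swap j k * g) = 0`, `e = cs (s l)`, `e * e = 1`.
* Third property: if `card (cl col l) < card (cl col l')`, exchange the labels,
  `col' j = Equiv.swap l l' (col j)`: the class `l` of `col'` is the class `l'` of `col` and conversely, so
  `x` has the right signs (`s l = s l'`), `col' j < N`, and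
  `∑ col' = ∑ col - (l' - l) (card (cl col l') - card (cl col l))` is smaller.
-/

namespace Pool.Agent.W_868bb7_h94

open Equiv Pool.Agent.W_MP_868bb7_ag

variable {K : Type*} [Field K]

theorem FlagEx_mem {n : ℕ} {col : Fin n → ℕ} {l : ℕ} {j : Fin n} : j ∈ cl col l ↔ col j = l := by
  unfold cl
  rw [Finset.mem_filter]
  exact ⟨fun h => h.2, fun h => ⟨Finset.mem_univ _, h⟩⟩

theorem FlagEx_mono {b : Bool} {n : ℕ} {T T' : Finset (Fin n)} {x : G n → K}
    (h : IsSym b T x) (hT : T' ⊆ T) : IsSym b T' x :=
  fun j hj k hk => h j (hT hj) k (hT hk)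

theorem FlagEx_cs (b : Bool) : ((cs b : ℤ) : K) * ((cs b : ℤ) : K) = 1 := by
  cases b
  · show ((1 : ℤ) : K) * ((1 : ℤ) : K) = 1
    rw [Int.cast_one, one_mul]
  · show ((-1 : ℤ) : K) * ((-1 : ℤ) : K) = 1
    rw [Int.cast_neg, Int.cast_one, neg_mul_neg, one_mul]

theorem FlagEx_swap {n : ℕ} (col : Fin n → ℕ) {l l' : ℕ} (hl : l < l')
    (hc : (cl col l).card < (cl col l').card) :
    ∑ j, Equiv.swap l l' (col j) < ∑ j, col j := by
  have h1 : ∀ j : Fin n, ((Equiv.swap l l' (col j) : ℕ) : ℤ) = (col j : ℤ) +
      ((l' : ℤ) - l) * (if col j = l then 1 else 0) -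
        ((l' : ℤ) - l) * (if col j = l' then 1 else 0) := by
    intro j
    by_cases h2 : col j = l
    · rw [h2, Equiv.swap_apply_left, if_pos rfl, if_neg hl.ne]
      ring
    · by_cases h3 : col j = l'
      · rw [h3, Equiv.swap_apply_right, if_pos rfl, if_neg hl.ne']
        ring
      · rw [Equiv.swap_apply_of_ne_of_ne h2 h3, if_neg h2, if_neg h3]
        ring
  have h4 : ∀ m : ℕ, ∑ j : Fin n, (if col j = m then (1 : ℤ) else 0) = ((cl col m).card : ℤ) := by
    intro m
    rw [Finset.sum_boole]
    rfl
  have h5 : ((∑ j, Equiv.swap l l' (col j) : ℕ) : ℤ) = ((∑ j, col j : ℕ) : ℤ) +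
      ((l' : ℤ) - l) * ((cl col l).card : ℤ) - ((l' : ℤ) - l) * ((cl col l').card : ℤ) := by
    rw [Nat.cast_sum, Nat.cast_sum, Finset.sum_congr rfl fun j _ => h1 j,
      Finset.sum_sub_distrib, Finset.sum_add_distrib, ← Finset.mul_sum, ← Finset.mul_sum, h4, h4]
  have h6 : 0 < ((l' : ℤ) - l) * (((cl col l').card : ℤ) - (cl col l).card) :=
    mul_pos (by omega) (by omega)
  rw [mul_sub] at h6
  omega

theorem FlagEx_update {n : ℕ} (col : Fin n → ℕ) {k : Fin n} {l : ℕ} (hl : l < col k) :
    ∑ j, Function.update col k l j < ∑ j, col j := by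
  have h1 := Finset.sum_update_of_mem (Finset.mem_univ k) col l
  have h2 := Finset.sum_update_of_mem (Finset.mem_univ k) col (col k)
  rw [Function.update_eq_self] at h2
  omega

theorem flag_exists {n : ℕ} (V : Submodule K (G n → K)) (hV : LStable V) (s : ℕ → Bool) (N : ℕ)
    (col0 : Fin n → ℕ) (hcol0 : ∀ j, col0 j < N) (x0 : G n → K) (hx0 : x0 ∈ V) (hne : x0 ≠ 0)
    (h0 : ∀ l, IsSym (s l) (cl col0 l) x0) :
    ∃ (col : Fin n → ℕ) (x : G n → K), (∀ j, col j < N) ∧ x ∈ V ∧ x ≠ 0 ∧
      (∀ l, IsSym (s l) (cl col l) x) ∧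
      (∀ (k : Fin n) (l : ℕ), l < col k → ∀ g : G n,
        ∑ j ∈ cl col l, x (swap j k * g) = -((cs (s l) : ℤ) : K) * x g) ∧
      (∀ l l' : ℕ, l < l' → l' < N → s l = s l' → (cl col l').card ≤ (cl col l).card) := by
  classical
  have hex : ∃ m : ℕ, ∃ (col : Fin n → ℕ) (x : G n → K), (∀ j, col j < N) ∧ x ∈ V ∧ x ≠ 0 ∧
      (∀ l, IsSym (s l) (cl col l) x) ∧ ∑ j, col j = m :=
    ⟨_, col0, x0, hcol0, hx0, hne, h0, rfl⟩
  obtain ⟨col, x, hcol, hx, hx', hsym, hm⟩ := Nat.find_spec hex
  have hmin : ∀ (col' : Fin n → ℕ) (y : G n → K), (∀ j, col' j < N) → y ∈ V →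
      (∀ l, IsSym (s l) (cl col' l) y) → ∑ j, col' j < ∑ j, col j → y = 0 := by
    intro col' y h1 h2 h3 h4
    by_contra hy
    rw [hm] at h4
    exact Nat.find_min hex h4 ⟨col', y, h1, h2, hy, h3, rfl⟩
  refine ⟨col, x, hcol, hx, hx', hsym, ?_, ?_⟩
  · intro k l hl g
    have hk : k ∉ cl col l := by
      rw [FlagEx_mem]
      omega
    have hy : addSym (s l) (cl col l) k x = 0 := by
      refine hmin (Function.update col k l) _ ?_ (addSym_mem (s l) V hV _ k x hx) ?_
        (FlagEx_update col hl)
      · intro j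
        by_cases hj : j = k
        · rw [hj, Function.update_self]
          exact hl.trans (hcol k)
        · rw [Function.update_of_ne hj]
          exact hcol j
      · intro m
        by_cases hml : m = l
        · have h1 : cl (Function.update col k l) m = insert k (cl col l) := by
            ext j
            rw [Finset.mem_insert, FlagEx_mem, FlagEx_mem, hml]
            by_cases hj : j = k
            · rw [hj, Function.update_self]
              simp
            · rw [Function.update_of_ne hj]
              simp [hj]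
          rw [h1, hml]
          exact addSym_insert (s l) (cl col l) k hk x (hsym l)
        · have h1 : ∀ j, j ∈ cl (Function.update col k l) m → j ≠ k ∧ col j = m := by
            intro j hj
            rw [FlagEx_mem] at hj
            by_cases hjk : j = k
            · rw [hjk, Function.update_self] at hj
              exact absurd hj.symm hml
            · rw [Function.update_of_ne hjk] at hj
              exact ⟨hjk, hj⟩
          refine addSym_other (s l) (s m) _ _ k (fun h => (h1 k h).1 rfl) ?_ x
            (FlagEx_mono (hsym m) fun j hj => FlagEx_mem.2 (h1 j hj).2)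
          rw [Finset.disjoint_left]
          intro j hj hj'
          rw [FlagEx_mem] at hj
          have h2 := (h1 j hj').2
          omega
    have h1 : x g + ((cs (s l) : ℤ) : K) * ∑ j ∈ cl col l, x (swap j k * g) = 0 :=
      congrFun hy g
    have h2 := FlagEx_cs (K := K) (s l)
    obtain ⟨e, he⟩ : ∃ e : K, e = ((cs (s l) : ℤ) : K) := ⟨_, rfl⟩
    obtain ⟨S, hS⟩ : ∃ S : K, S = ∑ j ∈ cl col l, x (swap j k * g) := ⟨_, rfl⟩
    rw [← he, ← hS] at h1
    rw [← he] at h2
    rw [← he, ← hS]
    have h3 : e * (x g + e * S) = 0 := by rw [h1, mul_zero]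
    have h4 : e * (x g + e * S) = e * x g + (e * e) * S := by ring
    rw [h4, h2, one_mul] at h3
    rw [neg_mul]
    exact eq_neg_of_add_eq_zero_right h3
  · intro l l' hll hl' hs
    by_contra hc
    rw [not_le] at hc
    apply hx'
    refine hmin (fun j => Equiv.swap l l' (col j)) x ?_ hx ?_ (FlagEx_swap col hll hc)
    · intro j
      show Equiv.swap l l' (col j) < N
      have h1 := hcol j
      rw [Equiv.swap_apply_def]
      split_ifs <;> omega
    · intro m
      have h1 : cl (fun j => Equiv.swap l l' (col j)) m = cl col (Equiv.swap l l' m) := by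
        ext j
        rw [FlagEx_mem, FlagEx_mem]
        constructor
        · intro h
          rw [← h, Equiv.swap_apply_self]
        · intro h
          rw [h, Equiv.swap_apply_self]
      have h2 : s m = s (Equiv.swap l l' m) := by
        rw [Equiv.swap_apply_def]
        split_ifs with h3 h3
        · rw [h3, hs]
        · rw [h3, hs]
        · rfl
      rw [h1, h2]
      exact hsym _

end Pool.Agent.W_868bb7_h94
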