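import Pool.Agent.W_868bb7_h94.AddSym
import Pool.Agent.W_868bb7_h94.FlagEx
import Pool.Agent.W_868bb7_h94.DefsC

set_option autoImplicit false

/-!
# FlagPart: flags for a subspace stable under the permutations preserving the parts

The colours of the part `S = false` are even, those of the part `S = true` odd.  Same proof as `flag_exists`
(module `FlagEx`): minimal `∑ j, col j` among all `(col, x)` with `(S j = true ↔ col j % 2 = 1)`, `x ∈ Q`, `x ≠ 0`, `x` of
sign `decide (l % 2 = 1)` in the class `l`; start: `col j = 2 * j.val` or `2 * j.val + 1` (classes with at most one element).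
For `l < col k` of the same parity, `T = cl col l` is in the same part as `k`, so `addSym _ T k x ∈ Q` (`swap j k` preserves
the parts), and `Function.update col k l` is again admissible.
-/

namespace Pool.Agent.W_868bb7_h94

open Equiv Pool.Agent.W_MP_868bb7_ag

variable {K : Type*} [Field K]

theorem FlagPart_compat {n : ℕ} (S : Fin n → Bool) {j k : Fin n} (h : S j = S k) :
    Compat S (swap j k) := by
  intro i
  by_cases hi : i = j
  · rw [hi, Equiv.swap_apply_left, h]
  · by_cases hi' : i = k
    · rw [hi', Equiv.swap_apply_right, h]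
    · rw [Equiv.swap_apply_of_ne_of_ne hi hi']

theorem FlagPart_mem (b : Bool) {n : ℕ} (S : Fin n → Bool) (Q : Submodule K (G n → K))
    (hQ : HStable S Q) (T : Finset (Fin n)) (k : Fin n) (hT : ∀ j ∈ T, S j = S k)
    (x : G n → K) (hx : x ∈ Q) : addSym b T k x ∈ Q := by
  have h : addSym b T k x = x + ((cs b : ℤ) : K) • ∑ j ∈ T, (fun g => x (swap j k * g)) := by
    funext g
    simp only [addSym, Pi.add_apply, Pi.smul_apply, Finset.sum_apply, smul_eq_mul]
  rw [h]
  exact Q.add_mem hx (Q.smul_mem _ (Q.sum_mem fun j hj =>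
    hQ x hx _ (FlagPart_compat S (hT j hj))))

theorem flag_exists_part {n : ℕ} (S : Fin n → Bool) (Q : Submodule K (G n → K))
    (hQ : HStable S Q) (hne : Q ≠ ⊥) :
    ∃ (col : Fin n → ℕ) (x : G n → K), (∀ j, S j = true ↔ col j % 2 = 1) ∧ x ∈ Q ∧ x ≠ 0 ∧
      (∀ l, IsSym (decide (l % 2 = 1)) (cl col l) x) ∧
      (∀ (k : Fin n) (l : ℕ), l < col k → l % 2 = col k % 2 → ∀ g : G n,
        ∑ j ∈ cl col l, x (swap j k * g) = -((cs (decide (l % 2 = 1)) : ℤ) : K) * x g) := by
  classical
  obtain ⟨x0, hx0, hne0⟩ := Submodule.exists_mem_ne_zero_of_ne_bot hne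
  have hex : ∃ m : ℕ, ∃ (col : Fin n → ℕ) (x : G n → K), (∀ j, S j = true ↔ col j % 2 = 1) ∧
      x ∈ Q ∧ x ≠ 0 ∧ (∀ l, IsSym (decide (l % 2 = 1)) (cl col l) x) ∧ ∑ j, col j = m := by
    refine ⟨_, fun j => if S j = true then 2 * j.val + 1 else 2 * j.val, x0, ?_, hx0, hne0, ?_, rfl⟩
    · intro j
      beta_reduce
      by_cases h : S j = true
      · rw [if_pos h]
        exact ⟨fun _ => by omega, fun _ => h⟩
      · rw [if_neg h]
        exact ⟨fun h1 => absurd h1 h, fun h1 => by omega⟩
    · intro l j hj k hk hjk g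
      exfalso
      apply hjk
      rw [FlagEx_mem] at hj hk
      apply Fin.ext
      split_ifs at hj hk <;> omega
  obtain ⟨col, x, hcol, hx, hx', hsym, hm⟩ := Nat.find_spec hex
  have hmin : ∀ (col' : Fin n → ℕ) (y : G n → K), (∀ j, S j = true ↔ col' j % 2 = 1) → y ∈ Q →
      (∀ l, IsSym (decide (l % 2 = 1)) (cl col' l) y) → ∑ j, col' j < ∑ j, col j → y = 0 := by
    intro col' y h1 h2 h3 h4
    by_contra hy
    rw [hm] at h4
    exact Nat.find_min hex h4 ⟨col', y, h1, h2, hy, h3, rfl⟩
  refine ⟨col, x, hcol, hx, hx', hsym, ?_⟩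
  intro k l hl hlk g
  have hk : k ∉ cl col l := by
    rw [FlagEx_mem]
    omega
  have hS : ∀ j ∈ cl col l, S j = S k := by
    intro j hj
    rw [FlagEx_mem] at hj
    rw [Bool.eq_iff_iff, hcol j, hcol k, hj, hlk]
  have hy : addSym (decide (l % 2 = 1)) (cl col l) k x = 0 := by
    refine hmin (Function.update col k l) _ ?_ (FlagPart_mem _ S Q hQ _ k hS x hx) ?_
      (FlagEx_update col hl)
    · intro j
      by_cases hj : j = k
      · rw [hj, Function.update_self, hcol k, hlk]
      · rw [Function.update_of_ne hj]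
        exact hcol j
    · intro m
      by_cases hml : m = l
      · have h1 : cl (Function.update col k l) m = insert k (cl col l) := by
          ext j
          rw [Finset.mem_insert, FlagEx_mem, FlagEx_mem, hml]
          by_cases hj : j = k
          · rw [hj, Function.update_self]
            simp
          · rw [Function.update_of_ne hj]
            simp [hj]
        rw [h1, hml]
        exact addSym_insert _ (cl col l) k hk x (hsym l)
      · have h1 : ∀ j, j ∈ cl (Function.update col k l) m → j ≠ k ∧ col j = m := by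
          intro j hj
          rw [FlagEx_mem] at hj
          by_cases hjk : j = k
          · rw [hjk, Function.update_self] at hj
            exact absurd hj.symm hml
          · rw [Function.update_of_ne hjk] at hj
            exact ⟨hjk, hj⟩
        refine addSym_other _ _ _ _ k (fun h => (h1 k h).1 rfl) ?_ x
          (FlagEx_mono (hsym m) fun j hj => FlagEx_mem.2 (h1 j hj).2)
        rw [Finset.disjoint_left]
        intro j hj hj'
        rw [FlagEx_mem] at hj
        have h2 := (h1 j hj').2
        omega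
  have h1 : x g + ((cs (decide (l % 2 = 1)) : ℤ) : K) * ∑ j ∈ cl col l, x (swap j k * g) = 0 :=
    congrFun hy g
  have h2 := FlagEx_cs (K := K) (decide (l % 2 = 1))
  obtain ⟨e, he⟩ : ∃ e : K, e = ((cs (decide (l % 2 = 1)) : ℤ) : K) := ⟨_, rfl⟩
  obtain ⟨S', hS'⟩ : ∃ S' : K, S' = ∑ j ∈ cl col l, x (swap j k * g) := ⟨_, rfl⟩
  rw [← he, ← hS'] at h1
  rw [← he] at h2
  rw [← he, ← hS']
  have h3 : e * (x g + e * S') = 0 := by rw [h1, mul_zero]
  have h4 : e * (x g + e * S') = e * x g + (e * e) * S' := by ring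
  rw [h4, h2, one_mul] at h3
  rw [neg_mul]
  exact eq_neg_of_add_eq_zero_right h3

end Pool.Agent.W_868bb7_h94
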