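import Pool.Agent.W_868bb7_h94.Defs

set_option autoImplicit false

/-!
# Count: the number of strands of a flag with constant star sums
-/

namespace Pool.Agent.W_868bb7_h94

open Equiv Pool.Agent.W_MP_868bb7_ag

variable {K : Type*} [Field K]

theorem Count_cs (b : Bool) : ((cs b : ℤ) : K) * ((cs b : ℤ) : K) = 1 := by
  cases b <;> simp [cs]

/-- Let `T = cl col 0`, `a = T.card`, `e = cs b`.  Choose `g` with `x g ≠ 0`.  Sum the star sums over
`k ∈ T`: `a * c * x g = ∑_{k ∈ T} ∑_{j ≠ k} x (swap j k * g)`.  The part `j ∈ T` gives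
`a * (a - 1) * e * x g`.  In the part `j ∉ T` (so `0 < col j`) exchange the sums and use
`swap j k = swap k j` and `hmax`: it is `(n - a) * (-e) * x g`.  So
`a c = a (a - 1) e - e (n - a)`, and `e * e = 1` gives the claim. -/
theorem count_eq (b : Bool) {n : ℕ} (col : Fin n → ℕ) (x : G n → K) (c : K) (hx : x ≠ 0)
    (hs : Star c x) (hsym : IsSym b (cl col 0) x)
    (hmax : ∀ k : Fin n, 0 < col k → ∀ g : G n,
      ∑ j ∈ cl col 0, x (swap j k * g) = -((cs b : ℤ) : K) * x g) :
    (n : K) = ((cl col 0).card : K) * (((cl col 0).card : K) - ((cs b : ℤ) : K) * c) := by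
  classical
  obtain ⟨g, hg⟩ : ∃ g, x g ≠ 0 := by
    by_contra h
    push Not at h
    exact hx (funext h)
  have he := Count_cs (K := K) b
  set e : K := ((cs b : ℤ) : K) with hedef
  set T := cl col 0 with hT
  have h1 : ∀ k ∈ T, ∑ j ∈ Finset.univ.erase k, x (swap j k * g) =
      ((T.card : K) - 1) * (e * x g) + ∑ j ∈ Tᶜ, x (swap j k * g) := by
    intro k hk
    have h2 : Finset.univ.erase k = (T.erase k) ∪ Tᶜ := by
      ext j
      simp only [Finset.mem_erase, Finset.mem_univ, and_true, Finset.mem_union, Finset.mem_compl]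
      constructor
      · intro hj
        by_cases hjT : j ∈ T
        · exact Or.inl ⟨hj, hjT⟩
        · exact Or.inr hjT
      · rintro (hj | hj)
        · exact hj.1
        · intro hjk
          exact hj (hjk ▸ hk)
    have h3 : Disjoint (T.erase k) Tᶜ := by
      rw [Finset.disjoint_left]
      intro j hj hj'
      exact (Finset.mem_compl.1 hj') (Finset.mem_of_mem_erase hj)
    rw [h2, Finset.sum_union h3]
    congr 1
    rw [← Finset.cast_card_erase_of_mem hk, ← nsmul_eq_mul]
    apply Finset.sum_eq_card_nsmul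
    intro j hj
    exact hsym j (Finset.mem_of_mem_erase hj) k hk (Finset.ne_of_mem_erase hj) g
  have h4 : ∑ k ∈ T, ∑ j ∈ Tᶜ, x (swap j k * g) = ((n : K) - T.card) * (-e * x g) := by
    rw [Finset.sum_comm]
    have h5 : ∀ j ∈ Tᶜ, ∑ k ∈ T, x (swap j k * g) = -e * x g := by
      intro j hj
      have h6 : 0 < col j := by
        rw [Nat.pos_iff_ne_zero]
        intro h0
        exact (Finset.mem_compl.1 hj) (Finset.mem_filter.2 ⟨Finset.mem_univ _, h0⟩)
      rw [← hmax j h6 g]
      refine Finset.sum_congr rfl fun k _ => ?_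
      rw [swap_comm]
    rw [Finset.sum_eq_card_nsmul h5, nsmul_eq_mul, Finset.card_compl, Fintype.card_fin,
      Nat.cast_sub]
    have h7 := Finset.card_le_univ T
    rwa [Fintype.card_fin] at h7
  have h8 : ∑ k ∈ T, ∑ j ∈ Finset.univ.erase k, x (swap j k * g) = (T.card : K) * (c * x g) := by
    rw [Finset.sum_eq_card_nsmul (fun k _ => hs k g), nsmul_eq_mul]
  have h9 : (T.card : K) * (c * x g) = (T.card : K) * (((T.card : K) - 1) * (e * x g)) +
      ((n : K) - T.card) * (-e * x g) := by
    rw [← h8, Finset.sum_congr rfl h1, Finset.sum_add_distrib, h4, Finset.sum_const, nsmul_eq_mul]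
  have h10 : ((T.card : K) * c - (T.card : K) * ((T.card : K) - 1) * e +
      ((n : K) - T.card) * e) * x g = 0 := by
    linear_combination h9
  have h11 := (mul_eq_zero.1 h10).resolve_right hg
  linear_combination e * h11 + ((T.card : K) * ((T.card : K) - 1) - ((n : K) - T.card)) * he

/-- in `ℤ`: if `a ≥ p + 2` then `a + q - p ≥ q + 2` and `n = a * (a + q - p) ≥ (p + 2) * (q + 2)` -/
theorem card_le_of_lt [CharZero K] (a p q n : ℕ)
    (h : (n : K) = (a : K) * ((a : K) + ((q : K) - p)))
    (hn : n < (p + 2) * (q + 2)) : a ≤ p + 1 := by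
  have h1 : (n : ℤ) = (a : ℤ) * ((a : ℤ) + ((q : ℤ) - p)) := by
    have h2 : (((n : ℤ) : K)) = (((a : ℤ) * ((a : ℤ) + ((q : ℤ) - p)) : ℤ) : K) := by
      push_cast
      exact h
    exact_mod_cast h2
  by_contra h3
  push Not at h3
  have h4 : (p : ℤ) + 2 ≤ a := by
    have : p + 2 ≤ a := by omega
    exact_mod_cast this
  have h5 : (n : ℤ) < ((p : ℤ) + 2) * (q + 2) := by exact_mod_cast hn
  nlinarith [mul_nonneg (sub_nonneg.2 h4) (by linarith : (0 : ℤ) ≤ (a : ℤ) + q - p - (q + 2)),
    Int.natCast_nonneg p, Int.natCast_nonneg q]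

end Pool.Agent.W_868bb7_h94
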