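import Pool.Agent.W_868bb7_h94.FlagEx
import Pool.Agent.W_868bb7_h94.Count
import Pool.Agent.W_868bb7_h94.DefsC

set_option autoImplicit false

/-!
# NoMixed: no element with star sums `q - p` is symmetric in `p` classes and alternating in `q` classes
-/

namespace Pool.Agent.W_868bb7_h94

open Equiv Pool.Agent.W_MP_868bb7_ag

variable {K : Type*} [Field K]

/-- `Jst c n` is stable under left translations: `y g = x (h * g)`, `y (swap j k * g) =
x (swap (h j) (h k) * (h * g))` -/
theorem Jst_L (c : K) (n : ℕ) : LStable (Jst c n) := by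
  intro x hx h k g
  have h1 := hx (h k) (h * g)
  show ∑ j ∈ Finset.univ.erase k, x (h * (swap j k * g)) = c * x (h * g)
  rw [← h1]
  refine Finset.sum_bij' (fun j _ => h j) (fun j _ => h.symm j) ?_ ?_ ?_ ?_ ?_
  · intro j hj
    rw [Finset.mem_erase] at hj ⊢
    exact ⟨fun h' => hj.1 (h.injective h'), Finset.mem_univ _⟩
  · intro j hj
    rw [Finset.mem_erase] at hj ⊢
    refine ⟨fun h' => hj.1 ?_, Finset.mem_univ _⟩
    rw [← h', Equiv.apply_symm_apply]
  · intro j _
    exact Equiv.symm_apply_apply _ _
  · intro j _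
    exact Equiv.apply_symm_apply _ _
  · intro j _
    congr 1
    rw [Equiv.swap_apply_apply]
    simp only [mul_assoc, inv_mul_cancel_left]

theorem Jst_R (c : K) (n : ℕ) : RStable (Jst c n) := by
  intro x hx h k g
  have h1 := hx k (g * h)
  show ∑ j ∈ Finset.univ.erase k, x (swap j k * g * h) = c * x (g * h)
  rw [← h1]
  refine Finset.sum_congr rfl fun j _ => ?_
  rw [mul_assoc]

theorem NoMixed_cs (p l : ℕ) : ((cs (decide (p ≤ l)) : ℤ) : K) = if p ≤ l then -1 else 1 := by
  unfold cs
  by_cases h : p ≤ l
  · simp [h]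
  · simp [h]

theorem NoMixed_sum {p L : ℕ} (h : p ≤ L) :
    ∑ l ∈ Finset.range L, (if p ≤ l then (1 : K) else -1) = (L : K) - 2 * p := by
  induction L, h using Nat.le_induction with
  | base =>
    have h1 : ∀ l ∈ Finset.range p, (if p ≤ l then (1 : K) else -1) = -1 := by
      intro l hl
      rw [Finset.mem_range] at hl
      rw [if_neg (by omega)]
    rw [Finset.sum_congr rfl h1, Finset.sum_const, Finset.card_range, nsmul_eq_mul]
    ring
  | succ L hL ih =>
    rw [Finset.sum_range_succ, ih, if_pos hL]
    push_cast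
    ring

/-- the last class: star sum at a strand of maximal colour -/
theorem NoMixed_top {n p L : ℕ} (hp : p ≤ L) {c : K} {x : G n → K} (hx : Star c x)
    {col : Fin n → ℕ} (hcol : ∀ j, col j ≤ L) {k : Fin n} (hk : col k = L)
    (hs : IsSym (decide (p ≤ L)) (cl col L) x)
    (h2 : ∀ l, l < L → ∀ g : G n,
      ∑ j ∈ cl col l, x (swap j k * g) = -((cs (decide (p ≤ l)) : ℤ) : K) * x g) (g : G n) :
    c * x g = ((L : K) - 2 * p - ((cl col L).card - 1)) * x g := by
  have hkT : k ∈ cl col L := FlagEx_mem.2 hk
  rw [← hx k g]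
  have h3 : ∑ j ∈ Finset.univ.erase k, x (swap j k * g) =
      ∑ l ∈ Finset.range (L + 1), ∑ j ∈ (Finset.univ.erase k).filter (fun j => col j = l),
        x (swap j k * g) := by
    rw [Finset.sum_fiberwise_of_maps_to]
    intro j _
    rw [Finset.mem_range]
    have := hcol j
    omega
  rw [h3, Finset.sum_range_succ]
  have h4 : ∀ l ∈ Finset.range L, ∑ j ∈ (Finset.univ.erase k).filter (fun j => col j = l),
      x (swap j k * g) = (if p ≤ l then (1 : K) else -1) * x g := by
    intro l hl
    rw [Finset.mem_range] at hl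
    have h5 : (Finset.univ.erase k).filter (fun j => col j = l) = cl col l := by
      ext j
      rw [Finset.mem_filter, Finset.mem_erase, FlagEx_mem]
      refine ⟨fun h => h.2, fun h => ⟨⟨?_, Finset.mem_univ _⟩, h⟩⟩
      rintro rfl
      omega
    rw [h5, h2 l hl g, NoMixed_cs]
    split_ifs <;> ring
  have h6 : (Finset.univ.erase k).filter (fun j => col j = L) = (cl col L).erase k := by
    ext j
    rw [Finset.mem_filter, Finset.mem_erase, Finset.mem_erase, FlagEx_mem]
    exact ⟨fun h => ⟨h.1.1, h.2⟩, fun h => ⟨⟨h.1, Finset.mem_univ _⟩, h.2⟩⟩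
  have h7 : ∀ j ∈ (cl col L).erase k, x (swap j k * g) = -x g := by
    intro j hj
    rw [Finset.mem_erase] at hj
    have h8 := hs j hj.2 k hkT hj.1 g
    rw [NoMixed_cs, if_pos hp] at h8
    rw [h8, neg_one_mul]
  rw [Finset.sum_congr rfl h4, ← Finset.sum_mul, NoMixed_sum hp, h6, Finset.sum_congr rfl h7,
    Finset.sum_const, Finset.card_erase_of_mem hkT, nsmul_eq_mul,
    Nat.cast_sub (Finset.card_pos.2 ⟨k, hkT⟩), Nat.cast_one]
  ring

/-- Suppose `x ≠ 0`.  `flag_exists` with `V = Jst c n` (`c = q - p`, `n = (p + 1) * (q + 1)`), `N = p + q`,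
`s l = decide (p ≤ l)` replaces `col`, `x` by a flag.  `cs (s l) = 1` for `l < p` and `-1` for `p ≤ l`.  Let `L` be the
maximal colour (`n ≥ 1`), `k` with `col k = L`; `L < p + q`.
* Case `p ≤ L`.  The strands `j ≠ k` are the classes `l < L` and the class `L` without `k`; the star sum at `k` gives
  `(q - p) x g = ∑_{l<L} -(cs (s l)) x g + (card (cl col L) - 1) (-1) x g
  = (-p + (L - p) - card (cl col L) + 1) x g`, so `card (cl col L) + p + q = L + 1` (characteristic `0`), but
  `card (cl col L) ≥ 1`: a contradiction.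
* Case `L < p`.  All classes are symmetric; `count_eq` with `b = false`: `n = a (a - (q - p))`,
  `a = card (cl col 0)`, so `a ≤ q + 1` by `card_le_of_lt` (with `p`, `q` exchanged; `n < (q + 2) * (p + 2)`).  By the third
  property of `flag_exists` every class `l < p` has at most `a ≤ q + 1` elements and all colours are `< p`, so
  `n ≤ p * (q + 1) < n`. -/
theorem no_mixed [CharZero K] (p q : ℕ) (x : G ((p + 1) * (q + 1)) → K)
    (hx : Star ((q : K) - p) x) (col : Fin ((p + 1) * (q + 1)) → ℕ) (hcol : ∀ j, col j < p + q)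
    (hs : ∀ l, IsSym (decide (p ≤ l)) (cl col l) x) : x = 0 := by
  by_contra hne
  obtain ⟨col', y, hcol', hy, hy0, hsym, h2, h3⟩ := flag_exists (Jst ((q : K) - p) _)
    (Jst_L _ _) (fun l => decide (p ≤ l)) (p + q) col hcol x hx hne hs
  have hn : 0 < (p + 1) * (q + 1) := Nat.mul_pos (Nat.succ_pos _) (Nat.succ_pos _)
  obtain ⟨k, -, hk⟩ := Finset.exists_max_image Finset.univ col'
    ⟨(⟨0, hn⟩ : Fin ((p + 1) * (q + 1))), Finset.mem_univ _⟩
  obtain ⟨g, hg⟩ : ∃ g, y g ≠ 0 := by
    by_contra h
    push Not at h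
    exact hy0 (funext h)
  have hkT : k ∈ cl col' (col' k) := FlagEx_mem.2 rfl
  have hkc := Finset.card_pos.2 ⟨k, hkT⟩
  by_cases hp : p ≤ col' k
  · have h4 := NoMixed_top hp hy (fun j => hk j (Finset.mem_univ j)) rfl (hsym (col' k))
      (fun l hl g => h2 k l hl g) g
    have h5 := mul_right_cancel₀ hg h4
    have h6 : (((cl col' (col' k)).card + p + q : ℕ) : K) = ((col' k + 1 : ℕ) : K) := by
      push_cast
      linear_combination h5
    have h7 : (cl col' (col' k)).card + p + q = col' k + 1 := Nat.cast_injective h6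
    have h8 := hcol' k
    omega
  · have hp0 : ¬ p ≤ 0 := by omega
    have hf : ∀ l, ¬ p ≤ l → decide (p ≤ l) = false := fun l hl => decide_eq_false hl
    have h4 : IsSym false (cl col' 0) y := by
      have := hsym 0
      simp only [hf 0 hp0] at this
      exact this
    have h5 := count_eq false col' y ((q : K) - p) hy0 hy h4 (by
      intro j hj g'
      have := h2 j 0 hj g'
      simp only [hf 0 hp0] at this
      exact this)
    have h6 : (cl col' 0).card ≤ q + 1 := by
      refine card_le_of_lt (K := K) _ q p ((p + 1) * (q + 1)) ?_ (by nlinarith)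
      rw [h5]
      have : ((cs false : ℤ) : K) = 1 := by
        show ((1 : ℤ) : K) = 1
        exact Int.cast_one
      rw [this]
      ring
    have h7 : ∀ l ∈ Finset.range p, (cl col' l).card ≤ q + 1 := by
      intro l hl
      rw [Finset.mem_range] at hl
      rcases Nat.eq_zero_or_pos l with h0 | h0
      · rw [h0]
        exact h6
      · refine (h3 0 l h0 (by omega) ?_).trans h6
        simp only [hf 0 hp0, hf l (by omega)]
    have h8 : (p + 1) * (q + 1) = ∑ l ∈ Finset.range p, (cl col' l).card := by
      have h9 := Finset.card_eq_sum_card_fiberwise (s := (Finset.univ : Finset (Fin ((p + 1) *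
        (q + 1))))) (t := Finset.range p) (f := col') (by
          intro j _
          rw [Finset.mem_coe, Finset.mem_range]
          have := hk j (Finset.mem_univ j)
          omega)
      rw [Finset.card_univ, Fintype.card_fin] at h9
      exact h9
    have h9 := Finset.sum_le_sum h7
    rw [← h8, Finset.sum_const, Finset.card_range, smul_eq_mul] at h9
    nlinarith

end Pool.Agent.W_868bb7_h94
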