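import Pool.Agent.W_868bb7_h94.Trans
import Pool.Agent.W_868bb7_h94.Compl
import Pool.Agent.W_868bb7_h94.FlagPart
import Pool.Agent.W_868bb7_h94.NoMixed

set_option autoImplicit false

/-!
# CombKill: a subspace containing the (anti)symmetrizations over `p + 1`, `q + 1` strands is everything
-/

namespace Pool.Agent.W_868bb7_h94

open Equiv Pool.Agent.W_MP_868bb7_ag

variable {K : Type*} [Field K]

/-- Suppose not; `exists_compl` with `V = Jst (q - p) n` (`HStable` by `Jst_L`) gives `Q`, and `flag_exists_part`
gives `col`, `x ∈ Q`, `x ≠ 0`.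
* For `U'` of `p + 1` strands of the part `S = false`, `SEf true U' x ∈ Q ⊓ U = ⊥` (`SEf_mem_part`, `h1`); so
  `trans_bound` with `b = false`, `m = p`, `T i = cl col (2 * i)` shows that `cl col (2 * i)` is empty for `p ≤ i`.
* Similarly `cl col (2 * i + 1)` is empty for `q ≤ i` (`b = true`, `m = q`, `h2`).
* So `col' j = if col j % 2 = 1 then p + col j / 2 else col j / 2` has `col' j < p + q`, its classes are classes of `col`
  with the sign `decide (p ≤ l)`, and `no_mixed` gives `x = 0`, a contradiction. -/
theorem comb_kill [CharZero K] (p q : ℕ) (S : Fin ((p + 1) * (q + 1)) → Bool)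
    (U : Submodule K (G ((p + 1) * (q + 1)) → K)) (hU : HStable S U)
    (hUV : U ≤ Jst ((q : K) - p) ((p + 1) * (q + 1)))
    (h1 : ∀ x ∈ Jst ((q : K) - p) ((p + 1) * (q + 1)), ∀ T : Finset (Fin ((p + 1) * (q + 1))),
      T.card = p + 1 → (∀ i ∈ T, S i = false) → SEf true T x ∈ U)
    (h2 : ∀ x ∈ Jst ((q : K) - p) ((p + 1) * (q + 1)), ∀ T : Finset (Fin ((p + 1) * (q + 1))),
      T.card = q + 1 → (∀ i ∈ T, S i = true) → SEf false T x ∈ U) :
    Jst ((q : K) - p) ((p + 1) * (q + 1)) ≤ U := by
  by_contra hne
  have hVS : HStable S (Jst ((q : K) - p) ((p + 1) * (q + 1))) := fun x hx h _ => Jst_L _ _ x hx h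
  obtain ⟨Q, hQV, hQU, hQ0, hQS⟩ := exists_compl S _ U hUV hVS hU hne
  obtain ⟨col, x, hcol, hxQ, hx0, hsym, hmax⟩ := flag_exists_part S Q hQS hQ0
  have hbot : ∀ y : G ((p + 1) * (q + 1)) → K, y ∈ Q → y ∈ U → y = 0 := by
    intro y h3 h4
    have h5 : y ∈ Q ⊓ U := ⟨h3, h4⟩
    rw [hQU] at h5
    exact (Submodule.mem_bot K).1 h5
  have hd0 : ∀ i : ℕ, decide (2 * i % 2 = 1) = false := by
    intro i
    rw [decide_eq_false_iff_not]
    omega
  have hd1 : ∀ i : ℕ, decide ((2 * i + 1) % 2 = 1) = true := by
    intro i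
    rw [decide_eq_true_iff]
    omega
  have hmem : ∀ (l : ℕ) (j : Fin ((p + 1) * (q + 1))), j ∈ cl col l ↔ col j = l := by
    intro l j
    simp [cl]
  have hA : ∀ i0 : ℕ, p ≤ i0 → ∀ j, col j ≠ 2 * i0 := by
    intro i0 hi0 j hj
    apply hx0
    refine trans_bound false p (fun i => cl col (2 * i)) x ?_ ?_ ?_ i0 hi0 ⟨j, (hmem _ _).2 hj⟩
    · intro i i' hii
      rw [Finset.disjoint_left]
      intro k hk hk'
      have h3 := (hmem _ _).1 hk
      have h4 := (hmem _ _).1 hk'
      omega
    · intro i i' hii k hk g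
      have h3 := (hmem _ _).1 hk
      have h4 := hmax k (2 * i) (by omega) (by omega) g
      rw [hd0] at h4
      exact h4
    · intro T hT hTi
      have hST : ∀ i ∈ T, S i = false := by
        intro i hi
        obtain ⟨i', _, hi'⟩ := hTi i hi
        have h3 := (hmem _ _).1 hi'
        by_contra h4
        rw [Bool.not_eq_false, hcol i] at h4
        omega
      exact hbot _ (SEf_mem_part true S Q hQS false T hST x hxQ) (h1 x (hQV hxQ) T hT hST)
  have hB : ∀ i0 : ℕ, q ≤ i0 → ∀ j, col j ≠ 2 * i0 + 1 := by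
    intro i0 hi0 j hj
    apply hx0
    refine trans_bound true q (fun i => cl col (2 * i + 1)) x ?_ ?_ ?_ i0 hi0
      ⟨j, (hmem _ _).2 hj⟩
    · intro i i' hii
      rw [Finset.disjoint_left]
      intro k hk hk'
      have h3 := (hmem _ _).1 hk
      have h4 := (hmem _ _).1 hk'
      omega
    · intro i i' hii k hk g
      have h3 := (hmem _ _).1 hk
      have h4 := hmax k (2 * i + 1) (by omega) (by omega) g
      rw [hd1] at h4
      exact h4
    · intro T hT hTi
      have hST : ∀ i ∈ T, S i = true := by
        intro i hi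
        obtain ⟨i', _, hi'⟩ := hTi i hi
        have h3 := (hmem _ _).1 hi'
        rw [hcol i]
        omega
      exact hbot _ (SEf_mem_part false S Q hQS true T hST x hxQ) (h2 x (hQV hxQ) T hT hST)
  have hlt : ∀ j, (col j % 2 = 1 → col j / 2 < q) ∧ (¬ col j % 2 = 1 → col j / 2 < p) := by
    intro j
    constructor
    · intro h3
      by_contra h4
      exact hB (col j / 2) (by omega) j (by omega)
    · intro h3
      by_contra h4
      exact hA (col j / 2) (by omega) j (by omega)
  obtain ⟨col', hcol'⟩ : ∃ col' : Fin ((p + 1) * (q + 1)) → ℕ, ∀ j, col' j =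
      if col j % 2 = 1 then p + col j / 2 else col j / 2 := ⟨_, fun _ => rfl⟩
  apply hx0
  refine no_mixed p q x (hQV hxQ) col' ?_ ?_
  · intro j
    rw [hcol']
    have h3 := hlt j
    split_ifs with h4
    · have := h3.1 h4
      omega
    · have := h3.2 h4
      omega
  · intro l j hj k hk hjk g
    have hj1 : col' j = l := by simpa [cl] using hj
    have hk1 : col' k = l := by simpa [cl] using hk
    rw [hcol'] at hj1 hk1
    have h3 := hlt j
    have h4 := hlt k
    by_cases hl : p ≤ l
    · have e1 : col j = 2 * (l - p) + 1 := by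
        split_ifs at hj1 with h5
        · omega
        · have := h3.2 h5
          omega
      have e2 : col k = 2 * (l - p) + 1 := by
        split_ifs at hk1 with h5
        · omega
        · have := h4.2 h5
          omega
      have h6 := hsym (2 * (l - p) + 1) j ((hmem _ _).2 e1) k ((hmem _ _).2 e2) hjk g
      rw [hd1] at h6
      rw [decide_eq_true hl]
      exact h6
    · have e1 : col j = 2 * l := by
        split_ifs at hj1 with h5
        · omega
        · omega
      have e2 : col k = 2 * l := by
        split_ifs at hk1 with h5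
        · omega
        · omega
      have h6 := hsym (2 * l) j ((hmem _ _).2 e1) k ((hmem _ _).2 e2) hjk g
      rw [hd0] at h6
      rw [decide_eq_false hl]
      exact h6

end Pool.Agent.W_868bb7_h94
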