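import Pool.Agent.W_868bb7_h94.YoungB
import Pool.Agent.W_868bb7_h94.DefsC

set_option autoImplicit false

/-!
# YoungC: transport to `Fin ((p + 1) * (q + 1))`
-/

namespace Pool.Agent.W_868bb7_h94

open Equiv Pool.Agent.W_MP_868bb7_ag

variable {K : Type*} [Field K]

/-- `x g = yf (φ⁻¹ g φ)` with `φ = finProdFinEquiv : Fin (p + 1) × Fin (q + 1) ≃ Fin ((p + 1) * (q + 1))`
(`Equiv.permCongr`); `yf_star`, `yf_one` -/
theorem exists_star [CharZero K] (p q : ℕ) :
    ∃ x : G ((p + 1) * (q + 1)) → K, x ≠ 0 ∧ Star ((q : K) - p) x := by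
  obtain ⟨φ, -⟩ : ∃ φ : Fin (p + 1) × Fin (q + 1) ≃ Fin ((p + 1) * (q + 1)), True :=
    ⟨finProdFinEquiv, trivial⟩
  have h1 : φ.symm.permCongr (1 : G ((p + 1) * (q + 1))) = 1 := by
    ext a : 1
    rw [Equiv.permCongr_apply]
    simp
  have hs : ∀ (j k : Fin ((p + 1) * (q + 1))) (g : G ((p + 1) * (q + 1))),
      φ.symm.permCongr (swap j k * g) = swap (φ.symm j) (φ.symm k) * φ.symm.permCongr g := by
    intro j k g
    ext a : 1
    rw [Equiv.permCongr_apply, Perm.mul_apply, Perm.mul_apply, Equiv.permCongr_apply,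
      φ.symm.injective.map_swap]
  refine ⟨fun g => yf K p q (φ.symm.permCongr g), ?_, ?_⟩
  · intro h
    have h2 := congrFun h 1
    rw [h1, yf_one] at h2
    exact one_ne_zero h2
  · intro k g
    show ∑ j ∈ Finset.univ.erase k, yf K p q (φ.symm.permCongr (swap j k * g)) =
      ((q : K) - p) * yf K p q (φ.symm.permCongr g)
    rw [← yf_star p q (φ.symm k) (φ.symm.permCongr g)]
    refine Finset.sum_bij (fun j _ => φ.symm j) ?_ ?_ ?_ ?_
    · intro j hj
      rw [Finset.mem_erase] at hj ⊢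
      exact ⟨fun h => hj.1 (φ.symm.injective h), Finset.mem_univ _⟩
    · intro j _ j' _ h
      exact φ.symm.injective h
    · intro j hj
      rw [Finset.mem_erase] at hj
      refine ⟨φ j, ?_, φ.symm_apply_apply j⟩
      rw [Finset.mem_erase]
      refine ⟨fun h => hj.1 ?_, Finset.mem_univ _⟩
      rw [← h, φ.symm_apply_apply]
    · intro j _
      rw [hs]

end Pool.Agent.W_868bb7_h94
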