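import Pool.Agent.W_868bb7_h94.PhiZ
import Pool.Agent.W_868bb7_h94.YoungC

set_option autoImplicit false

/-!
# Conv: an object of type `(p | q)` has a relation in degree `(p + 1) (q + 1)`
-/

namespace Pool.Agent.W_868bb7_h94

open CategoryTheory MonoidalCategory Equiv Pool.Agent.W_MP_868bb7_ag

universe v u w

variable (K : Type w) [Field K] {C : Type u} [Category.{v} C] [MonoidalCategory C]
  [Preadditive C] [Linear K C] [MonoidalPreadditive C] [MonoidalLinear K C]
  [SymmetricCategory C]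

theorem converse [CharZero K] {X : C} (p q : ℕ) (f f' : X ⟶ X) (hff : f + f' = 𝟙 X)
    (hf : powMap f (p + 1) ≫ E true X (p + 1) = 0)
    (hf' : powMap f' (q + 1) ≫ E false X (q + 1) = 0) :
    ∃ x : G ((p + 1) * (q + 1)) → K, x ≠ 0 ∧ Phi K X ((p + 1) * (q + 1)) x = 0 := by
  obtain ⟨x, hx, hs⟩ := exists_star (K := K) p q
  exact ⟨x, hx, Phi_zero K p q f f' hff hf hf' x hs⟩

end Pool.Agent.W_868bb7_h94
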