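import Pool.Agent.W_868bb7_h94.MinDeg
import Pool.Agent.W_868bb7_h94.Stat
import Pool.Agent.W_868bb7_h94.Conv

set_option autoImplicit false

/-!
# MP_868bb7_ag: a criterion for Kimura finite-dimensionality (general M)

Former hand-in Criterion, replaced by MatchingCriterion (self-dual M); kept as library.

`C` is any `K`-linear (`K` a field of characteristic zero) pseudo-abelian rigid symmetric tensor
category with `End(1) = K`, for example the category of Chow motives over the complex numbers with
rational coefficients.  `M` is of type `(p | q)` (`KimuraType`) if `M ≅ P ⊞ Q` with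
`Λ^(p+1) P = 0`, `Sym^(q+1) Q = 0`, `dim P = p`, `dim Q = -q`.  An object is Kimura
finite-dimensional if and only if it has a type.

Criterion: `M` is of type `(p | q)` if and only if
* some endomorphism `π` of `M` (not assumed to be idempotent) has `tr (π^k) = p` for all `k ≥ 1`, and
  `dim M = p - q` (`Signed`), and
* the `n!` permutations of `M^{⊗ n}` are linearly dependent (`Dep`) for some
  `n < (p + 2) (q + 2)` (equivalently, for `n = (p + 1) (q + 1)`).
-/

namespace Pool.Agent.W_868bb7_h94.CriterionGL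

open CategoryTheory MonoidalCategory Limits Pool.Agent.W_MP_868bb7_ag Pool.Agent.W_868bb7_h94

universe v u w

section Aux

variable (K : Type w) [Field K] {C : Type u} [Category.{v} C] [MonoidalCategory C]
  [Preadditive C] [Linear K C] [SymmetricCategory C]

theorem dep_iff (M : C) (n : ℕ) : Dep K M n ↔ Jm K M n ≠ ⊥ := by
  unfold Dep
  rw [Fintype.not_linearIndependent_iff, Submodule.ne_bot_iff]
  constructor
  · rintro ⟨g, h, i, hi⟩
    refine ⟨g, h, fun h0 => hi ?_⟩
    rw [h0]
    rfl
  · rintro ⟨g, h, h0⟩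
    refine ⟨g, h, ?_⟩
    by_contra hc
    push Not at hc
    exact h0 (funext hc)

end Aux

theorem result (K : Type w) [Field K] [CharZero K] {C : Type u} [Category.{v} C]
    [MonoidalCategory C] [Preadditive C] [Linear K C] [MonoidalPreadditive C] [MonoidalLinear K C]
    [SymmetricCategory C] [RightRigidCategory C] [HasBinaryBiproducts C] [IsIdempotentComplete C]
    (hunit : Function.Bijective (fun a : K => a • 𝟙 (𝟙_ C))) (M : C) :
    (KimuraFD K M ↔ ∃ p q : ℕ, KimuraType K M p q) ∧
    ∀ p q : ℕ, List.TFAE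
      [KimuraType K M p q,
        Signed K M p q ∧ Dep K M ((p + 1) * (q + 1)),
        Signed K M p q ∧ ∃ n : ℕ, n < (p + 2) * (q + 2) ∧ Dep K M n] := by
  haveI : UnitK K C := ⟨hunit⟩
  refine ⟨⟨type_of_kimura K, fun ⟨p, q, h⟩ => kimura_of_type K p q h⟩, ?_⟩
  intro p q
  tfae_have 1 → 2 := by
    intro h
    obtain ⟨e, he, h1, h2, t1, t2⟩ := idem_of_type K p q h
    refine ⟨⟨⟨e, ?_⟩, ?_⟩, (dep_iff K M _).2 ?_⟩
    · intro k hk
      obtain ⟨m, rfl⟩ : ∃ m, k = m + 1 := ⟨k - 1, by omega⟩
      rw [it_idem e he, tr_spec K, t1]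
    · rw [tr_sub, t1] at t2
      rw [tr_spec K]
      congr 1
      linear_combination t2
    · obtain ⟨x, hx, hx0⟩ := converse K p q e (𝟙 M - e) (by abel) h1 h2
      intro hb
      have h3 : x ∈ Jm K M ((p + 1) * (q + 1)) := hx0
      rw [hb, Submodule.mem_bot] at h3
      exact hx h3
  tfae_have 2 → 3 := by
    rintro ⟨h1, h3⟩
    exact ⟨h1, _, by nlinarith, h3⟩
  tfae_have 3 → 1 := by
    rintro ⟨⟨⟨π, hπ⟩, hdim⟩, n, hn, hd⟩
    rw [dep_iff] at hd
    obtain ⟨x, hx, hx0⟩ := Submodule.exists_mem_ne_zero_of_ne_bot hd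
    obtain ⟨e, he, t1, t2, h1, h2⟩ := forward K M π p q
      (fun k hk => tr_unique K _ _ (hπ k hk)) (tr_unique K _ _ hdim) n hn x hx0 hx
    exact type_of_idem K e he p q h1 h2 t1 t2
  tfae_finish

end Pool.Agent.W_868bb7_h94.CriterionGL
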