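import Pool.Agent.W_MP_868bb7_ag.PowE
import Pool.Agent.W_MP_868bb7_ag.TraceK

set_option autoImplicit false

/-!
# Defs: definitions for the criterion for Kimura finite-dimensionality

`G n` is the group of permutations of `Fin n`; `shift τ` (library, module `PermTail`) is `τ` acting
on the positions `1, ..., n` of `Fin (n + 1)`; `cs b` is the sign `-1` (`b = true`) or `1`
(`b = false`), `chi b` the sign character or the trivial character.
For `x : G n → K` and a transposition, the left translate is `g ↦ x (swap j k * g)`.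
Composition `f ≫ g` is first `f`, then `g`; `act X n (σ * τ) = act X n τ ≫ act X n σ` (`act_mul`).
-/

namespace Pool.Agent.W_868bb7_h94

open CategoryTheory MonoidalCategory Equiv Polynomial Pool.Agent.W_MP_868bb7_ag

universe v u w

/-- the group of permutations of `Fin n` -/
abbrev G (n : ℕ) := Equiv.Perm (Fin n)

section Comb

variable {K : Type*} [Field K]

/-- `x` is symmetric (`b = false`) or alternating (`b = true`) in the strands of `T` -/
def IsSym (b : Bool) {n : ℕ} (T : Finset (Fin n)) (x : G n → K) : Prop :=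
  ∀ j ∈ T, ∀ k ∈ T, j ≠ k → ∀ g : G n, x (swap j k * g) = ((cs b : ℤ) : K) * x g

/-- the class `l` of a colouring -/
def cl {n : ℕ} (col : Fin n → ℕ) (l : ℕ) : Finset (Fin n) :=
  Finset.univ.filter (fun j => col j = l)

/-- (anti)symmetrization of `x`, (anti)symmetric in `T`, over the additional strand `k` -/
def addSym (b : Bool) {n : ℕ} (T : Finset (Fin n)) (k : Fin n) (x : G n → K) : G n → K :=
  fun g => x g + ((cs b : ℤ) : K) * ∑ j ∈ T, x (swap j k * g)

/-- stable under left translations -/
def LStable {n : ℕ} (V : Submodule K (G n → K)) : Prop :=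
  ∀ x ∈ V, ∀ h : G n, (fun g => x (h * g)) ∈ V

/-- stable under right translations -/
def RStable {n : ℕ} (V : Submodule K (G n → K)) : Prop :=
  ∀ x ∈ V, ∀ h : G n, (fun g => x (g * h)) ∈ V

/-- the star sums of `x` are `c x` -/
def Star (c : K) {n : ℕ} (x : G n → K) : Prop :=
  ∀ (k : Fin n) (g : G n), ∑ j ∈ Finset.univ.erase k, x (swap j k * g) = c * x g

/-- a relation on `a + b` strands in sorted form: (anti)symmetric in the last `a` strands, and the
sums over the later ones of the first `b` strands are scalars -/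
structure Sorted (e : Bool) (c : K) (a b : ℕ) (x : G (a + b) → K) : Prop where
  one : x 1 ≠ 0
  sym : ∀ j k : Fin (a + b), b ≤ j.val → b ≤ k.val → j ≠ k → ∀ g : G (a + b),
    x (swap j k * g) = ((cs e : ℤ) : K) * x g
  step : ∀ k : Fin (a + b), k.val < b → ∃ i l : ℕ, 1 ≤ i ∧ l < a ∧ ∀ g : G (a + b),
    ∑ j ∈ Finset.univ.filter (fun j : Fin (a + b) => k < j ∧ j.val < b), x (swap k j * g) =
      (c + ((cs e : ℤ) : K) * i - ((cs e : ℤ) : K) * l) * x g

/-- removing the first `b` strands -/
def xN {a : ℕ} : (b : ℕ) → (G (a + b) → K) → (G a → K)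
  | 0, x => x
  | b + 1, x => xN b (fun τ => x (shift τ))

/-- the result of closing all strands but the last one in the relation `x` with the letters `h` -/
def Lam {A : Type*} [CommRing A] [Algebra K A] (T : A →ₗ[K] K) :
    (n : ℕ) → (G n → K) → (Fin n → A) → A
  | 0, _, _ => 0
  | n + 1, x, h => (if n = 0 then x 1 • h 0 else 0) +
      (T (h 0) • Lam T n (fun τ => x (shift τ)) (fun i => h i.succ) +
        ∑ i : Fin n, Lam T n (fun τ => x (swap 0 i.succ * shift τ))
          (Function.update (fun j : Fin n => h j.succ) i (h 0 * h i.succ)))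

/-- the algebra of letters: values at `0`, at `1`, and modulo `μ` -/
noncomputable def psi (μ : K[X]) : K[X] →ₐ[K] (K × K × (K[X] ⧸ Ideal.span {μ})) :=
  (aeval (0 : K)).prod ((aeval (1 : K)).prod (Ideal.Quotient.mkₐ K (Ideal.span {μ})))

/-- the linear form `(a, b, c) ↦ p b - q a` -/
def TB (p q : ℕ) (L : Type*) [AddCommGroup L] [Module K L] : (K × K × L) →ₗ[K] K where
  toFun x := (p : K) * x.2.1 - (q : K) * x.1
  map_add' x y := by
    simp only [Prod.snd_add, Prod.fst_add]
    ring
  map_smul' c x := by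
    simp only [Prod.smul_snd, Prod.smul_fst, smul_eq_mul, RingHom.id_apply]
    ring

/-- the linear form `g ↦ p g(1) - q g(0)` -/
noncomputable def TA (p q : ℕ) : K[X] →ₗ[K] K where
  toFun g := (p : K) * g.eval 1 - (q : K) * g.eval 0
  map_add' x y := by
    simp only [eval_add]
    ring
  map_smul' c x := by
    simp only [eval_smul, smul_eq_mul, RingHom.id_apply]
    ring

end Comb

section Mon

variable {C : Type u} [Category.{v} C] [MonoidalCategory C]

/-- tensor product of letters `h 0 ⊗ (h 1 ⊗ (... ⊗ 𝟙))` -/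
def Hw {X : C} : (n : ℕ) → (Fin n → (X ⟶ X)) → (pow X n ⟶ pow X n)
  | 0, _ => 𝟙 _
  | n + 1, h => h 0 ⊗ₘ Hw n (fun i => h i.succ)

variable [SymmetricCategory C] [RightRigidCategory C]

/-- partial trace over the first factor -/
def ptl (X : C) {A B : C} (F : X ⊗ A ⟶ X ⊗ B) : A ⟶ B :=
  ptr X ((β_ A X).hom ≫ F ≫ (β_ X B).hom)

/-- close all strands but the last one -/
def tl [Preadditive C] (X : C) : (n : ℕ) → (pow X n ⟶ pow X n) → (X ⟶ X)
  | 0, _ => 0
  | 1, F => (ρ_ X).inv ≫ (F : X ⊗ 𝟙_ C ⟶ X ⊗ 𝟙_ C) ≫ (ρ_ X).hom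
  | n + 2, F => tl X (n + 1) (ptl X (F : X ⊗ pow X (n + 1) ⟶ X ⊗ pow X (n + 1)))

end Mon

section Lin

variable (K : Type w) [Field K] {C : Type u} [Category.{v} C] [Preadditive C] [Linear K C]

/-- the polynomials in `π` -/
noncomputable def ev {M : C} (π : M ⟶ M) : K[X] →ₐ[K] End M :=
  aeval (R := K) (A := End M) π

variable [MonoidalCategory C] [SymmetricCategory C]

/-- `∑ x σ • act σ` -/
def Phi (X : C) (n : ℕ) (x : G n → K) : pow X n ⟶ pow X n := ∑ σ : G n, x σ • act X n σ

/-- the relation `x` with the letters `h` -/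
def Psi (X : C) (n : ℕ) (x : G n → K) (h : Fin n → (X ⟶ X)) : pow X n ⟶ pow X n :=
  Phi K X n x ≫ Hw n h

/-- the relations among the permutations of `M^{⊗ n}` -/
def Jm (M : C) (n : ℕ) : Submodule K (G n → K) where
  carrier := {x | Phi K M n x = 0}
  add_mem' := by
    intro x y hx hy
    simp only [Set.mem_setOf_eq, Phi, Pi.add_apply, add_smul, Finset.sum_add_distrib] at hx hy ⊢
    rw [hx, hy, add_zero]
  zero_mem' := by
    simp [Phi]
  smul_mem' := by
    intro c x hx
    simp only [Set.mem_setOf_eq, Phi, Pi.smul_apply, smul_eq_mul, mul_smul,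
      ← Finset.smul_sum] at hx ⊢
    rw [hx, smul_zero]

theorem mem_Jm (M : C) (n : ℕ) (x : G n → K) : x ∈ Jm K M n ↔ Phi K M n x = 0 := Iff.rfl

end Lin

end Pool.Agent.W_868bb7_h94
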