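import Pool.Agent.W_868bb7_h94.PermA

set_option autoImplicit false

/-!
# Step: removing the first strand
-/

namespace Pool.Agent.W_868bb7_h94

open Equiv Pool.Agent.W_MP_868bb7_ag

variable {K : Type*} [Field K]

/-- Induction on `b`.  `b = 0`: `x τ = chi τ x 1` by `Equiv.Perm.swap_induction_on`.  `b + 1`: apply the
induction hypothesis to `x' τ = x (shift τ)`: `shift (swap j k * g) = swap j.succ k.succ * shift g`
(`shift_mul`, `shift_swap`), `shift 1 = 1` (`shift_id`). -/
theorem xN_eq (e : Bool) (a b : ℕ) (x : G (a + b) → K)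
    (hx : ∀ j k : Fin (a + b), b ≤ j.val → b ≤ k.val → j ≠ k → ∀ g : G (a + b),
      x (swap j k * g) = ((cs e : ℤ) : K) * x g) (τ : G a) :
    xN b x τ = ((chi e τ : ℤˣ) : ℤ) • x 1 := by
  induction b with
  | zero =>
    have h : ∀ σ : G a, x σ = ((chi e σ : ℤˣ) : ℤ) • x 1 := by
      intro σ
      refine Equiv.Perm.swap_induction_on σ ?_ ?_
      · rw [map_one]
        simp
      · intro f j k hjk hf
        have h1 := hx j k (Nat.zero_le _) (Nat.zero_le _) hjk f
        have h2 : x (swap j k * f) = ((cs e : ℤ) : K) * x f := h1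
        rw [h2, hf, map_mul, Units.val_mul, chi_swap e j k hjk]
        simp only [zsmul_eq_mul, Int.cast_mul, mul_assoc]
    exact h τ
  | succ b ih =>
    have h := ih (fun σ => x (shift σ)) (by
      intro j k hj hk hjk g
      have h1 := hx j.succ k.succ (by simpa using hj) (by simpa using hk)
        (fun h => hjk (Fin.succ_injective _ h)) (shift g)
      rw [shift_mul, shift_swap]
      exact h1)
    rw [shift_id] at h
    exact h

/-- The hypothesis on the star sums passes to `x ∘ shift`: take `k = 0`, `g = shift τ` in the first part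
(the `j` with `0 < j`, `j.val < b + 1` are the `j'.succ` with `j'.val < b`), and `k.succ`, `shift g` in the
second part (`shift_mul`, `shift_swap`). -/
theorem step_shift (a b : ℕ) (x : G (a + (b + 1)) → K) (γ : ℕ → K)
    (hγ : ∀ k : Fin (a + (b + 1)), k.val < b + 1 → ∀ g : G (a + (b + 1)),
      ∑ j ∈ Finset.univ.filter (fun j : Fin (a + (b + 1)) => k < j ∧ j.val < b + 1),
        x (swap k j * g) = γ k.val * x g) :
    (∀ τ : G (a + b), ∑ j ∈ Finset.univ.filter (fun j : Fin (a + b) => j.val < b),
        x (swap 0 j.succ * shift τ) = γ 0 * x (shift τ)) ∧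
    (∀ k : Fin (a + b), k.val < b → ∀ g : G (a + b),
      ∑ j ∈ Finset.univ.filter (fun j : Fin (a + b) => k < j ∧ j.val < b),
        x (shift (swap k j * g)) = γ (k.val + 1) * x (shift g)) := by
  constructor
  · intro τ
    have h := hγ (0 : Fin (a + b + 1)) (Nat.succ_pos b) (shift τ)
    have h2 : ∑ j ∈ Finset.univ.filter (fun j : Fin (a + b + 1) => 0 < j ∧ j.val < b + 1),
        x (swap 0 j * shift τ) = ∑ j ∈ Finset.univ.filter (fun j : Fin (a + b) => j.val < b),
        x (swap 0 j.succ * shift τ) := by
      rw [Finset.sum_filter, Finset.sum_filter, Fin.sum_univ_succ]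
      simp
    rw [← h2]
    exact h
  · intro k hk g
    have h := hγ k.succ (by simpa using hk) (shift g)
    have h2 : ∑ j ∈ Finset.univ.filter (fun j : Fin (a + b + 1) => k.succ < j ∧ j.val < b + 1),
        x (swap k.succ j * shift g) =
        ∑ j ∈ Finset.univ.filter (fun j : Fin (a + b) => k < j ∧ j.val < b),
        x (shift (swap k j * g)) := by
      rw [Finset.sum_filter, Finset.sum_filter, Fin.sum_univ_succ]
      simp [shift_mul, shift_swap]
    rw [← h2]
    exact h

/-- One step of the recursion of `Psi` and `Lam`.  For `j.val < b` the letter does not change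
(`hlt`, `Function.update_eq_self`), for `b ≤ j.val` the term vanishes (`hge`, `hzero` at the place `j`).  The
remaining sum is `F (∑_{j < b} x (swap 0 j.succ * shift ·)) (h ∘ succ) = F (γ • x ∘ shift) (h ∘ succ)` (additivity
of `F` over finite sums follows from `hadd` and `hsmul 0`). -/
theorem first_step {A V : Type*} [Zero A] [AddCommGroup V] [Module K V] {n : ℕ}
    (op : A → A → A) (F : (G n → K) → (Fin n → A) → V)
    (hadd : ∀ x y h, F (x + y) h = F x h + F y h)
    (hsmul : ∀ (c : K) x h, F (c • x) h = c • F x h)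
    (hzero : ∀ x h i, h i = 0 → F x h = 0)
    (x : G (n + 1) → K) (h : Fin (n + 1) → A) (b : ℕ) (t γ : K)
    (hlt : ∀ j : Fin n, j.val < b → op (h 0) (h j.succ) = h j.succ)
    (hge : ∀ j : Fin n, b ≤ j.val → op (h 0) (h j.succ) = 0)
    (hγ : ∀ τ : G n, ∑ j ∈ Finset.univ.filter (fun j : Fin n => j.val < b),
      x (swap 0 j.succ * shift τ) = γ * x (shift τ)) :
    t • F (fun τ => x (shift τ)) (fun i => h i.succ) +
      ∑ i : Fin n, F (fun τ => x (swap 0 i.succ * shift τ))
        (Function.update (fun j : Fin n => h j.succ) i (op (h 0) (h i.succ))) =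
      (t + γ) • F (fun τ => x (shift τ)) (fun i => h i.succ) := by
  have hz : ∀ g, F 0 g = 0 := by
    intro g
    have h1 := hsmul 0 0 g
    rwa [zero_smul, zero_smul] at h1
  have hsum : ∀ (s : Finset (Fin n)) (y : Fin n → (G n → K)) (g : Fin n → A),
      ∑ i ∈ s, F (y i) g = F (∑ i ∈ s, y i) g := by
    intro s y g
    classical
    induction s using Finset.induction_on with
    | empty => simp [hz]
    | insert i s hi ih => rw [Finset.sum_insert hi, Finset.sum_insert hi, hadd, ih]
  have h1 : ∑ i : Fin n, F (fun τ => x (swap 0 i.succ * shift τ))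
        (Function.update (fun j : Fin n => h j.succ) i (op (h 0) (h i.succ))) =
      ∑ i ∈ Finset.univ.filter (fun i : Fin n => i.val < b),
        F (fun τ => x (swap 0 i.succ * shift τ)) (fun i => h i.succ) := by
    rw [Finset.sum_filter]
    refine Finset.sum_congr rfl (fun i _ => ?_)
    by_cases hi : i.val < b
    · rw [if_pos hi, hlt i hi]
      congr 1
      exact Function.update_eq_self i _
    · rw [if_neg hi, hge i (not_lt.mp hi)]
      exact hzero _ _ i (Function.update_self i _ _)
  have h2 : ∑ i ∈ Finset.univ.filter (fun i : Fin n => i.val < b),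
      (fun τ : G n => x (swap 0 i.succ * shift τ)) = γ • (fun τ => x (shift τ)) := by
    funext τ
    rw [Finset.sum_apply]
    exact hγ τ
  rw [h1, hsum, h2, hsmul, add_smul]

end Pool.Agent.W_868bb7_h94
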