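import Pool.Agent.W_868bb7_h94.PsiA
import Pool.Agent.W_868bb7_h94.Step

set_option autoImplicit false

/-!
# PsiB: a sorted relation kills an exterior or symmetric power
-/

namespace Pool.Agent.W_868bb7_h94

open CategoryTheory MonoidalCategory Equiv Pool.Agent.W_MP_868bb7_ag

universe v u w

variable (K : Type w) [Field K] {C : Type u} [Category.{v} C] [MonoidalCategory C]
  [Preadditive C] [Linear K C] [MonoidalPreadditive C] [MonoidalLinear K C]
  [SymmetricCategory C] [RightRigidCategory C] [UnitK K C]

/-- Closing the first `b` strands with the letter `w`.  Induction on `b` (for all `x`, `γ`).  `b + 1`: apply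
`ptl` to `h0` (`ptl_Psi`), `step_shift` and `first_step` (`op f g = f ≫ g`, `F = Psi K X (a + b)`,
`Psi_add`, `Psi_smul`, `Psi_zero`; the letter `0` is `w`, the letter `j.succ` is `w` for `j.val < b`, else `u`) give
`(tr K w + γ 0) • Psi (x ∘ shift) (fun j => if j.val < b then w else u) = 0`; divide, and use the induction
hypothesis for `x ∘ shift` and `γ (· + 1)` (`step_shift`). -/
theorem Psi_sorted (X : C) (a b : ℕ) (x : G (a + b) → K) (γ : ℕ → K)
    (hγ : ∀ k : Fin (a + b), k.val < b → ∀ g : G (a + b),
      ∑ j ∈ Finset.univ.filter (fun j : Fin (a + b) => k < j ∧ j.val < b), x (swap k j * g) =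
        γ k.val * x g)
    (w u : X ⟶ X) (hww : w ≫ w = w) (hwu : w ≫ u = 0) (hne : ∀ k < b, tr K w + γ k ≠ 0)
    (h0 : Psi K X (a + b) x (fun j => if j.val < b then w else u) = 0) :
    Psi K X a (xN b x) (fun _ => u) = 0 := by
  induction b generalizing γ with
  | zero =>
    have h1 : (fun j : Fin (a + 0) => if j.val < 0 then w else u) = fun _ => u := by
      funext j
      rw [if_neg (Nat.not_lt_zero _)]
    rw [h1] at h0
    exact h0
  | succ b ih =>
    have hs := step_shift a b x γ hγ
    have h1 : (fun i : Fin (a + b) => (fun j : Fin (a + (b + 1)) =>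
        if j.val < b + 1 then w else u) i.succ) = fun j => if j.val < b then w else u := by
      funext i
      by_cases hi : i.val < b
      · rw [if_pos hi]
        exact if_pos (by rw [Fin.val_succ]; omega)
      · rw [if_neg hi]
        exact if_neg (by rw [Fin.val_succ]; omega)
    have h2 : (fun j : Fin (a + (b + 1)) => if j.val < b + 1 then w else u) 0 = w :=
      if_pos (Nat.succ_pos b)
    have h3 := ptl_Psi K X (a + b) x (fun j => if j.val < b + 1 then w else u)
    have h4 : ptl X (Psi K X (a + b + 1) x (fun j => if j.val < b + 1 then w else u) :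
        X ⊗ pow X (a + b) ⟶ X ⊗ pow X (a + b)) = 0 := by
      have h5 : (Psi K X (a + b + 1) x (fun j => if j.val < b + 1 then w else u) :
        X ⊗ pow X (a + b) ⟶ X ⊗ pow X (a + b)) = 0 := h0
      rw [h5]
      exact ptl_zero X
    rw [h4] at h3
    have h6 := first_step (fun f g : X ⟶ X => f ≫ g) (Psi K X (a + b))
      (fun x y h => Psi_add K X (a + b) x y h) (fun c x h => Psi_smul K X (a + b) c x h)
      (fun x h i hi => Psi_zero K X (a + b) x h i hi) x
      (fun j => if j.val < b + 1 then w else u) b (tr K w) (γ 0) ?_ ?_ hs.1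
    · have h7 := h3.trans h6
      beta_reduce at h7
      have h8 := (smul_eq_zero.1 h7.symm).resolve_left (hne 0 (Nat.succ_pos b))
      have h9 : Psi K X (a + b) (fun τ => x (shift τ)) (fun j => if j.val < b then w else u) =
          0 := by
        rw [← h1]
        exact h8
      exact ih (fun τ => x (shift τ)) (fun k => γ (k + 1)) hs.2
        (fun k hk => hne (k + 1) (Nat.succ_lt_succ hk)) h9
    · intro j hj
      have h7 : (if j.succ.val < b + 1 then w else u) = w :=
        if_pos (by rw [Fin.val_succ]; omega)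
      rw [if_pos (by rw [Fin.val_zero]; exact Nat.succ_pos b), h7, hww]
    · intro j hj
      have h7 : (if j.succ.val < b + 1 then w else u) = u :=
        if_neg (by rw [Fin.val_succ]; omega)
      rw [if_pos (by rw [Fin.val_zero]; exact Nat.succ_pos b), h7, hwu]

/-- `γ k` = the scalar of `hS.step` (choose; `0` for `k ≥ b`), `Psi_sorted`, `xN_eq`:
`Psi K X a (xN b x) (fun _ => u) = x 1 • (E e X a ≫ powMap u a)` (`Hw_const`), `powMap_E`, `x 1 ≠ 0` -/
theorem E_of_sorted (e : Bool) (c : K) (X : C) (a b : ℕ) (x : G (a + b) → K)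
    (hS : Sorted e c a b x) (hx : Phi K X (a + b) x = 0) (w u : X ⟶ X) (hww : w ≫ w = w)
    (hwu : w ≫ u = 0)
    (hne : ∀ i l : ℕ, 1 ≤ i → l < a →
      tr K w + (c + ((cs e : ℤ) : K) * i - ((cs e : ℤ) : K) * l) ≠ 0) :
    powMap u a ≫ E e X a = 0 := by
  classical
  choose i l hi hl hil using hS.step
  have h1 := Psi_sorted K X a b x (fun k => if h : k < b then
    c + ((cs e : ℤ) : K) * i ⟨k, by omega⟩ h - ((cs e : ℤ) : K) * l ⟨k, by omega⟩ h else 0)
    ?_ w u hww hwu ?_ ?_
  · have h2 : Phi K X a (xN b x) = x 1 • E e X a := by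
      unfold Phi E
      rw [Finset.smul_sum]
      refine Finset.sum_congr rfl fun τ _ => ?_
      rw [xN_eq e a b x hS.sym τ, smul_comm, smul_assoc]
    unfold Psi at h1
    rw [h2, Hw_const, Linear.smul_comp] at h1
    rw [powMap_E]
    exact (smul_eq_zero.1 h1).resolve_left hS.one
  · intro k hk g
    rw [hil k hk g, dif_pos hk]
  · intro k hk
    rw [dif_pos hk]
    exact hne _ _ (hi _ hk) (hl _ hk)
  · unfold Psi
    rw [hx, Limits.zero_comp]

end Pool.Agent.W_868bb7_h94
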