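import Pool.Agent.W_868bb7_h94.Defs

set_option autoImplicit false

/-!
# SortA: order the strands

Let `B = 1 + ∑ j, col j` and `f j = if col j = 0 then B else col j`.  `σ = Tuple.sort f` makes `f ∘ σ`
monotone (`Tuple.monotone_sort`).  The set of the `j` with `col (σ j) ≠ 0` is a lower set (`f (σ j) < B` iff
`col (σ j) ≠ 0`, monotone) with `b` elements (`card (cl col 0) = a`, `σ` is a bijection, total `a + b`), so it
is the set of the `j` with `j.val < b`.
-/

namespace Pool.Agent.W_868bb7_h94

open Equiv Pool.Agent.W_MP_868bb7_ag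

/-- a lower set of `Fin n` with `b` elements is the set of the first `b` elements -/
theorem lower_set {n b : ℕ} (S : Finset (Fin n)) (hS : ∀ j k : Fin n, j < k → k ∈ S → j ∈ S)
    (hb : S.card = b) (j : Fin n) : j ∈ S ↔ j.val < b := by
  have h1 : ∀ k ∈ S, k.val < b := by
    intro k hk
    have h2 : Finset.Iic k ⊆ S := by
      intro i hi
      rw [Finset.mem_Iic] at hi
      rcases lt_or_eq_of_le hi with h | h
      · exact hS i k h hk
      · rwa [h]
    have h3 := Finset.card_le_card h2
    rw [Fin.card_Iic, hb] at h3
    omega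
  have h4 : S ⊆ Finset.univ.filter (fun i : Fin n => i.val < b) := by
    intro k hk
    rw [Finset.mem_filter]
    exact ⟨Finset.mem_univ _, h1 k hk⟩
  have h5 : (Finset.univ.filter (fun i : Fin n => i.val < b)).card ≤ S.card := by
    rw [hb]
    have h6 : (Finset.univ.filter (fun i : Fin n => i.val < b)).card ≤ (Finset.range b).card := by
      apply Finset.card_le_card_of_injOn (fun i => i.val)
      · intro i hi
        have h7 := (Finset.mem_filter.1 hi).2
        exact Finset.mem_coe.2 (Finset.mem_range.2 h7)
      · intro i _ k _ h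
        exact Fin.ext h
    rwa [Finset.card_range] at h6
  rw [Finset.eq_of_subset_of_card_le h4 h5, Finset.mem_filter]
  simp

/-- order the strands: the class `0` last, the other classes in increasing order -/
theorem exists_sort (a b : ℕ) (col : Fin (a + b) → ℕ) (ha : (cl col 0).card = a) :
    ∃ σ : G (a + b), (∀ j : Fin (a + b), col (σ j) = 0 ↔ b ≤ j.val) ∧
      (∀ j k : Fin (a + b), j < k → k.val < b → col (σ j) ≤ col (σ k)) := by
  classical
  set B : ℕ := 1 + ∑ j, col j with hB
  have hlt : ∀ j, col j < B := by
    intro j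
    have h := Finset.single_le_sum (f := col) (fun i _ => Nat.zero_le _) (Finset.mem_univ j)
    omega
  set f : Fin (a + b) → ℕ := fun j => if col j = 0 then B else col j with hf
  set σ : G (a + b) := Tuple.sort f with hσ
  have hmono : Monotone (f ∘ σ) := Tuple.monotone_sort f
  set S : Finset (Fin (a + b)) := Finset.univ.filter (fun j => col (σ j) ≠ 0) with hS
  have hS1 : ∀ j k : Fin (a + b), j < k → k ∈ S → j ∈ S := by
    intro j k hjk hk
    rw [hS, Finset.mem_filter] at hk ⊢
    refine ⟨Finset.mem_univ _, fun h0 => ?_⟩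
    have h1 : f (σ j) ≤ f (σ k) := hmono hjk.le
    have h2 : f (σ k) = col (σ k) := by simp only [hf, if_neg hk.2]
    have h3 : f (σ j) = B := by simp only [hf, if_pos h0]
    have h4 := hlt (σ k)
    omega
  have hS2 : (Finset.univ.filter (fun j => col (σ j) = 0)).card = a := by
    refine Eq.trans ?_ ha
    apply Finset.card_bij (fun j _ => σ j)
    · intro j hj
      rw [Finset.mem_filter] at hj
      exact Finset.mem_filter.2 ⟨Finset.mem_univ _, hj.2⟩
    · intro j _ k _ h
      exact σ.injective h
    · intro j hj
      have h1 := (Finset.mem_filter.1 hj).2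
      refine ⟨σ.symm j, ?_, σ.apply_symm_apply j⟩
      rw [Finset.mem_filter, σ.apply_symm_apply]
      exact ⟨Finset.mem_univ _, h1⟩
  have hS3 : S.card = b := by
    have h1 := Finset.card_filter_add_card_filter_not (s := (Finset.univ : Finset (Fin (a + b))))
      (fun j => col (σ j) = 0)
    rw [Finset.card_univ, Fintype.card_fin, hS2] at h1
    have h2 : (Finset.univ.filter (fun j => ¬ col (σ j) = 0)).card = S.card := rfl
    omega
  have hmem := lower_set S hS1 hS3
  have hmem2 : ∀ j, j ∈ S ↔ col (σ j) ≠ 0 := by
    intro j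
    rw [hS, Finset.mem_filter]
    simp
  refine ⟨σ, fun j => ?_, fun j k hjk hk => ?_⟩
  · have h1 := hmem j
    rw [hmem2 j] at h1
    constructor
    · intro h2
      by_contra h3
      exact (h1.2 (by omega)) h2
    · intro h2
      by_contra h3
      have := h1.1 h3
      omega
  · have h1 : col (σ k) ≠ 0 := (hmem2 k).1 ((hmem k).2 hk)
    have h2 : col (σ j) ≠ 0 := (hmem2 j).1 ((hmem j).2 (by
      have : j.val < k.val := hjk
      omega))
    have h3 : f (σ j) ≤ f (σ k) := hmono hjk.le
    simp only [hf, if_neg h1, if_neg h2] at h3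
    exact h3

end Pool.Agent.W_868bb7_h94
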