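import Pool.Agent.W_868bb7_h94.Defs

set_option autoImplicit false

/-!
# SortB: the partial star sums of a sorted flag
-/

namespace Pool.Agent.W_868bb7_h94

open Equiv Pool.Agent.W_MP_868bb7_ag

variable {K : Type*} [Field K]

/-- Let `e` be the sign `cs e`, `i = col k ≥ 1` (by `h0`), `l` the number of the `j < k` with `col j = i`
(then `l < card (cl col i) ≤ a`, as `k` itself is in the class).  The set of the `j ≠ k` is the disjoint
union of
* `j` with `k < j < b`;
* `j ≥ b`, that is `cl col 0`: sum `-e x g` (`hmax`, `0 < i`);
* `j < k` (automatically `< b`): `1 ≤ col j ≤ i`; those with `col j = i` are `l` strands with summand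
  `e x g` each (`hsym`); those with `col j = i' < i` form the whole class `cl col i'` (if `col j = i' < i`,
  `i' ≥ 1`, then `j < b` by `h0`, and `k < j` is excluded by `hmono`), with sum `-e x g`, for each of
  `i' = 1, ..., i - 1`.
So the sum over `k < j < b` is `c x g + e x g + (i - 1) e x g - l e x g`. -/
theorem step_of_flag (e : Bool) (c : K) (a b : ℕ) (col : Fin (a + b) → ℕ) (x : G (a + b) → K)
    (hs : Star c x) (hsym : ∀ l, IsSym e (cl col l) x)
    (hmax : ∀ (k : Fin (a + b)) (l : ℕ), l < col k → ∀ g : G (a + b),
      ∑ j ∈ cl col l, x (swap j k * g) = -((cs e : ℤ) : K) * x g)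
    (hcard : ∀ l : ℕ, (cl col l).card ≤ a)
    (h0 : ∀ j : Fin (a + b), col j = 0 ↔ b ≤ j.val)
    (hmono : ∀ j k : Fin (a + b), j < k → k.val < b → col j ≤ col k)
    (k : Fin (a + b)) (hk : k.val < b) : ∃ i l : ℕ, 1 ≤ i ∧ l < a ∧ ∀ g : G (a + b),
    ∑ j ∈ Finset.univ.filter (fun j : Fin (a + b) => k < j ∧ j.val < b), x (swap k j * g) =
      (c + ((cs e : ℤ) : K) * i - ((cs e : ℤ) : K) * l) * x g := by
  classical
  have hi1 : 1 ≤ col k := by
    rcases Nat.eq_zero_or_pos (col k) with h | h
    · exact absurd ((h0 k).mp h) (by omega)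
    · exact h
  set B : Finset (Fin (a + b)) := Finset.univ.filter (fun j => j < k ∧ col j = col k) with hB
  refine ⟨col k, B.card, hi1, ?_, ?_⟩
  · refine lt_of_lt_of_le (Finset.card_lt_card ?_) (hcard (col k))
    rw [Finset.ssubset_iff_of_subset]
    · refine ⟨k, ?_, ?_⟩
      · simp [cl]
      · simp [hB]
    · intro j hj
      rw [hB, Finset.mem_filter] at hj
      simp only [cl, Finset.mem_filter, Finset.mem_univ, true_and]
      exact hj.2.2
  · intro g
    have hst := hs k g
    -- first decomposition
    have e1 : ∑ j ∈ Finset.univ.erase k, x (swap j k * g) =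
        ∑ j ∈ Finset.univ.filter (fun j : Fin (a + b) => k < j ∧ j.val < b), x (swap k j * g) +
          ∑ j ∈ cl col 0, x (swap j k * g) +
          ∑ j ∈ Finset.univ.filter (fun j : Fin (a + b) => j < k), x (swap j k * g) := by
      have : Finset.univ.erase k = Finset.univ.filter (fun j : Fin (a + b) => j ≠ k) := by
        ext j
        simp
      rw [this, cl, Finset.sum_filter, Finset.sum_filter, Finset.sum_filter, Finset.sum_filter,
        ← Finset.sum_add_distrib, ← Finset.sum_add_distrib]
      refine Finset.sum_congr rfl (fun j _ => ?_)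
      rw [swap_comm k j]
      rcases lt_trichotomy j k with h | h | h
      · have h1 : ¬ (k < j ∧ j.val < b) := fun hh => absurd hh.1 (not_lt.mpr h.le)
        have h2 : ¬ (col j = 0) := by
          intro hh
          have := (h0 j).mp hh
          have h3 : j.val < k.val := h
          omega
        rw [if_pos (ne_of_lt h), if_neg h1, if_neg h2, if_pos h]
        ring
      · subst h
        have h1 : ¬ (j < j ∧ j.val < b) := fun hh => lt_irrefl _ hh.1
        have h2 : ¬ (col j = 0) := by
          intro hh
          have := (h0 j).mp hh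
          omega
        rw [if_neg (by simp), if_neg h1, if_neg h2, if_neg (lt_irrefl j)]
        ring
      · have h4 : ¬ (j < k) := not_lt.mpr h.le
        rw [if_pos (ne_of_gt h), if_neg h4]
        by_cases h5 : j.val < b
        · have h2 : ¬ (col j = 0) := by
            intro hh
            have := (h0 j).mp hh
            omega
          rw [if_pos ⟨h, h5⟩, if_neg h2]
          ring
        · have h2 : col j = 0 := (h0 j).mpr (by omega)
          rw [if_neg (fun hh => h5 hh.2), if_pos h2]
          ring
    -- second decomposition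
    have e2 : ∑ j ∈ Finset.univ.filter (fun j : Fin (a + b) => j < k), x (swap j k * g) =
        ∑ j ∈ B, x (swap j k * g) +
          ∑ i' ∈ Finset.Ico 1 (col k), ∑ j ∈ cl col i', x (swap j k * g) := by
      have e3 : ∑ i' ∈ Finset.Ico 1 (col k), ∑ j ∈ cl col i', x (swap j k * g) =
          ∑ j, if col j ∈ Finset.Ico 1 (col k) then x (swap j k * g) else 0 := by
        have : ∀ i' ∈ Finset.Ico 1 (col k), ∑ j ∈ cl col i', x (swap j k * g) =
            ∑ j, if col j = i' then x (swap j k * g) else 0 := by
          intro i' _
          rw [cl, Finset.sum_filter]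
        rw [Finset.sum_congr rfl this, Finset.sum_comm]
        refine Finset.sum_congr rfl (fun j _ => ?_)
        rw [Finset.sum_ite_eq]
      rw [e3, hB, Finset.sum_filter, Finset.sum_filter, ← Finset.sum_add_distrib]
      refine Finset.sum_congr rfl (fun j _ => ?_)
      rcases lt_trichotomy j k with h | h | h
      · have h3 : j.val < k.val := h
        have h1 : 1 ≤ col j := by
          rcases Nat.eq_zero_or_pos (col j) with h' | h'
          · exact absurd ((h0 j).mp h') (by omega)
          · exact h'
        have h2 : col j ≤ col k := hmono j k h hk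
        rw [if_pos h]
        by_cases h5 : col j = col k
        · rw [if_pos ⟨h, h5⟩, if_neg (by rw [Finset.mem_Ico]; omega)]
          ring
        · rw [if_neg (fun hh => h5 hh.2), if_pos (by rw [Finset.mem_Ico]; omega)]
          ring
      · subst h
        rw [if_neg (lt_irrefl j), if_neg (fun hh => lt_irrefl _ hh.1),
          if_neg (by rw [Finset.mem_Ico]; omega)]
        ring
      · have h4 : ¬ (j < k) := not_lt.mpr h.le
        rw [if_neg h4, if_neg (fun hh => h4 hh.1)]
        have h6 : ¬ (col j ∈ Finset.Ico 1 (col k)) := by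
          rw [Finset.mem_Ico]
          rintro ⟨h7, h8⟩
          have h9 : j.val < b := by
            by_contra h10
            have := (h0 j).mpr (by omega)
            omega
          have := hmono k j h h9
          omega
        rw [if_neg h6]
        ring
    have e4 : ∑ j ∈ B, x (swap j k * g) = (B.card : K) * (((cs e : ℤ) : K) * x g) := by
      rw [Finset.sum_congr rfl (g := fun _ => ((cs e : ℤ) : K) * x g), Finset.sum_const,
        nsmul_eq_mul]
      intro j hj
      rw [hB, Finset.mem_filter] at hj
      refine hsym (col k) j ?_ k ?_ (ne_of_lt hj.2.1) g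
      · simp only [cl, Finset.mem_filter, Finset.mem_univ, true_and]
        exact hj.2.2
      · simp [cl]
    have e5 : ∑ i' ∈ Finset.Ico 1 (col k), ∑ j ∈ cl col i', x (swap j k * g) =
        (((col k - 1 : ℕ) : K)) * (-((cs e : ℤ) : K) * x g) := by
      rw [Finset.sum_congr rfl (g := fun _ => -((cs e : ℤ) : K) * x g), Finset.sum_const,
        nsmul_eq_mul, Nat.card_Ico]
      intro i' hi'
      rw [Finset.mem_Ico] at hi'
      exact hmax k i' hi'.2 g
    have e6 : ∑ j ∈ cl col 0, x (swap j k * g) = -((cs e : ℤ) : K) * x g :=
      hmax k 0 (by omega) g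
    rw [e1, e2, e4, e5, e6, Nat.cast_sub hi1] at hst
    push_cast at hst ⊢
    linear_combination hst

end Pool.Agent.W_868bb7_h94
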