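import Pool.Agent.W_868bb7_h94.FlagEx
import Pool.Agent.W_868bb7_h94.Count
import Pool.Agent.W_868bb7_h94.SortA
import Pool.Agent.W_868bb7_h94.SortB

set_option autoImplicit false

/-!
# SortC: a sorted relation exists
-/

namespace Pool.Agent.W_868bb7_h94

open Equiv Pool.Agent.W_MP_868bb7_ag

variable {K : Type*} [Field K]

/-- relabelling the strands by `σ` and a right translation by `t`
(`Equiv.swap_apply_apply`-type identity `σ * swap j k = swap (σ j) (σ k) * σ`) -/
theorem relabel_swap {n : ℕ} (x : G n → K) (σ t g : G n) (j k : Fin n) :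
    x (σ * (swap j k * g) * t) = x (swap (σ j) (σ k) * (σ * g * t)) := by
  congr 1
  rw [Equiv.swap_apply_apply]
  group

theorem relabel_sum_cl {n : ℕ} (x : G n → K) (σ t g : G n) (col : Fin n → ℕ) (l : ℕ)
    (k : Fin n) :
    ∑ j ∈ cl (fun i => col (σ i)) l, x (σ * (swap j k * g) * t) =
      ∑ j ∈ cl col l, x (swap j (σ k) * (σ * g * t)) := by
  refine Finset.sum_equiv σ ?_ ?_
  · intro i
    simp [cl]
  · intro i _
    exact relabel_swap x σ t g i k

theorem relabel_star {n : ℕ} (c : K) (x : G n → K) (hs : Star c x) (σ t : G n) :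
    Star c (fun g => x (σ * g * t)) := by
  intro k g
  have h := hs (σ k) (σ * g * t)
  rw [← h]
  refine Finset.sum_equiv σ ?_ ?_
  · intro i
    simp
  · intro i _
    exact relabel_swap x σ t g i k

theorem SortC_card {n : ℕ} (col : Fin n → ℕ) (σ : G n) (l : ℕ) :
    (cl (fun i => col (σ i)) l).card = (cl col l).card := by
  refine Finset.card_equiv σ ?_
  intro i
  simp [cl]

/-- Take `0 ≠ x0 ∈ J n`, `col0 = Fin.val` (classes with at most one element, `N = n + 1` or `n`),
`s = fun _ => e` and apply `flag_exists` to `J n`: `col`, `x`.  `a = card (cl col 0)`; `a ≥ 1`, because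
`n ≥ 1`, some class is not empty, and `card (cl col l) ≤ a` for all `l` (third property for `l < N`; the
classes `l ≥ N` are empty).  `count_eq` gives the equation.  Write `n = a + b` and substitute (generalize
`a` first).  `exists_sort` gives `σ`; choose `g0` with `x g0 ≠ 0` and let `t = σ⁻¹ * g0`,
`x' = fun g => x (σ * g * t)`; it is in `J` (`hL`, `hR`), `x' 1 = x g0 ≠ 0`.  With `col' i = col (σ i)`
the hypotheses of `step_of_flag` hold for `x'`, `col'` (`relabel_swap`, `relabel_sum_cl`, `relabel_star`;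
`card (cl col' l) = card (cl col l)`). `sym`: strands `≥ b` have `col' = 0`. -/
theorem sorted_exists (J : ∀ n : ℕ, Submodule K (G n → K)) (n : ℕ) (hn : 1 ≤ n)
    (hL : LStable (J n)) (hR : RStable (J n)) (hne : J n ≠ ⊥) (c : K)
    (hstar : ∀ x ∈ J n, Star c x) (e : Bool) :
    ∃ a b : ℕ, a + b = n ∧ 1 ≤ a ∧ (n : K) = (a : K) * ((a : K) - ((cs e : ℤ) : K) * c) ∧
      ∃ x : G (a + b) → K, x ∈ J (a + b) ∧ Sorted e c a b x := by
  obtain ⟨x0, hx0, hx0ne⟩ := (Submodule.ne_bot_iff _).1 hne
  have h0 : ∀ l, IsSym ((fun _ => e : ℕ → Bool) l) (cl (fun j : Fin n => j.val) l) x0 := by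
    intro l j hj k hk hjk
    simp only [cl, Finset.mem_filter, Finset.mem_univ, true_and] at hj hk
    exact absurd (Fin.ext (hj.trans hk.symm)) hjk
  obtain ⟨col, x, hcolN, hxJ, hxne, hsym, hmax, hcard⟩ :=
    flag_exists (J n) hL (fun _ => e) n (fun j => j.val) (fun j => j.isLt) x0 hx0 hx0ne h0
  -- the classes have at most `card (cl col 0)` elements
  have hle : ∀ l, (cl col l).card ≤ (cl col 0).card := by
    intro l
    rcases Nat.eq_zero_or_pos l with rfl | hl
    · exact le_rfl
    · by_cases hlN : l < n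
      · exact hcard 0 l hl hlN rfl
      · have : cl col l = ∅ := by
          refine Finset.filter_eq_empty_iff.2 ?_
          intro j _ hj
          have := hcolN j
          omega
        rw [this]
        simp
  have hpos : 1 ≤ (cl col 0).card := by
    have hmem : (⟨0, hn⟩ : Fin n) ∈ cl col (col ⟨0, hn⟩) := by simp [cl]
    have h1 : 1 ≤ (cl col (col ⟨0, hn⟩)).card := Finset.card_pos.2 ⟨_, hmem⟩
    exact h1.trans (hle _)
  have hcount := count_eq e col x c hxne (hstar x hxJ) (hsym 0) (fun k hk g => hmax k 0 hk g)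
  have hlen : (cl col 0).card ≤ n := by
    have := Finset.card_le_univ (cl col 0)
    simpa using this
  obtain ⟨a, ha⟩ : ∃ a, a = (cl col 0).card := ⟨_, rfl⟩
  rw [← ha] at hcount hle hpos hlen
  obtain ⟨b, rfl⟩ : ∃ b, n = a + b := ⟨n - a, by omega⟩
  obtain ⟨σ, hσ0, hσm⟩ := exists_sort a b col ha.symm
  obtain ⟨g0, hg0⟩ : ∃ g0, x g0 ≠ 0 := by
    by_contra hcon
    push Not at hcon
    exact hxne (funext hcon)
  refine ⟨a, b, rfl, hpos, hcount, fun g => x (σ * g * (σ⁻¹ * g0)), ?_, ?_⟩
  · have h1 := hL x hxJ σ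
    exact hR _ h1 (σ⁻¹ * g0) |> fun h => by
      simpa [mul_assoc] using h
  · have hsym' : ∀ l, IsSym e (cl (fun i => col (σ i)) l) (fun g => x (σ * g * (σ⁻¹ * g0))) := by
      intro l j hj k hk hjk g
      simp only [cl, Finset.mem_filter, Finset.mem_univ, true_and] at hj hk
      have hne' : σ j ≠ σ k := fun h => hjk (σ.injective h)
      have := hsym l (σ j) (by simp [cl, hj]) (σ k) (by simp [cl, hk]) hne' (σ * g * (σ⁻¹ * g0))
      rw [← this]
      exact relabel_swap x σ (σ⁻¹ * g0) g j k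
    have hmax' : ∀ (k : Fin (a + b)) (l : ℕ), l < col (σ k) → ∀ g : G (a + b),
        ∑ j ∈ cl (fun i => col (σ i)) l, x (σ * (swap j k * g) * (σ⁻¹ * g0)) =
          -((cs e : ℤ) : K) * x (σ * g * (σ⁻¹ * g0)) := by
      intro k l hl g
      rw [relabel_sum_cl x σ (σ⁻¹ * g0) g col l k]
      exact hmax (σ k) l hl _
    refine ⟨?_, ?_, ?_⟩
    · simpa using hg0
    · intro j k hj hk hjk g
      refine hsym' 0 j ?_ k ?_ hjk g
      · simpa [cl] using (hσ0 j).2 hj
      · simpa [cl] using (hσ0 k).2 hk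
    · intro k hk
      refine step_of_flag e c a b (fun i => col (σ i)) (fun g => x (σ * g * (σ⁻¹ * g0)))
        (relabel_star c x (hstar x hxJ) σ (σ⁻¹ * g0)) hsym' hmax' ?_ hσ0 hσm k hk
      intro l
      rw [SortC_card]
      exact hle l

end Pool.Agent.W_868bb7_h94
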