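import Pool.Agent.W_868bb7_h94.PsiA

set_option autoImplicit false

/-!
# StarM: the relations in the minimal degree
-/

namespace Pool.Agent.W_868bb7_h94

open CategoryTheory MonoidalCategory Equiv Pool.Agent.W_MP_868bb7_ag

universe v u w

variable (K : Type w) [Field K] {C : Type u} [Category.{v} C] [MonoidalCategory C]
  [Preadditive C] [Linear K C] [MonoidalPreadditive C] [MonoidalLinear K C]
  [SymmetricCategory C] [RightRigidCategory C] [UnitK K C]

/-- `∑ x (h σ) act σ = ∑ x σ act (h⁻¹ σ) = (∑ x σ act σ) ≫ act h⁻¹` (`act_mul`) -/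
theorem Jm_L (M : C) (n : ℕ) : LStable (Jm K M n) := by
  intro x hx h
  rw [mem_Jm] at hx ⊢
  have e : Phi K M n (fun g => x (h * g)) = Phi K M n x ≫ act M n h⁻¹ := by
    unfold Phi
    rw [Preadditive.sum_comp, ← Equiv.sum_comp (Equiv.mulLeft h⁻¹)
      (fun g : G n => (x (h * g)) • act M n g)]
    refine Finset.sum_congr rfl fun σ _ => ?_
    simp only [Equiv.coe_mulLeft, mul_inv_cancel_left]
    rw [act_mul, Linear.smul_comp]
  rw [e, hx, Limits.zero_comp]

theorem Jm_R (M : C) (n : ℕ) : RStable (Jm K M n) := by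
  intro x hx h
  rw [mem_Jm] at hx ⊢
  have e : Phi K M n (fun g => x (g * h)) = act M n h⁻¹ ≫ Phi K M n x := by
    unfold Phi
    rw [Preadditive.comp_sum, ← Equiv.sum_comp (Equiv.mulRight h⁻¹)
      (fun g : G n => (x (g * h)) • act M n g)]
    refine Finset.sum_congr rfl fun σ _ => ?_
    simp only [Equiv.coe_mulRight, inv_mul_cancel_right]
    rw [act_mul, Linear.comp_smul]
  rw [e, hx, Limits.comp_zero]

/-- there is no relation in degree `0`: `Phi K M 0 x = x 1 • 𝟙 (𝟙_ C)` and `unit_ne` (library) -/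
theorem Jm_zero (M : C) : Jm K M 0 = ⊥ := by
  rw [eq_bot_iff]
  intro x hx
  rw [mem_Jm] at hx
  rw [Submodule.mem_bot]
  have e : Phi K M 0 x = x 1 • 𝟙 (𝟙_ C) := by
    unfold Phi
    rw [Fintype.sum_unique]
    rfl
  rw [e] at hx
  have h1 : x 1 = 0 := by
    by_contra h0
    exact unit_ne K (C := C) ((smul_eq_zero_iff_right h0).1 hx)
  funext g
  rw [Subsingleton.elim g 1, h1]
  rfl

theorem StarM_aux1 (M : C) (n : ℕ) (h : Jm K M n = ⊥) (y : G (n + 1) → K)
    (hy : y ∈ Jm K M (n + 1)) : ∑ i : Fin n, y (swap 0 i.succ) = -tr K (𝟙 M) * y 1 := by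
  have h0 : Psi K M (n + 1) y (fun _ => 𝟙 M) = 0 := by
    unfold Psi
    rw [(mem_Jm K M (n + 1) y).1 hy, Limits.zero_comp]
  have h1 := ptl_Psi K M n y (fun _ => 𝟙 M)
  rw [h0] at h1
  have hp0 : ptl M (0 : M ⊗ pow M n ⟶ M ⊗ pow M n) = 0 := ptl_zero M
  have h1' : (0 : pow M n ⟶ pow M n) = tr K (𝟙 M) • Psi K M n (fun τ => y (shift τ)) (fun _ => 𝟙 M) +
        ∑ i : Fin n, Psi K M n (fun τ => y (swap 0 i.succ * shift τ))
          (Function.update (fun _ : Fin n => 𝟙 M) i (𝟙 M ≫ 𝟙 M)) := hp0.symm.trans h1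
  have hu : ∀ i : Fin n, Function.update (fun _ : Fin n => 𝟙 M) i (𝟙 M ≫ 𝟙 M) =
      fun _ => 𝟙 M := by
    intro i
    rw [Category.id_comp]
    exact Function.update_eq_self i (fun _ : Fin n => 𝟙 M)
  have hP : ∀ z : G n → K, Psi K M n z (fun _ => 𝟙 M) = Phi K M n z := by
    intro z
    unfold Psi
    rw [Hw_const, powMap_id, Category.comp_id]
  simp only [hu, hP] at h1'
  have hz : (fun τ : G n => tr K (𝟙 M) * y (shift τ) + ∑ i : Fin n, y (swap 0 i.succ * shift τ)) ∈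
      Jm K M n := by
    rw [mem_Jm, h1']
    unfold Phi
    simp only [add_smul, Finset.sum_add_distrib, Finset.sum_smul, Finset.smul_sum, mul_smul]
    congr 1
    exact Finset.sum_comm
  rw [h, Submodule.mem_bot] at hz
  have h3 := congrFun hz 1
  simp only [pa_shift_one, mul_one, Pi.zero_apply] at h3
  rw [neg_mul]
  exact eq_neg_of_add_eq_zero_right h3

/-- The first relation has constant star sums.  Let `y ∈ Jm K M (n + 1)`.  `ptl_Psi` with the letters
`h = fun _ => 𝟙 M` (`Hw _ (fun _ => 𝟙) = 𝟙`, `powMap_id`; `Function.update` of a constant function by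
`𝟙 ≫ 𝟙 = 𝟙` is the same) gives `Phi K M n z = 0` for
`z τ = tr (𝟙 M) * y (shift τ) + ∑ i, y (swap 0 i.succ * shift τ)`, so `z = 0` by `h`; at `τ = 1`:
`∑_i y (swap 0 i.succ) = -tr (𝟙 M) * y 1`.  Apply this to `y σ = x (r * σ * (r⁻¹ * g))` with `r = swap 0 k`
(`Jm_L`, `Jm_R`): `y (swap 0 j) = x (swap (r 0) (r j) * g)`, `r 0 = k`, and `r` maps the `j ≠ 0` onto the
`j ≠ k`. -/
theorem star_of_min (M : C) (n : ℕ) (h : Jm K M n = ⊥) (x : G (n + 1) → K)
    (hx : x ∈ Jm K M (n + 1)) : Star (-tr K (𝟙 M)) x := by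
  intro k g
  set r : G (n + 1) := swap 0 k with hr
  have hy1 : (fun σ : G (n + 1) => x (r * σ * (r⁻¹ * g))) ∈ Jm K M (n + 1) :=
    Jm_R K M (n + 1) _ (Jm_L K M (n + 1) x hx r) (r⁻¹ * g)
  have h2 := StarM_aux1 K M n h _ hy1
  have e1 : ∀ j : Fin (n + 1), r * swap 0 j * (r⁻¹ * g) = swap (r j) k * g := by
    intro j
    rw [Equiv.mul_swap_eq_swap_mul, mul_assoc, mul_inv_cancel_left, Equiv.swap_comm]
    have e2 : r 0 = k := by rw [hr, Equiv.swap_apply_left]
    rw [e2]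
  simp only [e1, mul_one, mul_inv_cancel_left] at h2
  have h3 : ∑ j, x (swap j k * g) = ∑ j, x (swap (r j) k * g) :=
    (Equiv.sum_comp r (fun j => x (swap j k * g))).symm
  rw [Fin.sum_univ_succ (fun j => x (swap (r j) k * g)), h2] at h3
  have h4 : r 0 = k := by rw [hr, Equiv.swap_apply_left]
  rw [h4, ← Finset.add_sum_erase Finset.univ _ (Finset.mem_univ k)] at h3
  exact add_left_cancel h3

end Pool.Agent.W_868bb7_h94
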