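import Pool.Agent.W_868bb7_h94.NilC
import Pool.Agent.W_868bb7_h94.PsiB
import Pool.Agent.W_868bb7_h94.StarM
import Pool.Agent.W_868bb7_h94.SortC

set_option autoImplicit false

/-!
# Fwd: a relation in degree `< (p + 2) (q + 2)` and a projector with the traces of type `(p | q)`
-/

namespace Pool.Agent.W_868bb7_h94

open CategoryTheory MonoidalCategory Equiv Polynomial Pool.Agent.W_MP_868bb7_ag

universe v u w

variable (K : Type w) [Field K] {C : Type u} [Category.{v} C] [MonoidalCategory C]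
  [Preadditive C] [Linear K C] [MonoidalPreadditive C] [MonoidalLinear K C]
  [SymmetricCategory C] [RightRigidCategory C] [UnitK K C]

/-- Let `n0 ≤ n` be minimal with `Jm K M n0 ≠ ⊥` (`Nat.find`; `x ∈ Jm K M n` is not zero); `n0 ≥ 1` (`Jm_zero`),
`Jm K M (n0 - 1) = ⊥`, so all `x ∈ Jm K M n0` have star sums `c = -tr (𝟙 M) = q - p` (`star_of_min`).
* `sorted_exists` with `e = true`: `a + b = n0`, `1 ≤ a`, `n0 = a (a + (q - p))`, so `a ≤ p + 1`
  (`card_le_of_lt`), `x1 ∈ Jm K M (a + b)` sorted.  Write `a = a' + 1`; `exists_idem` gives `e`.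
* `E_of_sorted` for `x1` with `w = 𝟙 M - e`, `u = e`: `tr w + (q - p - i + l) = -q + q - p - i + l
  = -(p + i - l) ≠ 0` for `i ≥ 1`, `l < a ≤ p + 1`.  So `powMap e a ≫ E true M a = 0`; `Fd_mono'` (library).
* `sorted_exists` with `e = false`: `n0 = a (a - (q - p)) = a (a + (p - q))`, `a ≤ q + 1`
  (`card_le_of_lt` with `p`, `q` exchanged), `x2` sorted.  `E_of_sorted` for `x2` with `w = e`, `u = 𝟙 M - e`:
  `tr w + (q - p + i - l) = q + i - l ≠ 0`.  `Fd_mono'`. -/
theorem forward [CharZero K] (M : C) (π : M ⟶ M) (p q : ℕ)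
    (htr : ∀ k : ℕ, 1 ≤ k → tr K (it π k) = p) (hdim : tr K (𝟙 M) = (p : K) - q)
    (n : ℕ) (hn : n < (p + 2) * (q + 2)) (x : G n → K) (hx : x ≠ 0) (h0 : Phi K M n x = 0) :
    ∃ e : M ⟶ M, e ≫ e = e ∧ tr K e = p ∧ tr K (𝟙 M - e) = -(q : K) ∧
      powMap e (p + 1) ≫ E true M (p + 1) = 0 ∧
      powMap (𝟙 M - e) (q + 1) ≫ E false M (q + 1) = 0 := by
  classical
  have hJn : Jm K M n ≠ ⊥ := by
    intro h
    apply hx
    have h1 : x ∈ Jm K M n := (mem_Jm K M n x).2 h0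
    rwa [h, Submodule.mem_bot] at h1
  obtain ⟨m, h1, h2, h3⟩ : ∃ m, Jm K M m = ⊥ ∧ Jm K M (m + 1) ≠ ⊥ ∧ m + 1 ≤ n := by
    have hex : ∃ m, Jm K M m ≠ ⊥ := ⟨n, hJn⟩
    have hs := Nat.find_spec hex
    have hle := Nat.find_min' hex hJn
    have hmin : ∀ k < Nat.find hex, Jm K M k = ⊥ := fun k hk => by
      by_contra hc
      exact Nat.find_min hex hk hc
    generalize Nat.find hex = n0 at hs hle hmin
    cases n0 with
    | zero => exact absurd (Jm_zero K M) hs
    | succ m => exact ⟨m, hmin m (Nat.lt_succ_self m), hs, hle⟩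
  have hstar : ∀ y ∈ Jm K M (m + 1), Star ((q : K) - p) y := by
    intro y hy
    have h4 := star_of_min K M m h1 y hy
    rwa [hdim, neg_sub] at h4
  have hlt : m + 1 < (p + 2) * (q + 2) := lt_of_le_of_lt h3 hn
  obtain ⟨a, b, hab, ha1, heq, x1, hx1, hS1⟩ := sorted_exists (fun n => Jm K M n) (m + 1)
    (by omega) (Jm_L K M (m + 1)) (Jm_R K M (m + 1)) h2 ((q : K) - p) hstar true
  obtain ⟨a2, b2, hab2, ha2, heq2, x2, hx2, hS2⟩ := sorted_exists (fun n => Jm K M n) (m + 1)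
    (by omega) (Jm_L K M (m + 1)) (Jm_R K M (m + 1)) h2 ((q : K) - p) hstar false
  have hct : ((cs true : ℤ) : K) = -1 := by simp [cs]
  have hcf : ((cs false : ℤ) : K) = 1 := by simp [cs]
  have hale : a ≤ p + 1 := by
    refine card_le_of_lt (K := K) a p q (m + 1) ?_ hlt
    rw [heq, hct]
    ring
  have hale2 : a2 ≤ q + 1 := by
    refine card_le_of_lt (K := K) a2 q p (m + 1) ?_ (by rw [mul_comm]; exact hlt)
    rw [heq2, hcf]
    ring
  obtain ⟨a', rfl⟩ : ∃ a', a = a' + 1 := ⟨a - 1, by omega⟩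
  have hx1' : Phi K M (a' + 1 + b) x1 = 0 := hx1
  have hx2' : Phi K M (a2 + b2) x2 = 0 := hx2
  obtain ⟨e, hee, hte, hte'⟩ := exists_idem K M π p q htr hdim a' b x1 hS1 (by omega) hx1'
  have hw1 : (𝟙 M - e) ≫ (𝟙 M - e) = 𝟙 M - e := by
    simp [Preadditive.sub_comp, Preadditive.comp_sub, hee]
  have hw2 : (𝟙 M - e) ≫ e = 0 := by
    simp [Preadditive.sub_comp, hee]
  have hw3 : e ≫ (𝟙 M - e) = 0 := by
    simp [Preadditive.comp_sub, hee]
  have hcast : ∀ r i l : ℕ, 1 ≤ i → l ≤ r → ((r : K) + i - l) ≠ 0 := by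
    intro r i l hi hl h
    have h5 : ((r + i - l : ℕ) : K) = 0 := by
      rw [Nat.cast_sub (by omega)]
      push_cast
      exact h
    rw [Nat.cast_eq_zero] at h5
    omega
  refine ⟨e, hee, hte, hte', ?_, ?_⟩
  · refine Fd_mono' true e (a' + 1) (p + 1) hale ?_
    refine E_of_sorted K true ((q : K) - p) M (a' + 1) b x1 hS1 hx1' (𝟙 M - e) e hw1 hw2 ?_
    intro i l hi hl h
    apply hcast p i l hi (by omega)
    rw [hte', hct] at h
    linear_combination -h
  · refine Fd_mono' false (𝟙 M - e) a2 (q + 1) hale2 ?_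
    refine E_of_sorted K false ((q : K) - p) M a2 b2 x2 hS2 hx2' e (𝟙 M - e) hee hw3 ?_
    intro i l hi hl h
    apply hcast q i l hi (by omega)
    rw [hte, hcf] at h
    linear_combination h

end Pool.Agent.W_868bb7_h94
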