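import Pool.Agent.W_868bb7_h94.Defs

set_option autoImplicit false

/-!
# LamA: linearity and functoriality of `Lam`

All by induction on `n`, unfolding `Lam`.
-/

namespace Pool.Agent.W_868bb7_h94

open Equiv Pool.Agent.W_MP_868bb7_ag

variable {K : Type*} [Field K] {A : Type*} [CommRing A] [Algebra K A]

theorem Lam_add (T : A →ₗ[K] K) (n : ℕ) (x y : G n → K) (h : Fin n → A) :
    Lam T n (x + y) h = Lam T n x h + Lam T n y h := by
  induction n with
  | zero => simp [Lam]
  | succ n ih =>
    simp only [Lam]
    have e1 : (fun τ : G n => (x + y) (shift τ)) =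
        (fun τ : G n => x (shift τ)) + (fun τ : G n => y (shift τ)) := rfl
    have e2 : ∀ i : Fin n, (fun τ : G n => (x + y) (swap 0 i.succ * shift τ)) =
        (fun τ : G n => x (swap 0 i.succ * shift τ)) +
          (fun τ : G n => y (swap 0 i.succ * shift τ)) := fun _ => rfl
    simp only [e1, e2, ih, Finset.sum_add_distrib, smul_add]
    simp only [Pi.add_apply, add_smul]
    split_ifs <;> abel

theorem Lam_smul (T : A →ₗ[K] K) (n : ℕ) (c : K) (x : G n → K) (h : Fin n → A) :
    Lam T n (c • x) h = c • Lam T n x h := by
  induction n with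
  | zero => simp [Lam]
  | succ n ih =>
    simp only [Lam]
    have e1 : (fun τ : G n => (c • x) (shift τ)) = c • (fun τ : G n => x (shift τ)) := rfl
    have e2 : ∀ i : Fin n, (fun τ : G n => (c • x) (swap 0 i.succ * shift τ)) =
        c • (fun τ : G n => x (swap 0 i.succ * shift τ)) := fun _ => rfl
    simp only [e1, e2, ih, smul_add, Finset.smul_sum]
    simp only [Pi.smul_apply, smul_eq_mul, mul_smul]
    rw [smul_comm (T (h 0)) c]
    congr 1
    split_ifs
    · rfl
    · rw [smul_zero]

/-- if one letter is `0` -/
theorem Lam_zero (T : A →ₗ[K] K) (n : ℕ) (x : G n → K) (h : Fin n → A) (i : Fin n)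
    (hi : h i = 0) : Lam T n x h = 0 := by
  induction n with
  | zero => exact i.elim0
  | succ n ih =>
    simp only [Lam]
    rcases Fin.eq_zero_or_eq_succ i with h0 | ⟨j, rfl⟩
    · subst h0
      have e : ∀ i : Fin n, Lam T n (fun τ : G n => x (swap 0 i.succ * shift τ))
          (Function.update (fun j : Fin n => h j.succ) i (h 0 * h i.succ)) = 0 := by
        intro i
        refine ih _ _ i ?_
        simp [hi]
      simp only [e, Finset.sum_const_zero, add_zero]
      simp [hi]
    · have hn : n ≠ 0 := by
        rintro rfl
        exact j.elim0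
      have e0 : Lam T n (fun τ : G n => x (shift τ)) (fun i : Fin n => h i.succ) = 0 :=
        ih _ _ j hi
      have e : ∀ i : Fin n, Lam T n (fun τ : G n => x (swap 0 i.succ * shift τ))
          (Function.update (fun j : Fin n => h j.succ) i (h 0 * h i.succ)) = 0 := by
        intro i
        refine ih _ _ j ?_
        by_cases hj : j = i
        · subst hj
          simp [hi]
        · simp [Function.update_of_ne hj, hi]
      simp only [e0, e, if_neg hn, smul_zero, Finset.sum_const_zero, add_zero]

theorem Lam_map {B : Type*} [CommRing B] [Algebra K B] (ψ : A →ₐ[K] B) (T : A →ₗ[K] K)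
    (T' : B →ₗ[K] K) (hT : ∀ a, T' (ψ a) = T a) (n : ℕ) (x : G n → K) (h : Fin n → A) :
    ψ (Lam T n x h) = Lam T' n x (fun i => ψ (h i)) := by
  induction n with
  | zero => simp [Lam]
  | succ n ih =>
    simp only [Lam, map_add, map_smul, map_sum, ih, hT]
    congr 1
    · split_ifs
      · rw [map_smul]
      · rw [map_zero]
    · congr 1
      refine Finset.sum_congr rfl fun i _ => ?_
      congr 1
      funext j
      by_cases hj : j = i
      · subst hj
        simp
      · simp [Function.update_of_ne hj]

end Pool.Agent.W_868bb7_h94
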