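import Pool.Agent.W_868bb7_h94.LamA
import Pool.Agent.W_868bb7_h94.Step

set_option autoImplicit false

/-!
# LamB: `Lam` of a sorted relation with orthogonal idempotent letters
-/

namespace Pool.Agent.W_868bb7_h94

open Equiv Pool.Agent.W_MP_868bb7_ag

variable {K : Type*} [Field K] {A : Type*} [CommRing A] [Algebra K A]

/-- closing the first `b` strands with the letter `w`: induction on `b` (for all `x`, `γ`), unfold `Lam` at
`a + b + 1` (`a + b ≠ 0`), `step_shift`, `first_step` with `op = (· * ·)`, `F = Lam T (a + b)` (`Lam_add`,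
`Lam_smul`, `Lam_zero`), `Finset.prod_range_succ'` -/
theorem Lam_w (T : A →ₗ[K] K) (a b : ℕ) (ha : 1 ≤ a) (x : G (a + b) → K) (γ : ℕ → K)
    (hγ : ∀ k : Fin (a + b), k.val < b → ∀ g : G (a + b),
      ∑ j ∈ Finset.univ.filter (fun j : Fin (a + b) => k < j ∧ j.val < b), x (swap k j * g) =
        γ k.val * x g)
    (w : A) (r : ℕ → A) (hww : w * w = w) (hwr : ∀ j, w * r j = 0) :
    Lam T (a + b) x (fun j => if j.val < b then w else r (j.val - b)) =
      (∏ k ∈ Finset.range b, (T w + γ k)) • Lam T a (xN b x) (fun j => r j.val) := by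
  induction b generalizing γ with
  | zero =>
    simp only [Finset.range_zero, Finset.prod_empty, one_smul, Nat.not_lt_zero, if_false,
      Nat.sub_zero]
    rfl
  | succ b ih =>
    obtain ⟨h1, h2⟩ := step_shift a b x γ hγ
    have hne : a + b ≠ 0 := by omega
    have key : Lam T (a + b + 1) x
        (fun j : Fin (a + b + 1) => if j.val < b + 1 then w else r (j.val - (b + 1))) =
        (T w + γ 0) • Lam T (a + b) (fun τ => x (shift τ))
          (fun j => if j.val < b then w else r (j.val - b)) := by
      have hsucc : (fun i : Fin (a + b) =>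
          (if (i.succ : Fin (a + b + 1)).val < b + 1 then w
            else r ((i.succ : Fin (a + b + 1)).val - (b + 1)))) =
          (fun j => if j.val < b then w else r (j.val - b)) := by
        funext j
        simp only [Fin.val_succ, Nat.add_lt_add_iff_right, Nat.add_sub_add_right]
      have fs := first_step (K := K) (A := A) (V := A) (fun p q => p * q) (Lam T (a + b))
        (Lam_add T (a + b)) (Lam_smul T (a + b)) (fun y h i hi => Lam_zero T (a + b) y h i hi)
        x (fun j : Fin (a + b + 1) => if j.val < b + 1 then w else r (j.val - (b + 1))) b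
        (T w) (γ 0)
        (by
          intro j hj
          have hj' : (j.succ : Fin (a + b + 1)).val < b + 1 := by
            rw [Fin.val_succ]; omega
          simp only [hj', Fin.val_zero, Nat.zero_lt_succ, if_true, hww])
        (by
          intro j hj
          have hj' : ¬ (j.succ : Fin (a + b + 1)).val < b + 1 := by
            rw [Fin.val_succ]; omega
          simp only [hj', Fin.val_zero, Nat.zero_lt_succ, if_true, if_false, hwr])
        h1
      rw [hsucc] at fs
      rw [Lam, if_neg hne, zero_add]
      rw [← fs]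
      simp only [Fin.val_zero, Nat.zero_lt_succ, if_true]
      rw [hsucc]
    have ih' := ih (fun τ => x (shift τ)) (fun k => γ (k + 1)) h2
    refine key.trans ?_
    rw [ih', Finset.prod_range_succ', smul_smul]
    change _ = ((∏ k ∈ Finset.range b, (T w + γ (k + 1))) * (T w + γ 0)) •
      Lam T a (xN b (fun τ => x (shift τ))) (fun j => r j.val)
    rw [mul_comm]

/-- closing the first `a` of `a + 1` (anti)symmetric strands with the letter `u`: induction on `a`;
`a = 0`: `Lam T 1 x h = x 1 • h 0`; `a + 1`: `first_step` with `b = a`, `γ = cs e * a`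
(`x (swap 0 j.succ * shift τ) = cs e * x (shift τ)` by `hx`, `chi_swap`), `chi_shift`,
`Finset.prod_range_succ` -/
theorem Lam_u (T : A →ₗ[K] K) (e : Bool) (a : ℕ) (x : G (a + 1) → K)
    (hx : ∀ τ, x τ = ((chi e τ : ℤˣ) : ℤ) • x 1)
    (u v : A) (huu : u * u = u) (huv : u * v = 0) :
    Lam T (a + 1) x (fun j => if j.val < a then u else v) =
      (x 1 * ∏ l ∈ Finset.range a, (T u + ((cs e : ℤ) : K) * l)) • v := by
  induction a with
  | zero =>
    simp [Lam]
  | succ a ih =>
    have hsucc : (fun i : Fin (a + 1) =>
        (if (i.succ : Fin (a + 1 + 1)).val < a + 1 then u else v)) =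
        (fun j => if j.val < a then u else v) := by
      funext j
      simp only [Fin.val_succ, Nat.add_lt_add_iff_right]
    have hx' : ∀ τ : G (a + 1), (fun τ => x (shift τ)) τ =
        ((chi e τ : ℤˣ) : ℤ) • (fun τ => x (shift τ)) 1 := by
      intro τ
      change x (shift τ) = ((chi e τ : ℤˣ) : ℤ) • x (shift 1)
      rw [shift_id, hx (shift τ), chi_shift]
    have hcard : (Finset.univ.filter (fun j : Fin (a + 1) => j.val < a)).card = a := by
      have hEq : Finset.univ.filter (fun j : Fin (a + 1) => j.val < a) =
          Finset.univ.map Fin.castSuccEmb := by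
        ext j
        simp only [Finset.mem_filter, Finset.mem_univ, true_and, Finset.mem_map,
          Fin.coe_castSuccEmb]
        constructor
        · intro hj
          exact ⟨⟨j.val, hj⟩, Fin.ext rfl⟩
        · rintro ⟨i, rfl⟩
          exact i.isLt
      rw [hEq, Finset.card_map, Finset.card_univ, Fintype.card_fin]
    have fs := first_step (K := K) (A := A) (V := A) (fun p q => p * q) (Lam T (a + 1))
      (Lam_add T (a + 1)) (Lam_smul T (a + 1)) (fun y h i hi => Lam_zero T (a + 1) y h i hi)
      x (fun j : Fin (a + 1 + 1) => if j.val < a + 1 then u else v) a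
      (T u) (((cs e : ℤ) : K) * a)
      (by
        intro j hj
        have hj' : (j.succ : Fin (a + 1 + 1)).val < a + 1 := by
          rw [Fin.val_succ]; omega
        simp only [hj', Fin.val_zero, Nat.zero_lt_succ, if_true, huu])
      (by
        intro j hj
        have hj' : ¬ (j.succ : Fin (a + 1 + 1)).val < a + 1 := by
          rw [Fin.val_succ]; omega
        simp only [hj', Fin.val_zero, Nat.zero_lt_succ, if_true, if_false, huv])
      (by
        intro τ
        have hterm : ∀ j : Fin (a + 1),
            x (swap 0 j.succ * shift τ) = ((cs e : ℤ) : K) * x (shift τ) := by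
          intro j
          rw [hx (swap 0 j.succ * shift τ), map_mul, Units.val_mul,
            chi_swap e (0 : Fin (a + 1 + 1)) j.succ (Fin.succ_ne_zero j).symm, hx (shift τ),
            zsmul_eq_mul, zsmul_eq_mul]
          push_cast
          ring
        rw [Finset.sum_congr rfl (fun j _ => hterm j), Finset.sum_const, hcard, nsmul_eq_mul]
        ring)
    rw [hsucc] at fs
    have ih' := ih (fun τ => x (shift τ)) hx'
    rw [Lam, if_neg (Nat.succ_ne_zero a), zero_add]
    simp only [Fin.val_zero, Nat.zero_lt_succ, if_true] at fs ⊢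
    rw [hsucc, fs, ih', Finset.prod_range_succ, smul_smul, shift_id]
    congr 1
    ring

/-- `Lam_w`, `xN_eq`, `Lam_u` -/
theorem Lam_sorted (T : A →ₗ[K] K) (e : Bool) (a b : ℕ) (x : G (a + 1 + b) → K) (γ : ℕ → K)
    (hγ : ∀ k : Fin (a + 1 + b), k.val < b → ∀ g : G (a + 1 + b),
      ∑ j ∈ Finset.univ.filter (fun j : Fin (a + 1 + b) => k < j ∧ j.val < b),
        x (swap k j * g) = γ k.val * x g)
    (hx : ∀ j k : Fin (a + 1 + b), b ≤ j.val → b ≤ k.val → j ≠ k → ∀ g : G (a + 1 + b),
      x (swap j k * g) = ((cs e : ℤ) : K) * x g)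
    (w u v : A) (hww : w * w = w) (hwu : w * u = 0) (hwv : w * v = 0) (huu : u * u = u)
    (huv : u * v = 0) :
    Lam T (a + 1 + b) x (fun j => if j.val < b then w else if j.val - b < a then u else v) =
      ((∏ k ∈ Finset.range b, (T w + γ k)) *
        (x 1 * ∏ l ∈ Finset.range a, (T u + ((cs e : ℤ) : K) * l))) • v := by
  have h1 := Lam_w T (a + 1) b (Nat.succ_le_succ (Nat.zero_le a)) x γ hγ w
    (fun j => if j < a then u else v) hww
    (by
      intro j
      by_cases hj : j < a
      · simp only [hj, if_true, hwu]
      · simp only [hj, if_false, hwv])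
  rw [h1]
  have hN : ∀ τ : G (a + 1), xN b x τ = ((chi e τ : ℤˣ) : ℤ) • xN b x 1 := by
    intro τ
    rw [xN_eq e (a + 1) b x hx τ, xN_eq e (a + 1) b x hx 1, map_one, Units.val_one, one_smul]
  have h2 := Lam_u T e a (xN b x) hN u v huu huv
  rw [h2, xN_eq e (a + 1) b x hx 1, map_one, Units.val_one, one_smul, smul_smul]

end Pool.Agent.W_868bb7_h94
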