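import Pool.Agent.W_868bb7_h94.Fwd
import Pool.Agent.W_MP_868bb7_ag.Newton

set_option autoImplicit false

/-!
# MinDeg: the degrees of the relations of an object of type `(p | q)`
-/

namespace Pool.Agent.W_868bb7_h94

open CategoryTheory MonoidalCategory Equiv Pool.Agent.W_MP_868bb7_ag

universe v u w

variable (K : Type w) [Field K] {C : Type u} [Category.{v} C] [MonoidalCategory C]
  [Preadditive C] [Linear K C] [MonoidalPreadditive C] [MonoidalLinear K C]
  [SymmetricCategory C]

/-- a relation in degree `n` gives one in degree `n + 1` -/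
theorem Jm_mono (M : C) (n : ℕ) (h : Jm K M n ≠ ⊥) : Jm K M (n + 1) ≠ ⊥ := by
  classical
  obtain ⟨x, hx, hx0⟩ := Submodule.exists_mem_ne_zero_of_ne_bot h
  rw [mem_Jm] at hx
  intro hb
  apply hx0
  let y : G (n + 1) → K := fun σ => if σ 0 = 0 then x (Equiv.Perm.decomposeFin σ).2 else 0
  have hy1 : ∀ τ : G n, y (shift τ) = x τ := by
    intro τ
    have h1 : (Equiv.Perm.decomposeFin (shift τ)).2 = τ := by
      have h2 : Equiv.Perm.decomposeFin (shift τ) = (0, τ) := by
        unfold shift
        exact Equiv.apply_symm_apply _ _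
      rw [h2]
    have h0 : y (shift τ) = x (Equiv.Perm.decomposeFin (shift τ)).2 := if_pos (shift_zero τ)
    rw [h0, h1]
  have hy2 : ∀ (i : Fin n) (τ : G n), y (swap 0 i.succ * shift τ) = 0 := by
    intro i τ
    simp only [y]
    rw [if_neg]
    rw [Equiv.Perm.mul_apply, shift_zero, swap_apply_left]
    exact Fin.succ_ne_zero i
  have hy : y ∈ Jm K M (n + 1) := by
    rw [mem_Jm]
    unfold Phi
    rw [sum_G_succ]
    have h2 : ∑ i : Fin n, ∑ τ : G n,
        y (swap 0 i.succ * shift τ) • act M (n + 1) (swap 0 i.succ * shift τ) = 0 := by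
      refine Finset.sum_eq_zero fun i _ => Finset.sum_eq_zero fun τ _ => ?_
      rw [hy2, zero_smul]
    rw [h2, add_zero]
    have h3 : ∀ τ : G n, y (shift τ) • act M (n + 1) (shift τ) =
        M ◁ (x τ • act M n τ) := by
      intro τ
      rw [hy1, act_shift, MonoidalLinear.whiskerLeft_smul]
      rfl
    have h4 : M ◁ Phi K M n x = ∑ τ : G n, M ◁ (x τ • act M n τ) := by
      unfold Phi
      exact (tensorLeft M).map_sum (fun τ : G n => x τ • act M n τ) Finset.univ
    rw [Finset.sum_congr rfl fun τ _ => h3 τ]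
    refine h4.symm.trans ?_
    rw [hx, MonoidalPreadditive.whiskerLeft_zero]
    rfl
  rw [hb, Submodule.mem_bot] at hy
  funext τ
  rw [← hy1 τ, hy]
  rfl

theorem Jm_le (M : C) (n m : ℕ) (hnm : n ≤ m) (h : Jm K M n ≠ ⊥) : Jm K M m ≠ ⊥ := by
  induction m, hnm using Nat.le_induction with
  | base => exact h
  | succ m _ ih => exact Jm_mono K M m ih

variable [RightRigidCategory C] [UnitK K C]

/-- no relation in degree `< (p + 1) (q + 1)` -/
theorem Jm_below [CharZero K] (M : C) (e : M ⟶ M) (he : e ≫ e = e) (p q : ℕ)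
    (t1 : tr K e = p) (t2 : tr K (𝟙 M - e) = -(q : K)) (n : ℕ)
    (hn : n < (p + 1) * (q + 1)) : Jm K M n = ⊥ := by
  classical
  by_contra hJn
  have hdim : tr K (𝟙 M) = (p : K) - q := by
    rw [tr_sub, t1] at t2
    linear_combination t2
  obtain ⟨m, h1, h2, h3⟩ : ∃ m, Jm K M m = ⊥ ∧ Jm K M (m + 1) ≠ ⊥ ∧ m + 1 ≤ n := by
    have hex : ∃ m, Jm K M m ≠ ⊥ := ⟨n, hJn⟩
    have hs := Nat.find_spec hex
    have hle := Nat.find_min' hex hJn
    have hmin : ∀ k < Nat.find hex, Jm K M k = ⊥ := fun k hk => by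
      by_contra hc
      exact Nat.find_min hex hk hc
    generalize Nat.find hex = n0 at hs hle hmin
    cases n0 with
    | zero => exact absurd (Jm_zero K M) hs
    | succ m => exact ⟨m, hmin m (Nat.lt_succ_self m), hs, hle⟩
  have hstar : ∀ y ∈ Jm K M (m + 1), Star ((q : K) - p) y := by
    intro y hy
    have h4 := star_of_min K M m h1 y hy
    rwa [hdim, neg_sub] at h4
  have hlt : m + 1 < (p + 2) * (q + 2) := by nlinarith
  obtain ⟨a, b, hab, ha1, heq, x1, hx1, hS1⟩ := sorted_exists (fun n => Jm K M n) (m + 1)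
    (by omega) (Jm_L K M (m + 1)) (Jm_R K M (m + 1)) h2 ((q : K) - p) hstar true
  have hct : ((cs true : ℤ) : K) = -1 := by simp [cs]
  have hale : a ≤ p + 1 := by
    refine card_le_of_lt (K := K) a p q (m + 1) ?_ hlt
    rw [heq, hct]
    ring
  have hale' : a ≤ p := by
    by_contra hc
    have ha : a = p + 1 := by omega
    rw [ha, hct] at heq
    have h5 : ((m + 1 : ℕ) : K) = (((p + 1) * (q + 1) : ℕ) : K) := by
      rw [heq]
      push_cast
      ring
    have h6 := Nat.cast_injective h5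
    omega
  have hx1' : Phi K M (a + b) x1 = 0 := hx1
  have hw1 : (𝟙 M - e) ≫ (𝟙 M - e) = 𝟙 M - e := by
    simp [Preadditive.sub_comp, Preadditive.comp_sub, he]
  have hw2 : (𝟙 M - e) ≫ e = 0 := by
    simp [Preadditive.sub_comp, he]
  have hE : powMap e a ≫ E true M a = 0 := by
    refine E_of_sorted K true ((q : K) - p) M a b x1 hS1 hx1' (𝟙 M - e) e hw1 hw2 ?_
    intro i l hi hl h
    have h5 : ((p + i - l : ℕ) : K) = 0 := by
      rw [Nat.cast_sub (by omega)]
      push_cast
      rw [t2, hct] at h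
      linear_combination -h
    rw [Nat.cast_eq_zero] at h5
    omega
  have h7 := dim_prod K true e he a
  rw [Tn, hE, tr_zero, t1] at h7
  obtain ⟨i, hi, h8⟩ := Finset.prod_eq_zero_iff.1 h7.symm
  rw [Finset.mem_range] at hi
  have h9 : ((p : ℕ) : K) = ((i : ℕ) : K) := by
    rw [hct] at h8
    linear_combination h8
  have h10 := Nat.cast_injective h9
  omega

end Pool.Agent.W_868bb7_h94
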