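import Pool.Agent.W_868bb7_h94.LamB

set_option autoImplicit false

/-!
# NilA: a Cayley-Hamilton polynomial not divisible by `μ`
-/

namespace Pool.Agent.W_868bb7_h94

open Equiv Polynomial Pool.Agent.W_MP_868bb7_ag

variable {K : Type*} [Field K]

theorem psi_apply (μ g : K[X]) :
    psi μ g = (g.eval 0, g.eval 1, Ideal.Quotient.mk (Ideal.span {μ}) g) := by
  simp [psi, coe_aeval_eq_eval]

/-- letters with given values: `W = (1 - X) * μ * C (μ(0))⁻¹`, `U = X * μ * C (μ(1))⁻¹`, `V = 1 - W - U` -/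
theorem exists_letter (μ : K[X]) (h0 : μ.eval 0 ≠ 0) (h1 : μ.eval 1 ≠ 0) :
    ∃ W U V : K[X], psi μ W = (1, 0, 0) ∧ psi μ U = (0, 1, 0) ∧ psi μ V = (0, 0, 1) := by
  have hW : psi μ ((1 - X) * μ * C (μ.eval 0)⁻¹) = (1, 0, 0) := by
    rw [psi_apply]
    refine Prod.ext ?_ (Prod.ext ?_ ?_)
    · simp [h0]
    · simp
    · change Ideal.Quotient.mk (Ideal.span {μ}) ((1 - X) * μ * C (μ.eval 0)⁻¹) = 0
      rw [Ideal.Quotient.eq_zero_iff_mem, Ideal.mem_span_singleton]
      exact ⟨(1 - X) * C (μ.eval 0)⁻¹, by ring⟩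
  have hU : psi μ (X * μ * C (μ.eval 1)⁻¹) = (0, 1, 0) := by
    rw [psi_apply]
    refine Prod.ext ?_ (Prod.ext ?_ ?_)
    · simp
    · simp [h1]
    · change Ideal.Quotient.mk (Ideal.span {μ}) (X * μ * C (μ.eval 1)⁻¹) = 0
      rw [Ideal.Quotient.eq_zero_iff_mem, Ideal.mem_span_singleton]
      exact ⟨X * C (μ.eval 1)⁻¹, by ring⟩
  refine ⟨(1 - X) * μ * C (μ.eval 0)⁻¹, X * μ * C (μ.eval 1)⁻¹,
    1 - (1 - X) * μ * C (μ.eval 0)⁻¹ - X * μ * C (μ.eval 1)⁻¹, hW, hU, ?_⟩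
  rw [map_sub, map_sub, hW, hU, map_one]
  refine Prod.ext ?_ (Prod.ext ?_ ?_)
  · simp
  · simp
  · simp

/-- Let `γ k` be the scalar of `hS.step` (`c = q - p`, `e = true`: `γ = q - p - i + l`, `i ≥ 1`, `l ≤ a ≤ p`),
`W, U, V` from `exists_letter`, `h j = if j.val < b then W else if j.val - b < a then U else V`.  `Lam_map` with
`ψ = psi μ`, `T' = TB p q _` and `Lam_sorted` with `w = (1,0,0)`, `u = (0,1,0)`, `v = (0,0,1)`, `T' w = -q`, `T' u = p`:
`psi μ (Lam (TA p q) _ x h) = s • (0, 0, 1)` with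
`s = ∏_{k<b} (-q + γ k) * (x 1 * ∏_{l<a} (p - l)) ≠ 0`: `-q + γ k = -p - i + l ≠ 0` and `p - l ≠ 0` for
`l < a ≤ p` (characteristic `0`).  If `μ` divided it, the third component `s • 1` would be `0` in
`K[X] / (μ)`, which is not the zero ring, as `μ` is not a unit. -/
theorem Lam_not_dvd [CharZero K] (p q a b : ℕ) (x : G (a + 1 + b) → K)
    (hS : Sorted true ((q : K) - p) (a + 1) b x) (hap : a ≤ p) (μ : K[X])
    (h0 : μ.eval 0 ≠ 0) (h1 : μ.eval 1 ≠ 0) (hu : ¬ IsUnit μ) :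
    ∃ h : Fin (a + 1 + b) → K[X], ¬ μ ∣ Lam (TA p q) (a + 1 + b) x h := by
  classical
  obtain ⟨W, U, V, hW, hU, hV⟩ := exists_letter μ h0 h1
  have hstep := hS.step
  choose ii ll hii hll hg using hstep
  set γ : ℕ → K := fun k => if hk : k < b then
      ((q : K) - p + ((cs true : ℤ) : K) * (ii ⟨k, by omega⟩ hk : ℕ) -
        ((cs true : ℤ) : K) * (ll ⟨k, by omega⟩ hk : ℕ)) else 0 with hγdef
  have hγ : ∀ k : Fin (a + 1 + b), k.val < b → ∀ g : G (a + 1 + b),
      ∑ j ∈ Finset.univ.filter (fun j : Fin (a + 1 + b) => k < j ∧ j.val < b), x (swap k j * g) =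
        γ k.val * x g := by
    intro k hk g
    rw [hg k hk g, hγdef]
    simp only [hk, dif_pos, Fin.eta]
  refine ⟨fun j => if j.val < b then W else if j.val - b < a then U else V, ?_⟩
  intro hdvd
  have hT : ∀ g : K[X], TB p q (K[X] ⧸ Ideal.span {μ}) (psi μ g) = TA p q g := by
    intro g
    rw [psi_apply]
    rfl
  have hm := Lam_map (psi μ) (TA p q) (TB p q (K[X] ⧸ Ideal.span {μ})) hT (a + 1 + b) x
    (fun j => if j.val < b then W else if j.val - b < a then U else V)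
  have hlet : (fun i : Fin (a + 1 + b) => psi μ (if i.val < b then W else
      if i.val - b < a then U else V)) = (fun j : Fin (a + 1 + b) => if j.val < b then
        ((1, 0, 0) : K × K × (K[X] ⧸ Ideal.span {μ})) else
        if j.val - b < a then (0, 1, 0) else (0, 0, 1)) := by
    funext i
    split_ifs
    · exact hW
    · exact hU
    · exact hV
  rw [hlet] at hm
  rw [Lam_sorted (TB p q (K[X] ⧸ Ideal.span {μ})) true a b x γ hγ hS.sym (1, 0, 0) (0, 1, 0)
    (0, 0, 1) (by simp) (by simp) (by simp) (by simp) (by simp)] at hm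
  rw [psi_apply] at hm
  have h3 := congrArg (fun z => z.2.2) hm
  simp only at h3
  rw [Ideal.Quotient.eq_zero_iff_mem.2 (Ideal.mem_span_singleton.2 hdvd)] at h3
  have hnt : Nontrivial (K[X] ⧸ Ideal.span {μ}) := by
    rw [Ideal.Quotient.nontrivial_iff]
    intro htop
    exact hu (Ideal.span_singleton_eq_top.1 htop)
  have h4 : ((∏ k ∈ Finset.range b, (TB p q (K[X] ⧸ Ideal.span {μ}) (1, 0, 0) + γ k)) *
      (x 1 * ∏ l ∈ Finset.range a, (TB p q (K[X] ⧸ Ideal.span {μ}) (0, 1, 0) +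
        ((cs true : ℤ) : K) * l))) • (1 : K[X] ⧸ Ideal.span {μ}) = 0 := by
    rw [h3]
    rfl
  have hcs : ((cs true : ℤ) : K) = -1 := by simp [cs]
  have hTw : TB p q (K[X] ⧸ Ideal.span {μ}) (1, 0, 0) = -(q : K) := by
    simp [TB]
  have hTu : TB p q (K[X] ⧸ Ideal.span {μ}) (0, 1, 0) = (p : K) := by
    simp [TB]
  have hs : ((∏ k ∈ Finset.range b, (TB p q (K[X] ⧸ Ideal.span {μ}) (1, 0, 0) + γ k)) *
      (x 1 * ∏ l ∈ Finset.range a, (TB p q (K[X] ⧸ Ideal.span {μ}) (0, 1, 0) +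
        ((cs true : ℤ) : K) * l))) ≠ 0 := by
    refine mul_ne_zero ?_ (mul_ne_zero hS.one ?_)
    · rw [Finset.prod_ne_zero_iff]
      intro k hk
      have hkb : k < b := Finset.mem_range.1 hk
      rw [hTw, hγdef]
      simp only [hkb, dif_pos, hcs]
      have e1 : 1 ≤ ii ⟨k, by omega⟩ hkb := hii _ _
      have e2 : ll ⟨k, by omega⟩ hkb < a + 1 := hll _ _
      intro hz
      have hz2 : ((ll ⟨k, by omega⟩ hkb : ℕ) : K) = ((p + ii ⟨k, by omega⟩ hkb : ℕ) : K) := by
        push_cast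
        linear_combination hz
      have hz3 := Nat.cast_injective hz2
      omega
    · rw [Finset.prod_ne_zero_iff]
      intro l hl
      have hla : l < a := Finset.mem_range.1 hl
      rw [hTu, hcs]
      intro hz
      have hz2 : ((p : ℕ) : K) = ((l : ℕ) : K) := by
        linear_combination hz
      have hz3 := Nat.cast_injective hz2
      omega
  rcases smul_eq_zero.1 h4 with h5 | h5
  · exact hs h5
  · exact one_ne_zero h5

end Pool.Agent.W_868bb7_h94
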