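import Mathlib
import Pool.Agent.W_MP_868bb7_ag.IdemLift

set_option autoImplicit false

/-!
# NilB: two facts on polynomials
-/

namespace Pool.Agent.W_868bb7_h94

open Polynomial Pool.Agent.W_MP_868bb7_ag

variable {K : Type*} [Field K]

/-- `μ = X - C 2` gives `P ≠ 0` with `aeval π P = 0` (`P ≠ 0` because `μ` does not divide it).  Let `m` be the
minimal polynomial of `π` (`minpoly K π`; `π` is integral; `R` need not be commutative), `m ≠ 0`.  Write
`m = X ^ i * (X - 1) ^ j * μ` with `μ(0) ≠ 0`, `μ(1) ≠ 0` (`Polynomial.exists_eq_pow_rootMultiplicity_mul_and_not_dvd`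
twice).  If `μ` is not a unit, `H` gives `P` with `aeval π P = 0`, so `m ∣ P` (`minpoly.dvd`), `μ ∣ P`, a
contradiction.  So `μ` is a unit, `aeval π (X ^ i * (X - 1) ^ j) = 0`, and `(π * (π - 1)) ^ (i + j) = 0`. -/
theorem nil_of_poly [CharZero K] {R : Type*} [Ring R] [Algebra K R] (π : R)
    (H : ∀ μ : K[X], μ.eval 0 ≠ 0 → μ.eval 1 ≠ 0 → ¬ IsUnit μ →
      ∃ P : K[X], aeval π P = 0 ∧ ¬ μ ∣ P) : IsNilpotent (π * π - π) := by
  have h2 : (X - C (2 : K)).eval 0 ≠ 0 := by
    simp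
  have h3 : (X - C (2 : K)).eval 1 ≠ 0 := by
    simp only [eval_sub, eval_X, eval_C]
    norm_num
  have h4 : ¬ IsUnit (X - C (2 : K)) := not_isUnit_X_sub_C 2
  obtain ⟨P0, hP0, hP0d⟩ := H _ h2 h3 h4
  have hP0ne : P0 ≠ 0 := by
    rintro rfl
    exact hP0d (dvd_zero _)
  have hint : IsIntegral K π := isAlgebraic_iff_isIntegral.1 ⟨P0, hP0ne, hP0⟩
  have hm0 : minpoly K π ≠ 0 := minpoly.ne_zero hint
  obtain ⟨q1, hq1, hq1d⟩ := exists_eq_pow_rootMultiplicity_mul_and_not_dvd (minpoly K π) hm0 0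
  set i := (minpoly K π).rootMultiplicity 0 with hi
  have hq1ne : q1 ≠ 0 := by
    rintro rfl
    exact hq1d (dvd_zero _)
  obtain ⟨q2, hq2, hq2d⟩ := exists_eq_pow_rootMultiplicity_mul_and_not_dvd q1 hq1ne 1
  set j := q1.rootMultiplicity 1 with hj
  have hev0 : q2.eval 0 ≠ 0 := by
    intro h
    apply hq1d
    rw [dvd_iff_isRoot, IsRoot.def, hq2, eval_mul, h, mul_zero]
  have hev1 : q2.eval 1 ≠ 0 := by
    intro h
    apply hq2d
    rw [dvd_iff_isRoot, IsRoot.def, h]
  have hunit : IsUnit q2 := by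
    by_contra hu
    obtain ⟨P, hP, hPd⟩ := H q2 hev0 hev1 hu
    apply hPd
    have hd : minpoly K π ∣ P := minpoly.dvd K π hP
    refine dvd_trans ?_ hd
    rw [hq1, hq2]
    exact ⟨(X - C 0) ^ i * (X - C 1) ^ j, by ring⟩
  obtain ⟨v, hv⟩ := hunit.exists_right_inv
  have hz : aeval π ((X - C (0 : K)) ^ i * (X - C 1) ^ j) = 0 := by
    have e : (X - C (0 : K)) ^ i * (X - C 1) ^ j = minpoly K π * v := by
      rw [hq1, hq2]
      calc (X - C (0 : K)) ^ i * (X - C 1) ^ j = (X - C (0 : K)) ^ i * (X - C 1) ^ j * (q2 * v) := by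
            rw [hv, mul_one]
        _ = _ := by ring
    rw [e, map_mul, minpoly.aeval, zero_mul]
  refine ⟨i + j, ?_⟩
  have e2 : (π * π - π) ^ (i + j) = aeval π ((X * X - X : K[X]) ^ (i + j)) := by
    simp
  rw [e2]
  have e3 : (X * X - X : K[X]) ^ (i + j) = ((X - C (0 : K)) ^ i * (X - C 1) ^ j) *
      (X ^ j * (X - 1) ^ i) := by
    simp only [C_0, C_1, sub_zero]
    have e4 : (X * X - X : K[X]) = X * (X - 1) := by ring
    rw [e4, mul_pow, pow_add, pow_add]
    ring
  rw [e3, map_mul, hz, zero_mul]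

/-- `idem_poly` (library, module `IdemLift`), mapped to `K[X]`: `g = X + (X * X - X) * q` -/
theorem idem_of_nil {R : Type*} [Ring R] [Algebra K R] (π : R) (h : IsNilpotent (π * π - π)) :
    ∃ g : K[X], g.eval 0 = 0 ∧ g.eval 1 = 1 ∧ aeval π g * aeval π g = aeval π g := by
  obtain ⟨k, hk⟩ := h
  obtain ⟨e, q, r, h1, h2⟩ := idem_poly k
  have h1' : e.map (Int.castRingHom K) = X + (X * X - X) * q.map (Int.castRingHom K) := by
    have := congrArg (Polynomial.map (Int.castRingHom K)) h1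
    simpa using this
  have h2' : e.map (Int.castRingHom K) * e.map (Int.castRingHom K) - e.map (Int.castRingHom K) =
      (X * X - X) ^ (k + 1) * r.map (Int.castRingHom K) := by
    have := congrArg (Polynomial.map (Int.castRingHom K)) h2
    simpa using this
  refine ⟨e.map (Int.castRingHom K), ?_, ?_, ?_⟩
  · rw [h1']
    simp
  · rw [h1']
    simp
  · have h3 := congrArg (aeval π) h2'
    have e2 : aeval π ((X * X - X : K[X]) ^ (k + 1)) = 0 := by
      have e3 : aeval π ((X * X - X : K[X]) ^ (k + 1)) = (π * π - π) ^ (k + 1) := by simp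
      rw [e3, pow_succ, hk, zero_mul]
    rw [map_sub, map_mul, map_mul, e2, zero_mul] at h3
    exact sub_eq_zero.1 h3

end Pool.Agent.W_868bb7_h94
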