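import Pool.Agent.W_868bb7_h94.PsiA
import Pool.Agent.W_868bb7_h94.LamA

set_option autoImplicit false

/-!
# Tl: closing all strands but the last one
-/

namespace Pool.Agent.W_868bb7_h94

open CategoryTheory MonoidalCategory Equiv Pool.Agent.W_MP_868bb7_ag

universe v u w

variable (K : Type w) [Field K] {C : Type u} [Category.{v} C] [MonoidalCategory C]
  [Preadditive C] [Linear K C] [MonoidalPreadditive C] [MonoidalLinear K C]
  [SymmetricCategory C] [RightRigidCategory C] [UnitK K C]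

omit [Field K] [Linear K C] [MonoidalLinear K C] [UnitK K C] in
theorem tl_add (X : C) (n : ℕ) (F F' : pow X n ⟶ pow X n) :
    tl X n (F + F') = tl X n F + tl X n F' := by
  induction n with
  | zero => exact (add_zero (0 : X ⟶ X)).symm
  | succ n ih =>
    cases n with
    | zero =>
      have e : ∀ F F' : X ⊗ 𝟙_ C ⟶ X ⊗ 𝟙_ C, (ρ_ X).inv ≫ (F + F') ≫ (ρ_ X).hom =
          (ρ_ X).inv ≫ F ≫ (ρ_ X).hom + (ρ_ X).inv ≫ F' ≫ (ρ_ X).hom := by
        intro F F'
        rw [Preadditive.add_comp, Preadditive.comp_add]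
      exact e F F'
    | succ n =>
      have e := ptl_add X (A := pow X (n + 1)) (B := pow X (n + 1)) F F'
      exact (congrArg (tl X (n + 1)) e).trans (ih _ _)

omit [UnitK K C] in
theorem tl_smul (X : C) (n : ℕ) (c : K) (F : pow X n ⟶ pow X n) :
    tl X n (c • F) = c • tl X n F := by
  induction n with
  | zero => exact (smul_zero (A := (X ⟶ X)) c).symm
  | succ n ih =>
    cases n with
    | zero =>
      have e : ∀ F : X ⊗ 𝟙_ C ⟶ X ⊗ 𝟙_ C, (ρ_ X).inv ≫ (c • F) ≫ (ρ_ X).hom =
          c • ((ρ_ X).inv ≫ F ≫ (ρ_ X).hom) := by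
        intro F
        rw [Linear.smul_comp, Linear.comp_smul]
      exact e F
    | succ n =>
      have e := ptl_smul K X (A := pow X (n + 1)) (B := pow X (n + 1)) c F
      exact (congrArg (tl X (n + 1)) e).trans (ih _)

omit [Field K] [Linear K C] [MonoidalLinear K C] [UnitK K C] in
theorem tl_zero (X : C) (n : ℕ) : tl X n (0 : pow X n ⟶ pow X n) = 0 := by
  have h := tl_add X n (0 : pow X n ⟶ pow X n) 0
  rw [add_zero] at h
  exact left_eq_add.mp h

omit [Field K] [Linear K C] [MonoidalLinear K C] [UnitK K C] in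
theorem tl_sum {ι : Type*} (s : Finset ι) (X : C) (n : ℕ) (F : ι → (pow X n ⟶ pow X n)) :
    tl X n (∑ i ∈ s, F i) = ∑ i ∈ s, tl X n (F i) := by
  classical
  induction s using Finset.induction_on with
  | empty => rw [Finset.sum_empty, Finset.sum_empty, tl_zero]
  | insert a s ha ih => rw [Finset.sum_insert ha, Finset.sum_insert ha, tl_add, ih]

/-- Induction on `n`: `n = 0`: both sides are `0`; `n = 1`: `G 1` has one element, `act X 1 1 = 𝟙`,
`(ρ_ X).inv ≫ (f ⊗ₘ 𝟙) ≫ (ρ_ X).hom = f`; `n + 2`: `tl` of `ptl_Psi`, linearity (`tl_add`, `tl_smul`, a sum), and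
the induction hypothesis; the letters: `ρ (h 0) ≫ ρ (h i.succ) = ρ (h i.succ) * ρ (h 0)` in `End X`
(`End.mul_def`), `= ρ (h 0 * h i.succ)` (commutative), `Function.update` commutes with `ρ` (`Function.comp_update`). -/
theorem tl_Psi {A : Type*} [CommRing A] [Algebra K A] (X : C) (ρ : A →ₐ[K] End X)
    (T : A →ₗ[K] K) (hT : ∀ a : A, tr K (ρ a : X ⟶ X) = T a) (n : ℕ) (x : G n → K)
    (h : Fin n → A) :
    tl X n (Psi K X n x (fun i => (ρ (h i) : X ⟶ X))) = (ρ (Lam T n x h) : X ⟶ X) := by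
  induction n with
  | zero => exact (map_zero ρ).symm
  | succ n ih =>
    cases n with
    | zero =>
      have h1 : (Psi K X 1 x (fun i => (ρ (h i) : X ⟶ X)) : X ⊗ 𝟙_ C ⟶ X ⊗ 𝟙_ C) =
          x 1 • ((ρ (h 0) : X ⟶ X) ▷ 𝟙_ C) := by
        have h2 : Phi K X 1 x = x 1 • 𝟙 (pow X 1) := by
          unfold Phi
          rw [Fintype.sum_unique]
          have h3 : (default : G 1) = 1 := Subsingleton.elim _ _
          rw [h3, act_one]
        unfold Psi
        rw [h2, Linear.smul_comp, Category.id_comp]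
        change x 1 • ((ρ (h 0) : X ⟶ X) ⊗ₘ 𝟙 (𝟙_ C)) = x 1 • ((ρ (h 0) : X ⟶ X) ▷ 𝟙_ C)
        rw [tensorHom_id]
      have h4 : Lam T 1 x h = x 1 • h 0 := by
        change x 1 • h 0 + (T (h 0) • (0 : A) + ∑ i : Fin 0, _) = x 1 • h 0
        rw [smul_zero, Finset.univ_eq_empty, Finset.sum_empty, add_zero, add_zero]
      rw [h4, map_smul]
      have e : ∀ F : X ⊗ 𝟙_ C ⟶ X ⊗ 𝟙_ C, F = x 1 • ((ρ (h 0) : X ⟶ X) ▷ 𝟙_ C) →
          (ρ_ X).inv ≫ F ≫ (ρ_ X).hom = x 1 • (ρ (h 0) : X ⟶ X) := by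
        intro F hF
        rw [hF, Linear.smul_comp, Linear.comp_smul, rightUnitor_naturality,
          Iso.inv_hom_id_assoc]
      exact e _ h1
    | succ n =>
      change tl X (n + 1) (ptl X (Psi K X (n + 2) x (fun i => (ρ (h i) : X ⟶ X)) :
        X ⊗ pow X (n + 1) ⟶ X ⊗ pow X (n + 1))) = _
      rw [ptl_Psi, tl_add, tl_smul K, tl_sum, ih, hT]
      have h5 : ∀ i : Fin (n + 1), (Function.update (fun j : Fin (n + 1) => (ρ (h j.succ) : X ⟶ X)) i
          ((ρ (h 0) : X ⟶ X) ≫ (ρ (h i.succ) : X ⟶ X))) =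
          fun j => (ρ ((Function.update (fun j : Fin (n + 1) => h j.succ) i (h 0 * h i.succ)) j) :
            X ⟶ X) := by
        intro i
        funext j
        by_cases hj : j = i
        · subst hj
          rw [Function.update_self, Function.update_self, mul_comm (h 0), map_mul]
          rfl
        · rw [Function.update_of_ne hj, Function.update_of_ne hj]
      have h6 : ∀ i : Fin (n + 1), tl X (n + 1) (Psi K X (n + 1)
          (fun τ => x (swap 0 i.succ * shift τ))
          (Function.update (fun j : Fin (n + 1) => (ρ (h j.succ) : X ⟶ X)) i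
            ((ρ (h 0) : X ⟶ X) ≫ (ρ (h i.succ) : X ⟶ X)))) =
          (ρ (Lam T (n + 1) (fun τ => x (swap 0 i.succ * shift τ))
            (Function.update (fun j : Fin (n + 1) => h j.succ) i (h 0 * h i.succ))) : X ⟶ X) := by
        intro i
        rw [h5 i]
        exact ih _ _
      rw [Finset.sum_congr rfl fun i _ => h6 i]
      have h7 : Lam T (n + 2) x h = T (h 0) • Lam T (n + 1) (fun τ => x (shift τ))
          (fun i => h i.succ) + ∑ i : Fin (n + 1), Lam T (n + 1)
            (fun τ => x (swap 0 i.succ * shift τ))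
            (Function.update (fun j : Fin (n + 1) => h j.succ) i (h 0 * h i.succ)) := by
        change (if n + 1 = 0 then x 1 • h 0 else 0) + _ = _
        rw [if_neg (Nat.succ_ne_zero n), zero_add]
      rw [h7, map_add, map_smul, map_sum]

theorem Lam_of_Phi {A : Type*} [CommRing A] [Algebra K A] (X : C) (ρ : A →ₐ[K] End X)
    (T : A →ₗ[K] K) (hT : ∀ a : A, tr K (ρ a : X ⟶ X) = T a) (n : ℕ) (x : G n → K)
    (h : Fin n → A) (hx : Phi K X n x = 0) : (ρ (Lam T n x h) : X ⟶ X) = 0 := by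
  rw [← tl_Psi K X ρ T hT n x h]
  unfold Psi
  rw [hx, Limits.zero_comp, tl_zero]

end Pool.Agent.W_868bb7_h94
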