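import Pool.Agent.W_868bb7_h94.NilA
import Pool.Agent.W_868bb7_h94.NilB
import Pool.Agent.W_868bb7_h94.Tl

set_option autoImplicit false

/-!
# NilC: the idempotent
-/

namespace Pool.Agent.W_868bb7_h94

open CategoryTheory MonoidalCategory Equiv Polynomial Pool.Agent.W_MP_868bb7_ag

universe v u w

variable (K : Type w) [Field K] {C : Type u} [Category.{v} C] [MonoidalCategory C]
  [Preadditive C] [Linear K C] [MonoidalPreadditive C] [MonoidalLinear K C]
  [SymmetricCategory C] [RightRigidCategory C] [UnitK K C]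

omit [MonoidalCategory C] [MonoidalPreadditive C] [MonoidalLinear K C]
  [SymmetricCategory C] [RightRigidCategory C] [UnitK K C] in
theorem NilC_ev_pow {M : C} (π : M ⟶ M) (k : ℕ) :
    (ev K π (X ^ k) : M ⟶ M) = it π k := by
  induction k with
  | zero =>
    have h1 : (ev K π (X ^ 0) : End M) = 1 := by
      simp [ev]
    rw [h1]
    rfl
  | succ k ih =>
    have h1 : (ev K π (X ^ (k + 1)) : End M) = ev K π (X ^ k) * ev K π X := by
      rw [pow_succ, map_mul]
    have h2 : (ev K π X : End M) = π := by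
      simp [ev]
    rw [h1, End.mul_def, h2]
    erw [ih]
    rfl

/-- the traces of the polynomials in `π`: both sides are linear in `g`; `g = X ^ k`: `ev K π (X ^ k) = it π k`
(`End.mul_def`; powers commute), `k = 0`: `p - q`, `k ≥ 1`: `p` -/
theorem tr_ev {M : C} (π : M ⟶ M) (p q : ℕ) (htr : ∀ k : ℕ, 1 ≤ k → tr K (it π k) = p)
    (hdim : tr K (𝟙 M) = (p : K) - q) (g : K[X]) :
    tr K (ev K π g : M ⟶ M) = TA p q g := by
  induction g using Polynomial.induction_on' with
  | add f g hf hg =>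
    have h1 : (ev K π (f + g) : M ⟶ M) = (ev K π f : M ⟶ M) + (ev K π g : M ⟶ M) :=
      map_add (ev K π) f g
    rw [h1, tr_add, hf, hg, map_add]
  | monomial n a =>
    have h1 : (ev K π (monomial n a) : M ⟶ M) = a • (ev K π (X ^ n) : M ⟶ M) := by
      rw [← C_mul_X_pow_eq_monomial, ← smul_eq_C_mul]
      exact map_smul (ev K π) a (X ^ n)
    rw [h1, tr_smul, NilC_ev_pow]
    rcases Nat.eq_zero_or_pos n with rfl | hn
    · have h2 : it π 0 = 𝟙 M := rfl
      rw [h2, hdim]
      simp [TA]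
      ring
    · rw [htr n hn]
      have hn0 : n ≠ 0 := by omega
      simp [TA, hn0]
      ring

/-- `nil_of_poly` for the ring `End M` (`P = Lam (TA p q) _ x h` from `Lam_not_dvd`; `aeval π P = 0` by
`Lam_of_Phi` with `ρ = ev K π` and `tr_ev`), `idem_of_nil`: `e = ev K π g`, `tr e = p g(1) - q g(0) = p`,
`tr (𝟙 - e) = (p - q) - p = -q` -/
theorem exists_idem [CharZero K] (M : C) (π : M ⟶ M) (p q : ℕ)
    (htr : ∀ k : ℕ, 1 ≤ k → tr K (it π k) = p) (hdim : tr K (𝟙 M) = (p : K) - q)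
    (a b : ℕ) (x : G (a + 1 + b) → K) (hS : Sorted true ((q : K) - p) (a + 1) b x) (hap : a ≤ p)
    (hx : Phi K M (a + 1 + b) x = 0) :
    ∃ e : M ⟶ M, e ≫ e = e ∧ tr K e = p ∧ tr K (𝟙 M - e) = -(q : K) := by
  have hnil := nil_of_poly (K := K) (R := End M) π (by
    intro μ h0 h1 hu
    obtain ⟨h, hh⟩ := Lam_not_dvd p q a b x hS hap μ h0 h1 hu
    refine ⟨_, ?_, hh⟩
    exact Lam_of_Phi K M (ev K π) (TA p q) (fun g => tr_ev K π p q htr hdim g) _ x h hx)
  obtain ⟨g, hg0, hg1, hgg⟩ := idem_of_nil (K := K) (R := End M) π hnil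
  have htre : tr K (ev K π g : M ⟶ M) = (p : K) := by
    rw [tr_ev K π p q htr hdim g]
    simp [TA, hg0, hg1]
  refine ⟨(ev K π g : M ⟶ M), ?_, htre, ?_⟩
  · exact hgg
  · rw [tr_sub, htre, hdim]
    ring

end Pool.Agent.W_868bb7_h94
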