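import Pool.Agent.W_MP_868bb7_ag.KimRetract
import Pool.Agent.W_MP_868bb7_ag.KimTensor

set_option autoImplicit false

/-!
# ObjK: objects of type `(p | q)`
-/

namespace Pool.Agent.W_868bb7_h94

open CategoryTheory MonoidalCategory Limits Pool.Agent.W_MP_868bb7_ag

universe v u w

section Def

variable (K : Type w) [Field K] {C : Type u} [Category.{v} C] [MonoidalCategory C]
  [Preadditive C] [Linear K C] [SymmetricCategory C] [RightRigidCategory C]
  [HasBinaryBiproducts C]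

/-- `M` is Kimura finite-dimensional of type `(p | q)`: `M ≅ P ⊞ Q`, `Λ^(p+1) P = 0`,
`Sym^(q+1) Q = 0`, the trace of the identity of `P` is `p` and that of `Q` is `-q` -/
def KimuraType (M : C) (p q : ℕ) : Prop :=
  ∃ P Q : C, altPart K P (p + 1) = 0 ∧ symPart K Q (q + 1) = 0 ∧
    trU (𝟙 P) = (p : K) • 𝟙 (𝟙_ C) ∧ trU (𝟙 Q) = (-(q : K)) • 𝟙 (𝟙_ C) ∧ Nonempty (M ≅ P ⊞ Q)

end Def

variable (K : Type w) [Field K] [CharZero K] {C : Type u} [Category.{v} C] [MonoidalCategory C]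
  [Preadditive C] [Linear K C] [MonoidalPreadditive C] [MonoidalLinear K C]
  [SymmetricCategory C] [RightRigidCategory C] [UnitK K C]

theorem objK_comp (b : Bool) {X Y : C} (a : Y ⟶ X) (f : X ⟶ X) (c : X ⟶ Y) (n : ℕ)
    (h : powMap f n ≫ E b X n = 0) : powMap (a ≫ f ≫ c) n ≫ E b Y n = 0 := by
  rw [powMap_comp, powMap_comp, Category.assoc, Category.assoc, powMap_E,
    ← Category.assoc (powMap f n), h, Limits.zero_comp, Limits.comp_zero]

theorem objK_alt (P : C) (n : ℕ) : altPart K P n = 0 ↔ powMap (𝟙 P) n ≫ E true P n = 0 := by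
  rw [powMap_id, Category.id_comp, of_E_true, smul_eq_zero_iff_right (of_fact_ne K n)]

theorem objK_sym (P : C) (n : ℕ) : symPart K P n = 0 ↔ powMap (𝟙 P) n ≫ E false P n = 0 := by
  rw [powMap_id, Category.id_comp, of_E_false, smul_eq_zero_iff_right (of_fact_ne K n)]

theorem type_of_idem [HasBinaryBiproducts C] [IsIdempotentComplete C] {X : C} (u : X ⟶ X)
    (h : u ≫ u = u) (p q : ℕ) (h1 : powMap u (p + 1) ≫ E true X (p + 1) = 0)
    (h2 : powMap (𝟙 X - u) (q + 1) ≫ E false X (q + 1) = 0) (t1 : tr K u = p)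
    (t2 : tr K (𝟙 X - u) = -(q : K)) : KimuraType K X p q := by
  have h' : (𝟙 X - u) ≫ (𝟙 X - u) = 𝟙 X - u := by
    simp [Preadditive.sub_comp, Preadditive.comp_sub, h]
  obtain ⟨P, i, e, hie, hei⟩ := IsIdempotentComplete.idempotents_split X u h
  obtain ⟨Q, j, f, hjf, hfj⟩ := IsIdempotentComplete.idempotents_split X (𝟙 X - u) h'
  have hP : 𝟙 P = i ≫ u ≫ e := by
    rw [← hei, Category.assoc, hie, Category.comp_id, hie]
  have hQ : 𝟙 Q = j ≫ (𝟙 X - u) ≫ f := by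
    rw [← hfj, Category.assoc, hjf, Category.comp_id, hjf]
  have h12 : u ≫ (𝟙 X - u) = 0 := by
    rw [Preadditive.comp_sub, Category.comp_id, h, sub_self]
  have h21 : (𝟙 X - u) ≫ u = 0 := by
    rw [Preadditive.sub_comp, Category.id_comp, h, sub_self]
  have hiu : i ≫ u = i := by
    rw [← hei, ← Category.assoc, hie, Category.id_comp]
  have hjv : j ≫ (𝟙 X - u) = j := by
    rw [← hfj, ← Category.assoc, hjf, Category.id_comp]
  have hvf : (𝟙 X - u) ≫ f = f := by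
    rw [← hfj, Category.assoc, hjf, Category.comp_id]
  have hue : u ≫ e = e := by
    rw [← hei, Category.assoc, hie, Category.comp_id]
  have hif : i ≫ f = 0 := by
    rw [← hiu, ← hvf, Category.assoc, ← Category.assoc u, h12, zero_comp, comp_zero]
  have hje : j ≫ e = 0 := by
    rw [← hjv, ← hue, Category.assoc, ← Category.assoc (𝟙 X - u), h21, zero_comp, comp_zero]
  refine ⟨P, Q, ?_, ?_, ?_, ?_, ⟨⟨biprod.lift e f, biprod.desc i j, ?_, ?_⟩⟩⟩
  · rw [objK_alt, hP]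
    exact objK_comp true i u e _ h1
  · rw [objK_sym, hQ]
    exact objK_comp false j (𝟙 X - u) f _ h2
  · rw [tr_spec K, ← hie, tr_comp_comm K, hei, t1]
  · rw [tr_spec K, ← hjf, tr_comp_comm K, hfj, t2]
  · rw [biprod.lift_desc, hei, hfj, add_sub_cancel]
  · ext
    · simp [hie]
    · simp [hif]
    · simp [hje]
    · simp [hjf]

theorem idem_of_type [HasBinaryBiproducts C] {X : C} (p q : ℕ) (h : KimuraType K X p q) :
    ∃ e : X ⟶ X, e ≫ e = e ∧ powMap e (p + 1) ≫ E true X (p + 1) = 0 ∧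
      powMap (𝟙 X - e) (q + 1) ≫ E false X (q + 1) = 0 ∧ tr K e = p ∧
      tr K (𝟙 X - e) = -(q : K) := by
  obtain ⟨P, Q, hP, hQ, tP, tQ, ⟨φ⟩⟩ := h
  rw [objK_alt] at hP
  rw [objK_sym] at hQ
  have h0 : 𝟙 X - (φ.hom ≫ biprod.fst) ≫ 𝟙 P ≫ (biprod.inl ≫ φ.inv) =
      (φ.hom ≫ biprod.snd) ≫ 𝟙 Q ≫ (biprod.inr ≫ φ.inv) := by
    have h1 : 𝟙 X = φ.hom ≫ (biprod.fst ≫ biprod.inl + biprod.snd ≫ biprod.inr) ≫ φ.inv := by
      rw [biprod.total, Category.id_comp, φ.hom_inv_id]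
    rw [h1, Preadditive.add_comp, Preadditive.comp_add]
    simp only [Category.assoc, Category.id_comp]
    abel
  refine ⟨(φ.hom ≫ biprod.fst) ≫ 𝟙 P ≫ (biprod.inl ≫ φ.inv), ?_,
    objK_comp true _ (𝟙 P) _ _ hP, ?_, ?_, ?_⟩
  · simp only [Category.assoc, Category.id_comp, Iso.inv_hom_id_assoc, biprod.inl_fst_assoc]
  · rw [h0]
    exact objK_comp false _ (𝟙 Q) _ _ hQ
  · rw [tr_comp_comm K]
    have e1 : (𝟙 P ≫ biprod.inl ≫ φ.inv) ≫ φ.hom ≫ biprod.fst = 𝟙 P := by simp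
    rw [e1]
    exact tr_unique K _ _ tP
  · rw [h0, tr_comp_comm K]
    have e1 : (𝟙 Q ≫ biprod.inr ≫ φ.inv) ≫ φ.hom ≫ biprod.snd = 𝟙 Q := by simp
    rw [e1]
    exact tr_unique K _ _ tQ

theorem objK_braid : (β_ (𝟙_ C) (𝟙_ C)).hom = 𝟙 _ := by
  rw [braiding_tensorUnit_right, ← unitors_equal, Iso.hom_inv_id]

include K in
theorem objK_unit : Fd true (𝟙 (𝟙_ C)) := by
  refine ⟨2, by norm_num, ?_⟩
  rw [powMap_id, Category.id_comp]
  have h1 : act (𝟙_ C) 2 (Equiv.swap 0 1) = 𝟙 _ := by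
    have h2 := act_swap (𝟙_ C) 0
    refine h2.trans ?_
    unfold sw
    rw [objK_braid, id_whiskerRight, Category.id_comp, Iso.inv_hom_id]
    rfl
  have h3 := act_E true (𝟙_ C) 2 (Equiv.swap 0 1)
  rw [h1, Category.id_comp, chi_swap true (0 : Fin 2) 1 (by decide)] at h3
  have h4 : (2 : K) • E true (𝟙_ C) 2 = 0 := by
    have h5 : E true (𝟙_ C) 2 = -E true (𝟙_ C) 2 := by
      refine h3.trans ?_
      change (-1 : ℤ) • _ = _
      rw [neg_smul, one_smul]
    rw [two_smul]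
    nth_rewrite 2 [h5]
    exact add_neg_cancel _
  exact (smul_eq_zero_iff_right (two_ne_zero : (2 : K) ≠ 0)).1 h4

include K in
theorem objK_Fd_pow (b : Bool) {X : C} (e : X ⟶ X) (h : Fd b e) (n : ℕ) :
    ∃ c : Bool, Fd c (powMap e n) := by
  induction n with
  | zero => exact ⟨true, objK_unit K⟩
  | succ n ih =>
    obtain ⟨c, hc⟩ := ih
    exact ⟨b == c, Fd_tensor K b c e (powMap e n) h hc⟩

theorem objK_dim (b : Bool) {X : C} (e : X ⟶ X) (he : e ≫ e = e) (h : Fd b e) :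
    ∃ i : ℕ, tr K e = -(cs b : K) * i ∧ powMap e (i + 1) ≫ E b X (i + 1) = 0 := by
  obtain ⟨i, hi⟩ := dim_int K b e he h
  refine ⟨i, hi, ?_⟩
  obtain ⟨c, hc⟩ := objK_Fd_pow K b e h (i + 1)
  have hf := of_fact_ne K (i + 1)
  have h2 : (((i + 1).factorial : K)⁻¹ • (powMap e (i + 1) ≫ E b X (i + 1))) ≫
      (((i + 1).factorial : K)⁻¹ • (powMap e (i + 1) ≫ E b X (i + 1))) =
      ((i + 1).factorial : K)⁻¹ • (powMap e (i + 1) ≫ E b X (i + 1)) := by
    have h3 : (powMap e (i + 1) ≫ E b X (i + 1)) ≫ (powMap e (i + 1) ≫ E b X (i + 1)) =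
        ((i + 1).factorial : K) • (powMap e (i + 1) ≫ E b X (i + 1)) := by
      rw [Category.assoc, ← Category.assoc (E b X (i + 1)), ← powMap_E, Category.assoc, E_E,
        Preadditive.comp_zsmul, Preadditive.comp_zsmul, ← Category.assoc, ← powMap_comp, he]
      rw [zsmul_eq_smul_cast K]
      norm_num
    rw [Linear.smul_comp, Linear.comp_smul, h3, smul_smul, smul_smul]
    congr 1
    have h9 : ((i + 1).factorial : K) ≠ 0 := Nat.cast_ne_zero.2 (Nat.factorial_ne_zero (i + 1))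
    field_simp
  have h4 : Fd c (((i + 1).factorial : K)⁻¹ • (powMap e (i + 1) ≫ E b X (i + 1))) := by
    have h5 := Fd_conj c (𝟙 _) (powMap e (i + 1)) (((i + 1).factorial : K)⁻¹ • E b X (i + 1)) hc
    rw [Category.id_comp, Linear.comp_smul] at h5
    exact h5
  have h6 : tr K (((i + 1).factorial : K)⁻¹ • (powMap e (i + 1) ≫ E b X (i + 1))) = 0 := by
    rw [tr_smul]
    have h7 := dim_prod K b e he (i + 1)
    rw [Tn] at h7
    rw [h7, Finset.prod_range_succ, hi]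
    ring
  have h8 := idem_zero K c _ h2 h4 h6
  exact (smul_eq_zero_iff_right hf).1 h8

theorem type_of_kimura [HasBinaryBiproducts C] [IsIdempotentComplete C] {X : C}
    (h : KimuraFD K X) : ∃ p q : ℕ, KimuraType K X p q := by
  obtain ⟨e, he, h1, h2⟩ := idem_of_kimura K h
  have he' : (𝟙 X - e) ≫ (𝟙 X - e) = 𝟙 X - e := by
    simp [Preadditive.sub_comp, Preadditive.comp_sub, he]
  obtain ⟨p, hp, hp'⟩ := objK_dim K true e he h1
  obtain ⟨q, hq, hq'⟩ := objK_dim K false (𝟙 X - e) he' h2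
  refine ⟨p, q, type_of_idem K e he p q hp' hq' ?_ ?_⟩
  · rw [hp]
    simp [cs]
  · rw [hq]
    simp [cs]

theorem kimura_of_type [HasBinaryBiproducts C] {X : C} (p q : ℕ) (h : KimuraType K X p q) :
    KimuraFD K X := by
  obtain ⟨P, Q, hP, hQ, -, -, hφ⟩ := h
  exact ⟨P, Q, ⟨p + 1, by omega, hP⟩, ⟨q + 1, by omega, hQ⟩, hφ⟩

end Pool.Agent.W_868bb7_h94
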