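import Pool.Agent.W_868bb7_h94.Defs

set_option autoImplicit false

/-!
# PermA: shifts and transpositions

`shift_zero`, `shift_succ` (library, module `PermTail`) compute `shift e`.
-/

namespace Pool.Agent.W_868bb7_h94

open Equiv Pool.Agent.W_MP_868bb7_ag

theorem shift_mul {n : ℕ} (σ τ : G n) : shift (σ * τ) = shift σ * shift τ := by
  apply Equiv.ext
  intro i
  refine Fin.cases ?_ (fun i => ?_) i
  · rw [Equiv.Perm.mul_apply, shift_zero, shift_zero, shift_zero]
  · rw [Equiv.Perm.mul_apply, shift_succ, shift_succ, shift_succ, Equiv.Perm.mul_apply]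

theorem shift_swap {n : ℕ} (j k : Fin n) : shift (swap j k) = swap j.succ k.succ := by
  apply Equiv.ext
  intro i
  refine Fin.cases ?_ (fun i => ?_) i
  · rw [shift_zero, Equiv.swap_apply_of_ne_of_ne (Fin.succ_ne_zero j).symm
      (Fin.succ_ne_zero k).symm]
  · rw [shift_succ]
    exact ((Fin.succ_injective n).swap_apply j k i).symm

theorem shift_id (n : ℕ) : shift (1 : G n) = 1 := by
  apply Equiv.ext
  intro i
  refine Fin.cases ?_ (fun i => ?_) i
  · rw [shift_zero]
    rfl
  · rw [shift_succ]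
    rfl

theorem PermA_symm {n : ℕ} (q : Fin (n + 1) × G n) :
    swap 0 q.1 * shift q.2 = Equiv.Perm.decomposeFin.symm q := by
  apply Equiv.ext
  intro i
  obtain ⟨p, e⟩ := q
  refine Fin.cases ?_ (fun i => ?_) i
  · rw [Equiv.Perm.mul_apply, shift_zero, Equiv.swap_apply_left,
      Equiv.Perm.decomposeFin_symm_apply_zero]
  · rw [Equiv.Perm.mul_apply, shift_succ, Equiv.Perm.decomposeFin_symm_apply_succ]

/-- every permutation `σ` of `Fin (n + 1)` is uniquely `swap 0 p * shift τ`: `p = σ 0`, and
`swap 0 p * σ` fixes `0`, so it is a shift (`shift_decomposeFin`); the image of `0` is `p`, and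
`shift` is injective (`shift_succ`).  (Or: this is `Equiv.Perm.decomposeFin.symm`.) -/
theorem swap_shift_bij (n : ℕ) :
    Function.Bijective (fun q : Fin (n + 1) × G n => swap 0 q.1 * shift q.2) := by
  have h : (fun q : Fin (n + 1) × G n => swap 0 q.1 * shift q.2) =
      Equiv.Perm.decomposeFin.symm := funext PermA_symm
  rw [h]
  exact Equiv.bijective _

/-- sums over `G (n + 1)`: `Finset.sum` over the pairs, by `swap_shift_bij`, `Fin.sum_univ_succ`,
`swap 0 0 = 1` -/
theorem sum_G_succ {M : Type*} [AddCommMonoid M] (n : ℕ) (f : G (n + 1) → M) :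
    ∑ σ : G (n + 1), f σ =
      ∑ τ : G n, f (shift τ) + ∑ i : Fin n, ∑ τ : G n, f (swap 0 i.succ * shift τ) := by
  rw [← (swap_shift_bij n).sum_comp f, Fintype.sum_prod_type, Fin.sum_univ_succ]
  congr 1
  refine Finset.sum_congr rfl fun τ _ => ?_
  show f (swap 0 0 * shift τ) = f (shift τ)
  rw [Equiv.swap_self]
  rfl

end Pool.Agent.W_868bb7_h94
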