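import Pool.Agent.W_868bb7_h94.Ptl
import Pool.Agent.W_868bb7_h94.HwA
import Pool.Agent.W_868bb7_h94.PermA

set_option autoImplicit false

/-!
# PsiA: the partial trace of a relation with letters
-/

namespace Pool.Agent.W_868bb7_h94

open CategoryTheory MonoidalCategory Equiv Pool.Agent.W_MP_868bb7_ag

universe v u w

variable (K : Type w) [Field K] {C : Type u} [Category.{v} C] [MonoidalCategory C]
  [Preadditive C] [Linear K C] [MonoidalPreadditive C] [MonoidalLinear K C]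
  [SymmetricCategory C] [RightRigidCategory C] [UnitK K C]

omit [MonoidalPreadditive C] [MonoidalLinear K C] [RightRigidCategory C] [UnitK K C] in
theorem Psi_add (X : C) (n : ℕ) (x y : G n → K) (h : Fin n → (X ⟶ X)) :
    Psi K X n (x + y) h = Psi K X n x h + Psi K X n y h := by
  simp only [Psi, Phi, Pi.add_apply, add_smul, Finset.sum_add_distrib, Preadditive.add_comp]

omit [MonoidalPreadditive C] [MonoidalLinear K C] [RightRigidCategory C] [UnitK K C] in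
theorem Psi_smul (X : C) (n : ℕ) (c : K) (x : G n → K) (h : Fin n → (X ⟶ X)) :
    Psi K X n (c • x) h = c • Psi K X n x h := by
  simp only [Psi, Phi, Pi.smul_apply, smul_eq_mul, mul_smul, ← Finset.smul_sum, Linear.smul_comp]

omit [MonoidalLinear K C] [RightRigidCategory C] [UnitK K C] in
theorem Psi_zero (X : C) (n : ℕ) (x : G n → K) (h : Fin n → (X ⟶ X)) (i : Fin n)
    (hi : h i = 0) : Psi K X n x h = 0 := by
  rw [Psi, Hw_zero n h i hi, Limits.comp_zero]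

omit [Preadditive C] [Linear K C] [MonoidalPreadditive C] [MonoidalLinear K C]
  [SymmetricCategory C] [RightRigidCategory C] [UnitK K C] [Field K] in
theorem PsiA_wh {X A B D : C} (u : A ⟶ B) (f : X ⟶ X) (v : B ⟶ D) :
    X ◁ u ≫ (f ⊗ₘ v) = f ⊗ₘ (u ≫ v) := by
  rw [← id_tensorHom, tensorHom_comp_tensorHom, Category.id_comp]

omit [Preadditive C] [Linear K C] [MonoidalPreadditive C] [MonoidalLinear K C]
  [SymmetricCategory C] [RightRigidCategory C] [UnitK K C] [Field K] in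
theorem PsiA_wh2 {X A B D : C} (f : X ⟶ X) (v : A ⟶ B) (u : B ⟶ D) :
    (f ⊗ₘ v) ≫ X ◁ u = f ⊗ₘ (v ≫ u) := by
  rw [← id_tensorHom, tensorHom_comp_tensorHom, Category.comp_id]

/-- `act X (m + 1) (shift τ) = X ◁ act X m τ` (`act_shift`), `X ◁ u ≫ (f ⊗ₘ v) = f ⊗ₘ (u ≫ v)`,
`ptl_tensor` -/
theorem ptl_shift_Hw (X : C) (m : ℕ) (τ : G m) (h : Fin (m + 1) → (X ⟶ X)) :
    ptl X (act X (m + 1) (shift τ) ≫ Hw (m + 1) h : X ⊗ pow X m ⟶ X ⊗ pow X m) =
      tr K (h 0) • (act X m τ ≫ Hw m (fun i => h i.succ)) := by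
  have h1 : (act X (m + 1) (shift τ) ≫ Hw (m + 1) h : X ⊗ pow X m ⟶ X ⊗ pow X m) =
      h 0 ⊗ₘ (act X m τ ≫ Hw m (fun i => h i.succ)) := by
    rw [act_shift]
    exact PsiA_wh _ _ _
  rw [h1, ptl_tensor K]

omit [Preadditive C] [Linear K C] [MonoidalPreadditive C] [MonoidalLinear K C] [UnitK K C]
  [Field K] in
theorem PsiA_core {X Z : C} (t a R S : X ⊗ Z ⟶ X ⊗ Z) (f g : X ⟶ X) (r : Z ⟶ Z)
    (hR : a ≫ R = (g ⊗ₘ r) ≫ a) (ha : a ≫ a = 𝟙 _) (hS : a ≫ S = ((f ≫ g) ⊗ₘ r) ≫ a) :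
    ptl X ((X ◁ t ≫ X ◁ a ≫ sw X Z ≫ X ◁ a) ≫ (f ⊗ₘ R)) = t ≫ S := by
  have h1 : X ◁ a ≫ (f ⊗ₘ R) = (f ⊗ₘ (g ⊗ₘ r)) ≫ X ◁ a := by
    rw [PsiA_wh, PsiA_wh2, hR]
  have h2 : (X ◁ t ≫ X ◁ a ≫ sw X Z ≫ X ◁ a) ≫ (f ⊗ₘ R) =
      X ◁ t ≫ X ◁ a ≫ (sw X Z ≫ (f ⊗ₘ (g ⊗ₘ r))) ≫ X ◁ a := by
    simp only [Category.assoc, h1]
  rw [h2, ptl_left, ptl_left, ptl_right, ptl_sw_tensor, ← hS, ← Category.assoc a a S, ha,
    Category.id_comp]

omit [Preadditive C] [Linear K C] [MonoidalPreadditive C] [MonoidalLinear K C] [UnitK K C]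
  [Field K] [SymmetricCategory C] [RightRigidCategory C] in
theorem PsiA_perm {m : ℕ} (i : Fin (m + 1)) :
    (swap 0 i.succ : G (m + 2)) = shift (swap 0 i) * swap 0 1 * shift (swap 0 i) := by
  rw [shift_swap]
  have h1 : (1 : Fin (m + 2)) = (0 : Fin (m + 1)).succ := rfl
  rw [h1]
  by_cases hi : i = 0
  · subst hi
    rw [swap_self]
    change _ = 1 * _ * 1
    rw [one_mul, mul_one]
  · rw [swap_comm (0 : Fin (m + 1)).succ i.succ]
    have h2 : (swap i.succ (0 : Fin (m + 1)).succ : G (m + 2)) =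
        (swap i.succ (0 : Fin (m + 1)).succ)⁻¹ := (swap_inv _ _).symm
    nth_rw 2 [h2]
    rw [← Equiv.swap_apply_apply (swap i.succ (0 : Fin (m + 1)).succ) 0 (0 : Fin (m + 1)).succ]
    rw [swap_apply_right, swap_apply_of_ne_of_ne (Fin.succ_ne_zero i).symm
      (Fin.succ_ne_zero (0 : Fin (m + 1))).symm]

omit [Preadditive C] [Linear K C] [MonoidalPreadditive C] [MonoidalLinear K C] [UnitK K C]
  [Field K] in
/-- `act (swap 0 i.succ * shift τ) = X ◁ act τ ≫ act (swap 0 i.succ)` (`act_mul`, `act_shift`), `ptl_left`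
removes `act τ`.  Write `m = m' + 1`, `ρ = swap 0 i : G m`; `swap 0 i.succ = shift ρ * swap 0 1 * shift ρ`,
so `act (swap 0 i.succ) = X ◁ act ρ ≫ sw ≫ X ◁ act ρ` (`act_swap`, library).  Then
`X ◁ act ρ ≫ (h 0 ⊗ₘ Hw m h') = h 0 ⊗ₘ (act ρ ≫ Hw m h') = (h 0 ⊗ₘ Hw m (h' ∘ ρ)) ≫ X ◁ act ρ` with
`h' i = h i.succ` (`act_Hw`), `ptl_left`, `ptl_right`, and `ptl_sw_tensor` with `f = h 0`,
`g = (h' ∘ ρ) 0 = h' i`: the result is `act ρ ≫ Hw m (update (h' ∘ ρ) 0 (h 0 ≫ h' i)) ≫ act ρ`, and by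
`act_Hw`, `act ρ ≫ act ρ = 𝟙` it is `Hw m (update h' i (h 0 ≫ h' i))`. -/
theorem ptl_swap_Hw (X : C) (m : ℕ) (i : Fin m) (τ : G m) (h : Fin (m + 1) → (X ⟶ X)) :
    ptl X (act X (m + 1) (swap 0 i.succ * shift τ) ≫ Hw (m + 1) h : X ⊗ pow X m ⟶ X ⊗ pow X m) =
      act X m τ ≫ Hw m (Function.update (fun j : Fin m => h j.succ) i (h 0 ≫ h i.succ)) := by
  cases m with
  | zero => exact i.elim0
  | succ m =>
    have e1 : (act X (m + 2) (swap 0 i.succ * shift τ) : X ⊗ (X ⊗ pow X m) ⟶ X ⊗ (X ⊗ pow X m)) =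
        X ◁ act X (m + 1) τ ≫ X ◁ act X (m + 1) (swap 0 i) ≫ sw X (pow X m) ≫
          X ◁ act X (m + 1) (swap 0 i) := by
      rw [PsiA_perm, act_mul, act_mul, act_mul, act_shift, act_shift, act_swap]
      rfl
    have hR := act_Hw X (m + 1) (swap 0 i) (fun j : Fin (m + 1) => h j.succ)
    have ha : act X (m + 1) (swap 0 i) ≫ act X (m + 1) (swap 0 i) = 𝟙 _ := by
      rw [← act_mul, swap_mul_self, act_one]
    have hS := act_Hw X (m + 1) (swap 0 i)
      (Function.update (fun j : Fin (m + 1) => h j.succ) i (h 0 ≫ h i.succ))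
    have e2 : (Hw (m + 1) (fun j => Function.update (fun j : Fin (m + 1) => h j.succ) i
          (h 0 ≫ h i.succ) ((swap 0 i : G (m + 1)) j)) : X ⊗ pow X m ⟶ X ⊗ pow X m) =
        (h 0 ≫ h ((swap 0 i : G (m + 1)) 0).succ) ⊗ₘ
          Hw m (fun j => h ((swap 0 i : G (m + 1)) j.succ).succ) := by
      have e3 : ∀ j : Fin (m + 1), Function.update (fun j : Fin (m + 1) => h j.succ) i
          (h 0 ≫ h i.succ) ((swap 0 i : G (m + 1)) j) =
          if j = 0 then h 0 ≫ h i.succ else h ((swap 0 i : G (m + 1)) j).succ := by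
        intro j
        by_cases hj : j = 0
        · subst hj
          rw [swap_apply_left, Function.update_self, if_pos rfl]
        · have h4 : (swap 0 i : G (m + 1)) j ≠ i := by
            intro h5
            have h6 := congrArg (swap 0 i : G (m + 1)) h5
            rw [swap_apply_right, ← Perm.mul_apply, swap_mul_self, Perm.one_apply] at h6
            exact hj h6
          rw [if_neg hj, Function.update_of_ne h4]
      simp only [e3]
      change (if (0 : Fin (m + 1)) = 0 then h 0 ≫ h i.succ else _) ⊗ₘ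
        Hw m (fun j => if j.succ = (0 : Fin (m + 1)) then h 0 ≫ h i.succ else
          h ((swap 0 i : G (m + 1)) j.succ).succ) = _
      rw [if_pos rfl]
      simp only [Fin.succ_ne_zero, if_false, swap_apply_left]
    rw [e2] at hS
    rw [e1]
    exact PsiA_core _ _ _ _ _ _ _ hR ha hS

/-- `sum_G_succ`, `ptl_sum`, `ptl_smul`, `ptl_shift_Hw`, `ptl_swap_Hw` -/
theorem ptl_Psi (X : C) (n : ℕ) (x : G (n + 1) → K) (h : Fin (n + 1) → (X ⟶ X)) :
    ptl X (Psi K X (n + 1) x h : X ⊗ pow X n ⟶ X ⊗ pow X n) =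
      tr K (h 0) • Psi K X n (fun τ => x (shift τ)) (fun i => h i.succ) +
        ∑ i : Fin n, Psi K X n (fun τ => x (swap 0 i.succ * shift τ))
          (Function.update (fun j : Fin n => h j.succ) i (h 0 ≫ h i.succ)) := by
  have h1 : ∀ y : G (n + 1) → K, ∀ σ : G (n + 1),
      (y σ • act X (n + 1) σ) ≫ Hw (n + 1) h = y σ • (act X (n + 1) σ ≫ Hw (n + 1) h) :=
    fun y σ => Linear.smul_comp _ _ _ _ _ _
  have h2 : (Psi K X (n + 1) x h : X ⊗ pow X n ⟶ X ⊗ pow X n) =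
      ∑ τ : G n, x (shift τ) • (act X (n + 1) (shift τ) ≫ Hw (n + 1) h :
          X ⊗ pow X n ⟶ X ⊗ pow X n) +
        ∑ i : Fin n, ∑ τ : G n, x (swap 0 i.succ * shift τ) •
          (act X (n + 1) (swap 0 i.succ * shift τ) ≫ Hw (n + 1) h :
            X ⊗ pow X n ⟶ X ⊗ pow X n) := by
    rw [Psi, Phi, Preadditive.sum_comp]
    simp only [h1]
    exact sum_G_succ n (fun σ => x σ • (act X (n + 1) σ ≫ Hw (n + 1) h :
      pow X (n + 1) ⟶ pow X (n + 1)))
  rw [h2, ptl_add, ptl_sum, ptl_sum]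
  congr 1
  · simp only [Psi, Phi, Preadditive.sum_comp, Linear.smul_comp, Finset.smul_sum]
    refine Finset.sum_congr rfl fun τ _ => ?_
    rw [ptl_smul, ptl_shift_Hw K, smul_comm]
  · refine Finset.sum_congr rfl fun i _ => ?_
    rw [ptl_sum]
    simp only [ptl_smul, ptl_swap_Hw, Psi, Phi, Preadditive.sum_comp, Linear.smul_comp]

end Pool.Agent.W_868bb7_h94
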