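import Pool.Agent.W_868bb7_h94.Defs

set_option autoImplicit false

/-!
# Ptl: properties of the partial trace `ptl` over the first factor

All follow from the properties of `ptr` (library, modules `TraceA`, `TraceK`: `ptr_nat_left`, `ptr_nat_right`,
`ptr_slide`, `ptr_rsw`, `ptr_braid`, `ptr_tensorHom`, `ptr_add`, `ptr_smul`, `ptr_sum`) and the naturality of the
braiding.
-/

namespace Pool.Agent.W_868bb7_h94

open CategoryTheory MonoidalCategory Equiv Pool.Agent.W_MP_868bb7_ag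

universe v u w

section Mon

variable {C : Type u} [Category.{v} C] [MonoidalCategory C] [SymmetricCategory C]
  [RightRigidCategory C]

theorem ptl_left (X : C) {A A' B : C} (u : A' ⟶ A) (F : X ⊗ A ⟶ X ⊗ B) :
    ptl X (X ◁ u ≫ F) = u ≫ ptl X F := by
  unfold ptl
  rw [Category.assoc, ← BraidedCategory.braiding_naturality_left_assoc, ptr_nat_left]

theorem ptl_right (X : C) {A B B' : C} (F : X ⊗ A ⟶ X ⊗ B) (v : B ⟶ B') :
    ptl X (F ≫ X ◁ v) = ptl X F ≫ v := by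
  unfold ptl
  rw [Category.assoc, BraidedCategory.braiding_naturality_right, ← ptr_nat_right]
  simp only [Category.assoc]

theorem ptl_slide (X : C) {A B : C} (f : X ⟶ X) (F : X ⊗ A ⟶ X ⊗ B) :
    ptl X (F ≫ f ▷ B) = ptl X (f ▷ A ≫ F) := by
  unfold ptl
  have h1 : (β_ A X).hom ≫ (F ≫ f ▷ B) ≫ (β_ X B).hom =
      ((β_ A X).hom ≫ F ≫ (β_ X B).hom) ≫ B ◁ f := by
    simp only [Category.assoc, BraidedCategory.braiding_naturality_left]
  have h2 : (β_ A X).hom ≫ (f ▷ A ≫ F) ≫ (β_ X B).hom =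
      A ◁ f ≫ ((β_ A X).hom ≫ F ≫ (β_ X B).hom) := by
    rw [BraidedCategory.braiding_naturality_right_assoc, Category.assoc]
  rw [h1, h2, ptr_slide]

/-- `β_{X ⊗ Z, X} ≫ sw X Z ≫ β_{X, X ⊗ Z} = rsw X Z X ≫ (β_ X X).hom ▷ Z ≫ rsw X X Z`
(`BraidedCategory.braiding_tensor_left_hom`, `BraidedCategory.braiding_tensor_right_hom`,
`SymmetricCategory.symmetry`), then `ptr_rsw` and `ptr_braid` -/
theorem ptl_sw (X Z : C) : ptl X (sw X Z) = 𝟙 (X ⊗ Z) := by
  have h : (β_ (X ⊗ Z) X).hom ≫ sw X Z ≫ (β_ X (X ⊗ Z)).hom =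
      rsw X Z X ≫ (β_ X X).hom ▷ Z ≫ rsw X X Z := by
    rw [BraidedCategory.braiding_tensor_left_hom, BraidedCategory.braiding_tensor_right_hom]
    simp only [sw, rsw, Category.assoc, Iso.hom_inv_id_assoc]
    rw [← comp_whiskerRight_assoc (β_ X X).hom (β_ X X).hom, SymmetricCategory.symmetry,
      id_whiskerRight, Category.id_comp]
  unfold ptl
  rw [h, ptr_rsw, ptr_braid, id_whiskerRight]

theorem Ptl_sw_nat (X Z : C) (f : X ⟶ X) :
    f ▷ (X ⊗ Z) ≫ sw X Z = sw X Z ≫ X ◁ (f ▷ Z) := by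
  simp only [sw, Category.assoc]
  rw [associator_inv_naturality_left_assoc, ← associator_naturality_middle,
    ← comp_whiskerRight_assoc, BraidedCategory.braiding_naturality_left,
    comp_whiskerRight_assoc]

/-- closing the first strand of the exchange of the first two factors, with letters:
`f ⊗ₘ (g ⊗ₘ r) = f ▷ _ ≫ X ◁ (g ⊗ₘ r)`, `ptl_right`, `ptl_slide`, and
`f ▷ (X ⊗ Z) ≫ sw X Z = sw X Z ≫ X ◁ (f ▷ Z)` (naturality), `ptl_right`, `ptl_sw` -/
theorem ptl_sw_tensor (X : C) {Z Z' : C} (f g : X ⟶ X) (r : Z ⟶ Z') :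
    ptl X (sw X Z ≫ (f ⊗ₘ (g ⊗ₘ r))) = (f ≫ g) ⊗ₘ r := by
  rw [MonoidalCategory.tensorHom_def f, ← Category.assoc, ptl_right, ptl_slide, Ptl_sw_nat,
    ptl_right, ptl_sw, Category.id_comp, ← tensorHom_id, tensorHom_comp_tensorHom,
    Category.id_comp]

end Mon

section Lin

variable (K : Type w) [Field K] {C : Type u} [Category.{v} C] [MonoidalCategory C]
  [Preadditive C] [Linear K C] [MonoidalPreadditive C] [MonoidalLinear K C]
  [SymmetricCategory C] [RightRigidCategory C]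

omit [Linear K C] [MonoidalLinear K C] [Field K] in
theorem ptl_add (X : C) {A B : C} (F F' : X ⊗ A ⟶ X ⊗ B) :
    ptl X (F + F') = ptl X F + ptl X F' := by
  unfold ptl
  rw [Preadditive.add_comp, Preadditive.comp_add, ptr_add]

theorem ptl_smul (X : C) {A B : C} (a : K) (F : X ⊗ A ⟶ X ⊗ B) :
    ptl X (a • F) = a • ptl X F := by
  unfold ptl
  rw [Linear.smul_comp, Linear.comp_smul, ptr_smul]

omit [Linear K C] [MonoidalLinear K C] [Field K] in
theorem ptl_zero (X : C) {A B : C} : ptl X (0 : X ⊗ A ⟶ X ⊗ B) = 0 := by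
  unfold ptl
  rw [Limits.zero_comp, Limits.comp_zero, ptr_zero]

omit [Linear K C] [MonoidalLinear K C] [Field K] in
theorem ptl_sum {ι : Type*} (s : Finset ι) (X : C) {A B : C} (F : ι → (X ⊗ A ⟶ X ⊗ B)) :
    ptl X (∑ i ∈ s, F i) = ∑ i ∈ s, ptl X (F i) := by
  unfold ptl
  rw [Preadditive.sum_comp, Preadditive.comp_sum, ptr_sum]

/-- `(β_ A X).hom ≫ (f ⊗ₘ u) ≫ (β_ X B).hom = u ⊗ₘ f`, `ptr_tensorHom` -/
theorem ptl_tensor [UnitK K C] (X : C) {A B : C} (f : X ⟶ X) (u : A ⟶ B) :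
    ptl X (f ⊗ₘ u) = tr K f • u := by
  unfold ptl
  rw [BraidedCategory.braiding_naturality, SymmetricCategory.symmetry_assoc, ptr_tensorHom K]

end Lin

end Pool.Agent.W_868bb7_h94
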