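import Pool.Agent.W_868bb7_h94.DefsC

set_option autoImplicit false

/-!
# SEfA: coset decomposition of the (anti)symmetrization
-/

namespace Pool.Agent.W_868bb7_h94

open Equiv Pool.Agent.W_MP_868bb7_ag

variable {K : Type*} [Field K]

theorem SEf_singleton (b : Bool) {n : ℕ} (k : Fin n) (x : G n → K) : SEf b {k} x = x := by
  have h : SP ({k} : Finset (Fin n)) = {1} := by
    ext σ
    rw [mem_SP, Finset.mem_singleton]
    constructor
    · intro h
      apply Equiv.Perm.card_support_le_one.1
      exact (Finset.card_le_card h).trans (by simp)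
    · rintro rfl
      simp
  funext g
  simp only [SEf, h, Finset.sum_singleton, map_one, Units.val_one, Int.cast_one, one_mul]

/-- The permutations supported in `insert k U` are uniquely `swap j k * σ` with `j ∈ insert k U`
(`swap k k = 1`) and `σ` supported in `U` (`j = τ k`, `σ = swap j k * τ`), with sign
`cs b * chi b σ` for `j ≠ k`: compare the proof of `SE_insert` in the library (module `Hook`). -/
theorem SEf_insert (b : Bool) {n : ℕ} (U : Finset (Fin n)) (k : Fin n) (hk : k ∉ U)
    (x : G n → K) : SEf b (insert k U) x = SEf b U (addSym b U k x) := by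
  funext g
  have hmaps : ∀ σ ∈ SP (insert k U), σ k ∈ insert k U := by
    intro σ hσ
    by_contra hn
    have h1 := mem_SP'.1 hσ (σ k) hn
    have h2 : σ k = k := σ.injective h1
    exact hn (by rw [h2]; exact Finset.mem_insert_self k U)
  have hfib : ∀ i ∈ insert k U,
      ∑ σ ∈ (SP (insert k U)).filter (fun σ => σ k = i),
          (((chi b σ : ℤˣ) : ℤ) : K) * x (σ * g) =
        ∑ τ ∈ SP U, (((chi b (Equiv.swap i k * τ) : ℤˣ) : ℤ) : K) *
          x (Equiv.swap i k * τ * g) := by
    intro i hi
    refine Finset.sum_bij' (fun σ _ => Equiv.swap i k * σ) (fun τ _ => Equiv.swap i k * τ)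
      ?_ ?_ ?_ ?_ ?_
    · intro σ hσ
      rw [Finset.mem_filter] at hσ
      obtain ⟨h1, h2⟩ := hσ
      rw [mem_SP'] at h1 ⊢
      intro y hy
      rw [Equiv.Perm.mul_apply]
      by_cases hyx : y = k
      · subst hyx
        rw [h2, Equiv.swap_apply_left]
      · have h3 : y ∉ insert k U := by
          rw [Finset.mem_insert]
          push Not
          exact ⟨hyx, hy⟩
        rw [h1 y h3]
        refine Equiv.swap_apply_of_ne_of_ne ?_ hyx
        rintro rfl
        exact h3 hi
    · intro τ hτ
      rw [mem_SP'] at hτ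
      rw [Finset.mem_filter, mem_SP']
      refine ⟨?_, ?_⟩
      · intro y hy
        have hyx : y ≠ k := by
          rintro rfl
          exact hy (Finset.mem_insert_self _ _)
        have hyA : y ∉ U := fun h => hy (Finset.mem_insert_of_mem h)
        rw [Equiv.Perm.mul_apply, hτ y hyA]
        refine Equiv.swap_apply_of_ne_of_ne ?_ hyx
        rintro rfl
        exact hy hi
      · rw [Equiv.Perm.mul_apply, hτ k hk, Equiv.swap_apply_right]
    · intro σ _
      rw [← mul_assoc, Equiv.swap_mul_self, one_mul]
    · intro τ _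
      rw [← mul_assoc, Equiv.swap_mul_self, one_mul]
    · intro σ _
      rw [← mul_assoc, Equiv.swap_mul_self, one_mul]
  simp only [SEf, addSym]
  rw [← Finset.sum_fiberwise_of_maps_to hmaps, Finset.sum_congr rfl hfib,
    Finset.sum_insert hk]
  simp only [mul_add, Finset.sum_add_distrib]
  congr 1
  · refine Finset.sum_congr rfl fun τ _ => ?_
    have hrefl : Equiv.swap k k = (1 : G n) := Equiv.swap_self k
    rw [hrefl, one_mul]
  · rw [Finset.sum_comm]
    refine Finset.sum_congr rfl fun τ _ => ?_
    rw [← mul_assoc, Finset.mul_sum]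
    refine Finset.sum_congr rfl fun i hi => ?_
    have hne : i ≠ k := by
      rintro rfl
      exact hk hi
    rw [map_mul, Units.val_mul, chi_swap_aux b hne, Int.cast_mul, ← mul_assoc]
    ring

theorem SEf_add (b : Bool) {n : ℕ} (U : Finset (Fin n)) (x y : G n → K) :
    SEf b U (x + y) = SEf b U x + SEf b U y := by
  funext g
  simp only [SEf, Pi.add_apply, mul_add, Finset.sum_add_distrib]

theorem SEf_smul (b : Bool) {n : ℕ} (U : Finset (Fin n)) (c : K) (x : G n → K) :
    SEf b U (c • x) = c • SEf b U x := by
  funext g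
  simp only [SEf, Pi.smul_apply, smul_eq_mul, Finset.mul_sum]
  refine Finset.sum_congr rfl fun σ _ => ?_
  ring

/-- the permutations supported in `T` preserve the parts -/
theorem SEf_mem_part (b : Bool) {n : ℕ} (S : Fin n → Bool) (V : Submodule K (G n → K))
    (hV : HStable S V) (e : Bool) (T : Finset (Fin n)) (hT : ∀ i ∈ T, S i = e) (x : G n → K)
    (hx : x ∈ V) : SEf b T x ∈ V := by
  have h : SEf b T x = ∑ σ ∈ SP T, (((chi b σ : ℤˣ) : ℤ) : K) • (fun g => x (σ * g)) := by
    funext g
    simp only [SEf, Finset.sum_apply, Pi.smul_apply, smul_eq_mul]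
  rw [h]
  refine V.sum_mem fun σ hσ => V.smul_mem _ (hV x hx σ ?_)
  intro i
  by_cases hi : i ∈ T
  · have hσi : σ i ∈ T := by
      by_contra hn
      have h1 := mem_SP'.1 hσ (σ i) hn
      have h2 : σ i = i := σ.injective h1
      exact hn (by rw [h2]; exact hi)
    rw [hT i hi, hT _ hσi]
  · rw [mem_SP'.1 hσ i hi]

end Pool.Agent.W_868bb7_h94
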