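import Pool.Agent.W_868bb7_h94.DefsC
import Pool.Agent.W_868bb7_h94.PermA

set_option autoImplicit false

/-!
# ShiftN: permutations of the last `a` strands
-/

namespace Pool.Agent.W_868bb7_h94

open Equiv Pool.Agent.W_MP_868bb7_ag

theorem chi_shiftN (b : Bool) {a : ℕ} (m : ℕ) (σ : G a) : chi b (shiftN m σ) = chi b σ := by
  induction m with
  | zero => rfl
  | succ m ih =>
    rw [← ih]
    exact chi_shift b _ (shiftN m σ)

theorem shiftN_fix {a : ℕ} (b : ℕ) (σ : G a) (j : Fin (a + b)) (hj : j.val < b) :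
    shiftN b σ j = j := by
  induction b with
  | zero => exact absurd hj (Nat.not_lt_zero _)
  | succ b ih =>
    change shift (shiftN b σ) j = j
    rcases Fin.eq_zero_or_eq_succ (n := a + b) j with h | ⟨i, h⟩
    · rw [h]
      exact shift_zero _
    · rw [h, shift_succ, ih i]
      have h2 : j.val = i.val + 1 := by
        rw [h]
        rfl
      omega

theorem ShiftN_inj {n : ℕ} : Function.Injective (shift : G n → G (n + 1)) := by
  intro σ τ h
  apply Equiv.ext
  intro i
  apply Fin.succ_injective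
  rw [← shift_succ, ← shift_succ, h]

theorem ShiftN_injN {a : ℕ} (b : ℕ) : Function.Injective (fun σ : G a => shiftN b σ) := by
  induction b with
  | zero => exact fun σ τ h => h
  | succ b ih => exact fun σ τ h => ih (ShiftN_inj h)

/-- a permutation fixing `0` is a shift (`shift_decomposeFin`); injectivity by `shift_succ` -/
theorem shiftN_bij {a : ℕ} (b : ℕ) :
    Set.BijOn (fun σ : G a => shiftN b σ) Set.univ
      {τ : G (a + b) | ∀ j : Fin (a + b), j.val < b → τ j = j} := by
  refine ⟨fun σ _ j hj => shiftN_fix b σ j hj, (ShiftN_injN b).injOn, ?_⟩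
  induction b with
  | zero => exact fun τ _ => ⟨τ, Set.mem_univ _, rfl⟩
  | succ b ih =>
    intro τ hτ
    have h0 : (τ : G (a + b + 1)) 0 = 0 := hτ 0 (Nat.succ_pos b)
    have h1 := shift_decomposeFin (n := a + b) τ h0
    set e : G (a + b) := (Equiv.Perm.decomposeFin (n := a + b) τ).2 with he
    have h2 : e ∈ {τ : G (a + b) | ∀ j : Fin (a + b), j.val < b → τ j = j} := by
      intro j hj
      apply Fin.succ_injective
      rw [← shift_succ, h1]
      exact hτ j.succ (Nat.succ_lt_succ hj)
    obtain ⟨σ, hσ, h3⟩ := ih h2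
    refine ⟨σ, hσ, ?_⟩
    have h4 : shiftN b σ = e := h3
    change shift (shiftN b σ) = τ
    rw [h4]
    exact h1

/-- the sum over the permutations supported in the last `a` strands -/
theorem sum_SP_last {M : Type*} [AddCommMonoid M] (a b : ℕ) (f : G (a + b) → M) :
    ∑ τ ∈ SP (Finset.univ.filter (fun j : Fin (a + b) => b ≤ j.val)), f τ =
      ∑ σ : G a, f (shiftN b σ) := by
  symm
  have hb := shiftN_bij (a := a) b
  refine Finset.sum_bij (fun σ _ => shiftN b σ) ?_ ?_ ?_ (fun _ _ => rfl)
  · intro σ _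
    rw [mem_SP']
    intro y hy
    refine shiftN_fix b σ y ?_
    by_contra hcon
    exact hy (Finset.mem_filter.2 ⟨Finset.mem_univ _, not_lt.1 hcon⟩)
  · intro σ _ τ _ h
    exact ShiftN_injN b h
  · intro τ hτ
    rw [mem_SP'] at hτ
    obtain ⟨σ, -, h⟩ := hb.2.2 (show τ ∈ _ from fun j hj => hτ j (by
      rw [Finset.mem_filter]
      rintro ⟨-, h⟩
      exact absurd hj (not_lt.2 h)))
    exact ⟨σ, Finset.mem_univ _, h⟩

end Pool.Agent.W_868bb7_h94
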