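import Pool.Agent.W_868bb7_h94.SEfA

set_option autoImplicit false

/-!
# Trans: a flag killed by `m + 1` strands has at most `m` classes
-/

namespace Pool.Agent.W_868bb7_h94

open Equiv Pool.Agent.W_MP_868bb7_ag

variable {K : Type*} [Field K]

theorem Trans_zero (b : Bool) {n : ℕ} (U : Finset (Fin n)) :
    SEf b U (0 : G n → K) = 0 := by
  have h := SEf_smul (K := K) b U 0 0
  rw [zero_smul, zero_smul] at h
  exact h

theorem Trans_sum (b : Bool) {n : ℕ} {ι : Type*} (U : Finset (Fin n)) (A : Finset ι)
    (y : ι → G n → K) : SEf b U (∑ k ∈ A, y k) = ∑ k ∈ A, SEf b U (y k) := by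
  classical
  induction A using Finset.induction_on with
  | empty => rw [Finset.sum_empty, Finset.sum_empty, Trans_zero]
  | insert a A ha ih => rw [Finset.sum_insert ha, Finset.sum_insert ha, SEf_add, ih]

theorem Trans_cs (b : Bool) : ((cs (!b) : ℤ) : K) * (-((cs b : ℤ) : K)) = 1 := by
  cases b <;> simp [cs]

theorem Trans_step [CharZero K] (b : Bool) {n : ℕ} (A U : Finset (Fin n)) (x : G n → K)
    (hA : A.Nonempty) (hdis : ∀ k ∈ A, k ∉ U)
    (hmax : ∀ k ∈ U, ∀ g : G n, ∑ j ∈ A, x (swap j k * g) = -((cs b : ℤ) : K) * x g)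
    (hkill : ∀ k ∈ A, SEf (!b) (insert k U) x = 0) : SEf (!b) U x = 0 := by
  have h1 : ∑ k ∈ A, addSym (!b) U k x = ((A.card + U.card : ℕ) : K) • x := by
    funext g
    rw [Finset.sum_apply]
    have h2 : ∀ k ∈ A, addSym (!b) U k x g =
        x g + ((cs (!b) : ℤ) : K) * ∑ j ∈ U, x (swap j k * g) := fun k _ => rfl
    rw [Finset.sum_congr rfl h2, Finset.sum_add_distrib, Finset.sum_const, ← Finset.mul_sum,
      Finset.sum_comm]
    have h3 : ∀ j ∈ U, ∑ k ∈ A, x (swap j k * g) = -((cs b : ℤ) : K) * x g := by
      intro j hj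
      rw [← hmax j hj g]
      exact Finset.sum_congr rfl fun k _ => by rw [swap_comm]
    rw [Finset.sum_congr rfl h3, Finset.sum_const, nsmul_eq_mul, nsmul_eq_mul, Pi.smul_apply,
      smul_eq_mul]
    push_cast
    have h4 := Trans_cs (K := K) b
    linear_combination (U.card : K) * x g * h4
  have h5 : ((A.card + U.card : ℕ) : K) • SEf (!b) U x = 0 := by
    rw [← SEf_smul, ← h1, Trans_sum]
    refine Finset.sum_eq_zero fun k hk => ?_
    rw [← SEf_insert (!b) U k (hdis k hk) x]
    exact hkill k hk
  have h6 : ((A.card + U.card : ℕ) : K) ≠ 0 := by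
    rw [Nat.cast_ne_zero]
    have := hA.card_pos
    omega
  exact (smul_eq_zero.1 h5).resolve_left h6

/-- `T i` are the classes.  If `T m` is empty, then `m < i0` and `hmax m i0` gives `x = 0`.  Otherwise all
`T i` with `i ≤ m` are not empty (same argument, unless `x = 0`).  Claim, for `i ≤ m` by induction on `i`: if
`U = image f (Finset.Icc i m)` with `f l ∈ T l` for `i ≤ l ≤ m`, then `SEf (!b) U x = 0`.  `i = 0`: `hkill`.
`i + 1`: for `k ∈ T i`, `k ∉ U` (`hdis`) and `SEf (!b) (insert k U) x = 0`, that is
`SEf (!b) U (addSym (!b) U k x) = 0` (`SEf_insert`).  Sum over `k ∈ T i`: by `hmax` (`swap j k = swap k j`)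
`∑_{k ∈ T i} addSym (!b) U k x = (card (T i) + card U) • x`, because `-(cs (!b) * cs b) = 1`; so
`(card (T i) + card U) • SEf (!b) U x = 0`.  `i = m`: `U = {f m}`, `SEf_singleton`. -/
theorem trans_bound [CharZero K] (b : Bool) (m : ℕ) {n : ℕ} (T : ℕ → Finset (Fin n))
    (x : G n → K) (hdis : ∀ i i' : ℕ, i < i' → Disjoint (T i) (T i'))
    (hmax : ∀ i i' : ℕ, i < i' → ∀ k ∈ T i', ∀ g : G n,
      ∑ j ∈ T i, x (swap j k * g) = -((cs b : ℤ) : K) * x g)
    (hkill : ∀ U : Finset (Fin n), U.card = m + 1 → (∀ k ∈ U, ∃ i, i ≤ m ∧ k ∈ T i) →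
      SEf (!b) U x = 0)
    (i0 : ℕ) (hi0 : m ≤ i0) (hne : (T i0).Nonempty) : x = 0 := by
  classical
  by_cases hall : ∀ i, i < i0 → (T i).Nonempty
  swap
  · push Not at hall
    obtain ⟨i, hi, he⟩ := hall
    obtain ⟨k, hk⟩ := hne
    funext g
    have h1 := hmax i i0 hi k hk g
    rw [he, Finset.sum_empty] at h1
    have h2 : -((cs b : ℤ) : K) ≠ 0 := by
      have h3 := Trans_cs (K := K) b
      intro h4
      rw [h4, mul_zero] at h3
      exact zero_ne_one h3
    exact (mul_eq_zero.1 h1.symm).resolve_left h2
  have hne' : ∀ i, i ≤ m → (T i).Nonempty := by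
    intro i hi
    rcases Nat.lt_or_ge i i0 with h | h
    · exact hall i h
    · have h1 : i = i0 := by omega
      rw [h1]
      exact hne
  have hdis' : ∀ i i' : ℕ, i ≠ i' → ∀ k, k ∈ T i → k ∉ T i' := by
    intro i i' hii k hk hk'
    rcases Nat.lt_or_gt_of_ne hii with h | h
    · exact Finset.disjoint_left.1 (hdis i i' h) hk hk'
    · exact Finset.disjoint_left.1 (hdis i' i h) hk' hk
  have key : ∀ i, i ≤ m → ∀ f : ℕ → Fin n, (∀ l, i ≤ l → l ≤ m → f l ∈ T l) →
      SEf (!b) ((Finset.Icc i m).image f) x = 0 := by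
    intro i
    induction i with
    | zero =>
      intro _ f hf
      apply hkill
      · rw [Finset.card_image_of_injOn]
        · rw [Nat.card_Icc]
          omega
        · intro l hl l' hl' hll
          rw [Finset.coe_Icc, Set.mem_Icc] at hl hl'
          by_contra hne2
          have h1 := hf l hl.1 hl.2
          have h2 := hf l' hl'.1 hl'.2
          rw [← hll] at h2
          exact hdis' l l' hne2 _ h1 h2
      · intro k hk
        rw [Finset.mem_image] at hk
        obtain ⟨l, hl, rfl⟩ := hk
        rw [Finset.mem_Icc] at hl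
        exact ⟨l, hl.2, hf l hl.1 hl.2⟩
    | succ i ih =>
      intro hi f hf
      refine Trans_step b (T i) _ x (hne' i (by omega)) ?_ ?_ ?_
      · intro k hk hk'
        rw [Finset.mem_image] at hk'
        obtain ⟨l, hl, rfl⟩ := hk'
        rw [Finset.mem_Icc] at hl
        exact hdis' i l (by omega) _ hk (hf l hl.1 hl.2)
      · intro k hk g
        rw [Finset.mem_image] at hk
        obtain ⟨l, hl, rfl⟩ := hk
        rw [Finset.mem_Icc] at hl
        exact hmax i l (by omega) _ (hf l hl.1 hl.2) g
      · intro k hk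
        have h1 := ih (by omega) (Function.update f i k) (by
          intro l hl hl'
          by_cases hli : l = i
          · subst hli
            rw [Function.update_self]
            exact hk
          · rw [Function.update_of_ne hli]
            exact hf l (by omega) hl')
        have h2 : (Finset.Icc i m).image (Function.update f i k) =
            insert k ((Finset.Icc (i + 1) m).image f) := by
          have h3 : Finset.Icc i m = insert i (Finset.Icc (i + 1) m) := by
            ext l
            rw [Finset.mem_insert, Finset.mem_Icc, Finset.mem_Icc]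
            omega
          rw [h3, Finset.image_insert, Function.update_self]
          congr 1
          apply Finset.image_congr
          intro l hl
          rw [Finset.coe_Icc, Set.mem_Icc] at hl
          exact Function.update_of_ne (by omega) _ _
        rw [h2] at h1
        exact h1
  obtain ⟨k, hk⟩ := hne' m le_rfl
  have h1 := key m le_rfl (fun _ => k) (by
    intro l hl hl'
    have h2 : l = m := by omega
    rw [h2]
    exact hk)
  rw [Finset.Icc_self, Finset.image_singleton, SEf_singleton] at h1
  exact h1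

end Pool.Agent.W_868bb7_h94
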