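import Mathlib

set_option autoImplicit false

/-!
# YoungA: the Young symmetrizer of a rectangle

`α = Fin (p + 1) × Fin (q + 1)`: `p + 1` rows (first coordinate), `q + 1` columns (second coordinate).
`yf g = ∑_π sgn π`, over the `π` preserving all columns with `π⁻¹ * g` preserving all rows.
-/

namespace Pool.Agent.W_868bb7_h94

open Equiv

variable {K : Type*} [Field K]

/-- the Young symmetrizer -/
def yf (K : Type*) [Field K] (p q : ℕ) (g : Perm (Fin (p + 1) × Fin (q + 1))) : K :=
  ∑ π ∈ Finset.univ.filter (fun π : Perm (Fin (p + 1) × Fin (q + 1)) =>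
    (∀ a, (π a).2 = a.2) ∧ (∀ a, ((π⁻¹ * g) a).1 = a.1)), (((Perm.sign π : ℤˣ) : ℤ) : K)

/-- `g = 1`: only `π = 1` preserves all columns and all rows -/
theorem yf_one (p q : ℕ) : yf K p q 1 = 1 := by
  unfold yf
  have h : Finset.univ.filter (fun π : Perm (Fin (p + 1) × Fin (q + 1)) =>
      (∀ a, (π a).2 = a.2) ∧ (∀ a, ((π⁻¹ * 1) a).1 = a.1)) = {1} := by
    ext π
    rw [Finset.mem_filter, Finset.mem_singleton]
    constructor
    · rintro ⟨-, h1, h2⟩
      ext1 b
      have h3 := h2 (π b)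
      have h4 : π⁻¹ (π b) = b := by simp
      rw [mul_one, h4] at h3
      exact Prod.ext h3.symm (h1 b)
    · rintro rfl
      refine ⟨Finset.mem_univ _, fun a => rfl, fun a => ?_⟩
      rw [mul_one, inv_one]; rfl
  rw [h, Finset.sum_singleton]
  simp

/-- left translation by a transposition inside a column: reindex `π ↦ swap a b * π` -/
theorem yf_col (p q : ℕ) (a b : Fin (p + 1) × Fin (q + 1)) (hab : a ≠ b) (h : a.2 = b.2)
    (g : Perm (Fin (p + 1) × Fin (q + 1))) : yf K p q (swap a b * g) = -yf K p q g := by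
  have hsw : ∀ x, (swap a b x).2 = x.2 := by
    intro x
    rcases eq_or_ne x a with rfl | hxa
    · rw [swap_apply_left]; exact h.symm
    · rcases eq_or_ne x b with rfl | hxb
      · rw [swap_apply_right]; exact h
      · rw [swap_apply_of_ne_of_ne hxa hxb]
  unfold yf
  rw [← Finset.sum_neg_distrib]
  refine Finset.sum_equiv (Equiv.mulLeft (swap a b)) ?_ ?_
  · intro π
    simp only [Finset.mem_filter, Finset.mem_univ, true_and, Equiv.coe_mulLeft, mul_inv_rev,
      swap_inv]
    refine and_congr ?_ ?_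
    · refine forall_congr' fun x => ?_
      rw [Perm.mul_apply, hsw]
    · refine forall_congr' fun x => ?_
      have : π⁻¹ * swap a b * g = π⁻¹ * (swap a b * g) := mul_assoc _ _ _
      rw [this]
  · intro π _
    rw [Equiv.coe_mulLeft, Perm.sign_mul, Perm.sign_swap hab]
    simp

/-- Garnir relation.  Let `k` be a point, `c ≠ k.2` a column, `T` the set of the points of the column `c` and `k`, and let
`A` be the finite set of the permutations supported in `T`.  Claim: `∑_{s ∈ A} sgn s * yf (s * g) = 0`.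
`yf (s * g) = ∑_π sgn π [π⁻¹ * s * g preserves rows]` (`π` preserving columns).  For fixed `π` let
`v = k`, `k' = π⁻¹ k`, `c' = (k'.1, c)`, `u = π c'`; `u` is in the column `c`, so `u, v ∈ T`, `u ≠ v`, and
`π⁻¹ * swap u v = swap c' k' * π⁻¹` (`Equiv.swap_apply_apply`-type identity), where `swap c' k'` preserves rows; so
`s ↦ swap u v * s` is a sign reversing involution of `A` preserving the condition. -/
theorem yf_garnir_sum (p q : ℕ) (k : Fin (p + 1) × Fin (q + 1)) (c : Fin (q + 1)) (hc : c ≠ k.2)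
    (g : Perm (Fin (p + 1) × Fin (q + 1))) :
    ∑ s ∈ Finset.univ.filter (fun s : Perm (Fin (p + 1) × Fin (q + 1)) =>
      ∀ a, (a.2 ≠ c ∧ a ≠ k) → s a = a), (((Perm.sign s : ℤˣ) : ℤ) : K) * yf K p q (s * g) = 0 := by
  have h1 : ∀ s : Perm (Fin (p + 1) × Fin (q + 1)), yf K p q (s * g) =
      ∑ π ∈ Finset.univ.filter (fun π : Perm (Fin (p + 1) × Fin (q + 1)) => ∀ a, (π a).2 = a.2),
        (if ∀ a, ((π⁻¹ * (s * g)) a).1 = a.1 then (((Perm.sign π : ℤˣ) : ℤ) : K) else 0) := by
    intro s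
    unfold yf
    rw [← Finset.sum_filter, Finset.filter_filter]
  simp only [h1, Finset.mul_sum]
  rw [Finset.sum_comm]
  refine Finset.sum_eq_zero fun π hπ => ?_
  have hcol : ∀ a, (π a).2 = a.2 := by simpa using hπ
  set k' := π⁻¹ k with hk'
  set u := π (k'.1, c) with hu
  have hu2 : u.2 = c := by rw [hu, hcol]
  have huk : u ≠ k := by
    intro h
    rw [h] at hu2
    exact hc hu2.symm
  have hconj : π⁻¹ * swap u k = swap (k'.1, c) k' * π⁻¹ := by
    have h2 := Equiv.mul_swap_eq_swap_mul π⁻¹ u k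
    have h4 : π⁻¹ (π (k'.1, c)) = (k'.1, c) := by simp
    rw [h2, hu, h4, ← hk']
  have hrow : ∀ (h : Perm (Fin (p + 1) × Fin (q + 1))) a,
      ((swap (k'.1, c) k' * h) a).1 = (h a).1 := by
    intro h a
    rw [Perm.mul_apply]
    rcases eq_or_ne (h a) (k'.1, c) with hx | hx
    · rw [hx, swap_apply_left]
    · rcases eq_or_ne (h a) k' with hy | hy
      · rw [hy, swap_apply_right]
      · rw [swap_apply_of_ne_of_ne hx hy]
  have hcond : ∀ s : Perm (Fin (p + 1) × Fin (q + 1)),
      (∀ a, ((π⁻¹ * (swap u k * s * g)) a).1 = a.1) ↔ ∀ a, ((π⁻¹ * (s * g)) a).1 = a.1 := by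
    intro s
    refine forall_congr' fun a => ?_
    have h3 : π⁻¹ * (swap u k * s * g) = swap (k'.1, c) k' * (π⁻¹ * (s * g)) := by
      rw [← mul_assoc, ← mul_assoc, hconj, mul_assoc, mul_assoc]
    rw [h3, hrow]
  refine Finset.sum_involution (fun s _ => swap u k * s) ?_ ?_ ?_ ?_
  · intro s _
    have h4 := hcond s
    by_cases h5 : ∀ a, ((π⁻¹ * (s * g)) a).1 = a.1
    · rw [if_pos h5, if_pos (h4.2 h5), Perm.sign_mul, Perm.sign_swap huk]
      simp
    · rw [if_neg h5, if_neg (fun h => h5 (h4.1 h))]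
      simp
  · intro s _ _ h
    have h6 : swap u k = 1 := mul_eq_right.1 h
    exact huk (swap_eq_one_iff.1 h6)
  · intro s hs
    rw [Finset.mem_filter] at hs ⊢
    refine ⟨Finset.mem_univ _, fun a ha => ?_⟩
    rw [Perm.mul_apply, hs.2 a ha]
    refine swap_apply_of_ne_of_ne ?_ ha.2
    intro h
    rw [h] at ha
    exact ha.1 hu2
  · intro s _
    rw [← mul_assoc, swap_mul_self, one_mul]

end Pool.Agent.W_868bb7_h94
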