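import Pool.Agent.W_868bb7_h94.YoungA

set_option autoImplicit false

/-!
# YoungB: the star sums of the Young symmetrizer of a rectangle
-/

namespace Pool.Agent.W_868bb7_h94

open Equiv

variable {K : Type*} [Field K]

theorem YoungB_aux1 (p q : ℕ) (σ : Perm (Fin (p + 1) × Fin (q + 1)))
    (hσ : ∀ x, (σ x).2 = x.2) (g : Perm (Fin (p + 1) × Fin (q + 1))) :
    yf K p q (σ * g) = (((Perm.sign σ : ℤˣ) : ℤ) : K) * yf K p q g := by
  have hσ' : ∀ x, (σ⁻¹ x).2 = x.2 := by
    intro x
    have h := hσ (σ⁻¹ x)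
    have h' : σ (σ⁻¹ x) = x := Equiv.apply_symm_apply σ x
    rw [h'] at h
    exact h.symm
  unfold yf
  rw [Finset.mul_sum]
  refine Finset.sum_equiv (Equiv.mulLeft σ⁻¹) ?_ ?_
  · intro π
    simp only [Finset.mem_filter, Finset.mem_univ, true_and, Equiv.coe_mulLeft, mul_inv_rev,
      inv_inv]
    refine and_congr ?_ ?_
    · refine forall_congr' fun x => ?_
      rw [Perm.mul_apply, hσ']
    · refine forall_congr' fun x => ?_
      rw [mul_assoc]
  · intro π _
    rw [Equiv.coe_mulLeft, Perm.sign_mul, Perm.sign_inv]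
    rcases Int.units_eq_one_or (Perm.sign σ) with h | h <;> rw [h] <;> simp

theorem YoungB_aux2 {p q : ℕ} {k : Fin (p + 1) × Fin (q + 1)} {c : Fin (q + 1)}
    (σ : Perm (Fin (p + 1) × Fin (q + 1))) (h : ∀ a, (a.2 ≠ c ∧ a ≠ k) → σ a = a)
    (hk : σ k = k) (x : Fin (p + 1) × Fin (q + 1)) : (σ x).2 = x.2 := by
  have hfix : ∀ y, y.2 ≠ c → σ y = y := by
    intro y hy
    by_cases hyk : y = k
    · rw [hyk, hk]
    · exact h y ⟨hy, hyk⟩
  by_cases hx : x.2 = c
  · by_contra hne
    have h1 : (σ x).2 ≠ c := fun h2 => hne (h2.trans hx.symm)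
    have h2 := σ.injective (hfix _ h1)
    rw [h2] at h1
    exact h1 hx
  · rw [hfix x hx]

/-- In `yf_garnir_sum` every `s` is uniquely `σ * swap (i, c) k` or `σ`, with `σ` supported in the column `c` (the point
mapped to `k` by `s` is `k` or `(i, c)`: `σ = s * swap (i, c) k` fixes `k`); `yf (σ * g) = sgn σ * yf g` for `σ` supported in
the column `c` (from `yf_col`, `Equiv.Perm.swap_induction_on`-type induction, or directly by reindexing
`π ↦ σ * π` in the definition).  So `(p + 1)! * (yf g - ∑_i yf (swap (i, c) k * g)) = 0`.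
(Write `s = σ * swap (i, c) k`, `yf (σ * (swap (i, c) k * g)) = sgn σ * yf (swap (i, c) k * g)`.) -/
theorem yf_garnir [CharZero K] (p q : ℕ) (k : Fin (p + 1) × Fin (q + 1)) (c : Fin (q + 1))
    (hc : c ≠ k.2) (g : Perm (Fin (p + 1) × Fin (q + 1))) :
    ∑ i : Fin (p + 1), yf K p q (swap (i, c) k * g) = yf K p q g := by
  set A := Finset.univ.filter (fun s : Perm (Fin (p + 1) × Fin (q + 1)) =>
      ∀ a, (a.2 ≠ c ∧ a ≠ k) → s a = a) with hA
  set F : Perm (Fin (p + 1) × Fin (q + 1)) → K := fun s =>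
    (((Perm.sign s : ℤˣ) : ℤ) : K) * yf K p q (s * g) with hF
  have hmemA : ∀ s, s ∈ A ↔ ∀ a, (a.2 ≠ c ∧ a ≠ k) → s a = a := by
    intro s
    rw [hA, Finset.mem_filter]
    simp
  have h0 : ∑ s ∈ A, F s = 0 := yf_garnir_sum p q k c hc g
  set T : Finset (Fin (p + 1) × Fin (q + 1)) :=
    insert k (Finset.univ.image fun i : Fin (p + 1) => (i, c)) with hT
  have hmemT : ∀ w, w ∈ T ↔ w = k ∨ w.2 = c := by
    intro w
    rw [hT, Finset.mem_insert, Finset.mem_image]
    refine or_congr Iff.rfl ⟨?_, ?_⟩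
    · rintro ⟨i, _, rfl⟩
      rfl
    · intro h
      exact ⟨w.1, Finset.mem_univ _, by rw [← h]⟩
  have hmaps : ∀ s ∈ A, s⁻¹ k ∈ T := by
    intro s hs
    rw [hmemT]
    by_contra hne
    rw [not_or] at hne
    have h1 := (hmemA s).1 hs (s⁻¹ k) ⟨hne.2, hne.1⟩
    have h' : s (s⁻¹ k) = k := Equiv.apply_symm_apply s k
    rw [h'] at h1
    exact hne.1 h1.symm
  rw [← Finset.sum_fiberwise_of_maps_to hmaps] at h0
  clear_value A
  set B := A.filter (fun s => s⁻¹ k = k) with hB
  have hswA : ∀ w ∈ T, ∀ a : Fin (p + 1) × Fin (q + 1), (a.2 ≠ c ∧ a ≠ k) → swap w k a = a := by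
    intro w hw a ha
    refine swap_apply_of_ne_of_ne ?_ ha.2
    rintro rfl
    rcases (hmemT a).1 hw with h | h
    · exact ha.2 h
    · exact ha.1 h
  have hinner : ∀ w ∈ T, ∑ s ∈ A.filter (fun s => s⁻¹ k = w), F s =
      (B.card : K) * F (swap w k) := by
    intro w hw
    rw [← nsmul_eq_mul, ← Finset.sum_const]
    refine Finset.sum_equiv (Equiv.mulRight (swap w k)) ?_ ?_
    · intro s
      rw [hB, Finset.mem_filter, Finset.mem_filter, Equiv.coe_mulRight, hmemA, hmemA]
      refine and_congr ?_ ?_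
      · refine forall_congr' fun a => forall_congr' fun ha => ?_
        rw [Perm.mul_apply, hswA w hw a ha]
      · rw [mul_inv_rev, swap_inv, Perm.mul_apply]
        constructor
        · intro h
          rw [h, swap_apply_left]
        · intro h
          have h1 := congrArg (swap w k) h
          rw [swap_apply_self, swap_apply_right] at h1
          exact h1
    · intro s hs
      rw [Finset.mem_filter, hmemA] at hs
      have hsk : s w = k := by
        rw [← hs.2]
        exact Equiv.apply_symm_apply s k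
      have h1 : ∀ x, ((s * swap w k) x).2 = x.2 := by
        refine YoungB_aux2 (k := k) (c := c) _ ?_ ?_
        · intro a ha
          rw [Perm.mul_apply, hswA w hw a ha]
          exact hs.1 a ha
        · rw [Perm.mul_apply, swap_apply_right, hsk]
      have h2 := YoungB_aux1 (K := K) p q (s * swap w k) h1 (swap w k * g)
      have h3 : s * swap w k * (swap w k * g) = s * g := by
        rw [mul_assoc, ← mul_assoc (swap w k), swap_mul_self, one_mul]
      rw [h3] at h2
      simp only [hF]
      rw [h2, Perm.sign_mul]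
      rcases Int.units_eq_one_or (Perm.sign s) with h | h <;> rw [h] <;>
        rcases Int.units_eq_one_or (Perm.sign (swap w k)) with h' | h' <;> rw [h'] <;> simp
  rw [Finset.sum_congr rfl hinner, ← Finset.mul_sum] at h0
  have hcard : (B.card : K) ≠ 0 := by
    rw [Nat.cast_ne_zero, ← Nat.pos_iff_ne_zero, Finset.card_pos]
    refine ⟨1, ?_⟩
    rw [hB, Finset.mem_filter, hmemA]
    exact ⟨fun a _ => rfl, by rw [inv_one]; rfl⟩
  have h1 := (mul_eq_zero.1 h0).resolve_left hcard
  have hk : k ∉ Finset.univ.image fun i : Fin (p + 1) => (i, c) := by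
    rw [Finset.mem_image]
    rintro ⟨i, _, h⟩
    exact hc (by rw [← h])
  rw [hT, Finset.sum_insert hk, Finset.sum_image (fun i _ j _ h => (Prod.mk.inj h).1)] at h1
  simp only [hF] at h1
  have h2 : ∀ i : Fin (p + 1), (((Perm.sign (swap (i, c) k) : ℤˣ) : ℤ) : K) *
      yf K p q (swap (i, c) k * g) = - yf K p q (swap (i, c) k * g) := by
    intro i
    have : (i, c) ≠ k := by
      intro h
      exact hc (by rw [← h])
    rw [Perm.sign_swap this]
    simp
  simp only [h2, Finset.sum_neg_distrib, swap_self] at h1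
  have h3 : (((Perm.sign (Equiv.refl (Fin (p + 1) × Fin (q + 1))) : ℤˣ) : ℤ) : K) = 1 := by
    rw [Perm.sign_refl]
    simp
  have h4 : (Equiv.refl (Fin (p + 1) × Fin (q + 1)) : Perm _) * g = g := one_mul g
  rw [h3, h4, one_mul] at h1
  linear_combination -h1

/-- the points `≠ k`: `p` points in the column of `k` (each `-yf g` by `yf_col`) and the `q` other columns (each
`yf g` by `yf_garnir`) -/
theorem yf_star [CharZero K] (p q : ℕ) (k : Fin (p + 1) × Fin (q + 1))
    (g : Perm (Fin (p + 1) × Fin (q + 1))) :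
    ∑ j ∈ Finset.univ.erase k, yf K p q (swap j k * g) = ((q : K) - p) * yf K p q g := by
  have h1 := Finset.add_sum_erase Finset.univ (fun j => yf K p q (swap j k * g))
    (Finset.mem_univ k)
  have h2 : ∑ j, yf K p q (swap j k * g) =
      ∑ c : Fin (q + 1), ∑ i : Fin (p + 1), yf K p q (swap (i, c) k * g) :=
    Fintype.sum_prod_type_right (fun j => yf K p q (swap j k * g))
  have h3 := Finset.add_sum_erase Finset.univ
    (fun c : Fin (q + 1) => ∑ i : Fin (p + 1), yf K p q (swap (i, c) k * g))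
    (Finset.mem_univ k.2)
  have h4 : ∑ c ∈ Finset.univ.erase k.2, ∑ i : Fin (p + 1), yf K p q (swap (i, c) k * g) =
      (q : K) * yf K p q g := by
    rw [Finset.sum_congr rfl (fun c hc => yf_garnir p q k c (Finset.ne_of_mem_erase hc) g),
      Finset.sum_const, Finset.card_erase_of_mem (Finset.mem_univ _), Finset.card_univ,
      Fintype.card_fin, nsmul_eq_mul]
    simp
  have h5 := Finset.add_sum_erase Finset.univ
    (fun i : Fin (p + 1) => yf K p q (swap (i, k.2) k * g)) (Finset.mem_univ k.1)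
  have h6 : ∑ i ∈ Finset.univ.erase k.1, yf K p q (swap (i, k.2) k * g) =
      -((p : K) * yf K p q g) := by
    have h7 : ∀ i ∈ Finset.univ.erase k.1, yf K p q (swap (i, k.2) k * g) = -yf K p q g := by
      intro i hi
      refine yf_col p q (i, k.2) k ?_ rfl g
      intro h
      exact Finset.ne_of_mem_erase hi (by rw [← h])
    rw [Finset.sum_congr rfl h7, Finset.sum_const, Finset.card_erase_of_mem (Finset.mem_univ _),
      Finset.card_univ, Fintype.card_fin, nsmul_eq_mul]
    simp
  beta_reduce at h1 h3 h5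
  have h8 : ((k.1, k.2) : Fin (p + 1) × Fin (q + 1)) = k := rfl
  rw [h8] at h5
  rw [h2, ← h3, h4, ← h5, h6] at h1
  linear_combination h1

end Pool.Agent.W_868bb7_h94
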