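import Pool.Agent.W_868bb7_h94.BlockKill
import Pool.Agent.W_868bb7_h94.CombKill

set_option autoImplicit false

/-!
# ZbA: the blocks of an element with star sums `q - p` vanish
-/

namespace Pool.Agent.W_868bb7_h94

open CategoryTheory MonoidalCategory Equiv Pool.Agent.W_MP_868bb7_ag

universe v u w

variable (K : Type w) [Field K] {C : Type u} [Category.{v} C] [MonoidalCategory C]
  [Preadditive C] [Linear K C] [MonoidalPreadditive C] [MonoidalLinear K C]
  [SymmetricCategory C]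

theorem ZbA_compat_mul {n : ℕ} {S : Fin n → Bool} {h g : G n} (hh : Compat S h)
    (hg : Compat S g) : Compat S (h * g) := fun i => by
  rw [Equiv.Perm.mul_apply, hh, hg]

theorem ZbA_compat_inv {n : ℕ} {S : Fin n → Bool} {h : G n} (hh : Compat S h) :
    Compat S h⁻¹ := fun i => by
  rw [← hh (h⁻¹ i)]
  exact congrArg S (Equiv.apply_symm_apply h i)

/-- `Zb (x (h ·)) = Zb x ≫ act h⁻¹` for `Compat S h` (reindex `σ ↦ h * σ`, `act_mul`) -/
theorem Zb_translate {X : C} (n : ℕ) (f f' : X ⟶ X) (S : Fin n → Bool) (x : G n → K) (h : G n)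
    (hh : Compat S h) :
    Zb K n f f' S (fun g => x (h * g)) = Zb K n f f' S x ≫ act X n h⁻¹ := by
  unfold Zb
  rw [Preadditive.sum_comp]
  refine Finset.sum_bij' (fun σ _ => h * σ) (fun τ _ => h⁻¹ * τ) ?_ ?_ ?_ ?_ ?_
  · intro σ hσ
    rw [Finset.mem_filter] at hσ ⊢
    exact ⟨Finset.mem_univ _, ZbA_compat_mul hh hσ.2⟩
  · intro σ hσ
    rw [Finset.mem_filter] at hσ ⊢
    exact ⟨Finset.mem_univ _, ZbA_compat_mul (ZbA_compat_inv hh) hσ.2⟩
  · intro σ _
    rw [inv_mul_cancel_left]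
  · intro σ _
    rw [mul_inv_cancel_left]
  · intro σ _
    rw [Linear.smul_comp, Category.assoc, ← act_mul, inv_mul_cancel_left]

/-- `Zb x = (∑_{Compat σ} x σ • act σ) ≫ Hw (let2 f f' S)` (`act_Hw`), because `let2 f f' S (σ i) = let2 f f' S i` -/
theorem Zb_eq {X : C} (n : ℕ) (f f' : X ⟶ X) (S : Fin n → Bool) (x : G n → K) :
    Zb K n f f' S x = (∑ σ ∈ Finset.univ.filter (fun σ : G n => Compat S σ), x σ • act X n σ) ≫
      Hw n (let2 f f' S) := by
  unfold Zb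
  rw [Preadditive.sum_comp]
  refine Finset.sum_congr rfl fun σ hσ => ?_
  rw [Linear.smul_comp, act_Hw]
  have h1 : (fun i => let2 f f' S (σ i)) = let2 f f' S := by
    funext i
    unfold let2
    rw [(Finset.mem_filter.1 hσ).2 i]
  rw [h1]

/-- `Zb` as a linear map -/
def ZbA_lin {X : C} (n : ℕ) (f f' : X ⟶ X) (S : Fin n → Bool) :
    (G n → K) →ₗ[K] (pow X n ⟶ pow X n) where
  toFun x := Zb K n f f' S x
  map_add' x y := by
    unfold Zb
    rw [← Finset.sum_add_distrib]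
    refine Finset.sum_congr rfl fun σ _ => ?_
    rw [Pi.add_apply, add_smul]
  map_smul' c x := by
    unfold Zb
    rw [RingHom.id_apply, Finset.smul_sum]
    refine Finset.sum_congr rfl fun σ _ => ?_
    rw [Pi.smul_apply, smul_eq_mul, mul_smul]

theorem ZbA_lin_apply {X : C} (n : ℕ) (f f' : X ⟶ X) (S : Fin n → Bool) (x : G n → K) :
    ZbA_lin K n f f' S x = Zb K n f f' S x := rfl

theorem ZbA_compat_SP {n : ℕ} {S : Fin n → Bool} {T : Finset (Fin n)} {e : Bool}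
    (hS : ∀ i ∈ T, S i = e) {π : G n} (hπ : π ∈ SP T) : Compat S π := fun i => by
  rw [mem_SP'] at hπ
  by_cases hi : i ∈ T
  · have h1 : π i ∈ T := by
      by_contra h2
      have h3 := hπ (π i) h2
      rw [π.injective h3] at h2
      exact h2 hi
    rw [hS _ h1, hS _ hi]
  · rw [hπ i hi]

theorem ZbA_SP_inv {n : ℕ} {T : Finset (Fin n)} {π : G n} (hπ : π ∈ SP T) : π⁻¹ ∈ SP T := by
  rw [mem_SP] at hπ ⊢
  rw [Equiv.Perm.support_inv]
  exact hπ

/-- `Zb` is linear in `x`; `SEf b T x = ∑_{π ∈ SP T} chi π • x (π ·)`, so `Zb (SEf b T x) =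
∑_π chi π • Zb x ≫ act π⁻¹ = (∑ x σ • act σ) ≫ Hw (let2 f f' S) ≫ ∑_π chi π • act π = 0` (`Zb_translate`, `Zb_eq`,
`block_kill`; `chi π⁻¹ = chi π`).  Here `T` is in the part `S = e`, with letter `if e then f' else f`. -/
theorem Zb_SEf {X : C} (n : ℕ) (f f' : X ⟶ X) (S : Fin n → Bool) (x : G n → K) (b e : Bool)
    (a : ℕ) (hf : powMap (if e = true then f' else f) a ≫ E b X a = 0) (T : Finset (Fin n))
    (hT : T.card = a) (hS : ∀ i ∈ T, S i = e) : Zb K n f f' S (SEf b T x) = 0 := by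
  have h1 : SEf b T x = ∑ π ∈ SP T, (((chi b π : ℤˣ) : ℤ) : K) • fun g => x (π * g) := by
    funext g
    simp only [SEf, Finset.sum_apply, Pi.smul_apply, smul_eq_mul]
  rw [← ZbA_lin_apply, h1, map_sum]
  have h2 : ∀ π ∈ SP T, ZbA_lin K n f f' S ((((chi b π : ℤˣ) : ℤ) : K) • fun g => x (π * g)) =
      Zb K n f f' S x ≫ (((chi b π⁻¹ : ℤˣ) : ℤ) • act X n π⁻¹) := by
    intro π hπ
    rw [map_smul, ZbA_lin_apply, Zb_translate K n f f' S x π (ZbA_compat_SP hS hπ),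
      ← Int.cast_smul_eq_zsmul K, Linear.comp_smul, map_inv, Int.units_inv_eq_self]
  rw [Finset.sum_congr rfl h2, ← Preadditive.comp_sum]
  have h3 : ∑ π ∈ SP T, ((chi b π⁻¹ : ℤˣ) : ℤ) • act X n π⁻¹ =
      ∑ π ∈ SP T, ((chi b π : ℤˣ) : ℤ) • act X n π := by
    refine Finset.sum_bij' (fun σ _ => σ⁻¹) (fun σ _ => σ⁻¹) ?_ ?_ ?_ ?_ ?_
    · exact fun σ hσ => ZbA_SP_inv hσ
    · exact fun σ hσ => ZbA_SP_inv hσ
    · exact fun σ _ => inv_inv σ
    · exact fun σ _ => inv_inv σ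
    · exact fun σ _ => rfl
  rw [h3, Zb_eq, Category.assoc, block_kill b X _ a hf n (let2 f f' S) T hT ?_,
    Limits.comp_zero]
  intro i hi
  unfold let2
  rw [hS i hi]

/-- `comb_kill` with `U = {x ∈ Jst | Zb x = 0}` -/
theorem Zb_zero [CharZero K] {X : C} (p q : ℕ) (f f' : X ⟶ X)
    (hf : powMap f (p + 1) ≫ E true X (p + 1) = 0)
    (hf' : powMap f' (q + 1) ≫ E false X (q + 1) = 0)
    (S : Fin ((p + 1) * (q + 1)) → Bool) (x : G ((p + 1) * (q + 1)) → K)
    (hx : Star ((q : K) - p) x) : Zb K ((p + 1) * (q + 1)) f f' S x = 0 := by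
  have hJ : HStable S (Jst ((q : K) - p) ((p + 1) * (q + 1))) :=
    fun y hy h _ => Jst_L ((q : K) - p) ((p + 1) * (q + 1)) y hy h
  have h1 := comb_kill p q S
    (Jst ((q : K) - p) ((p + 1) * (q + 1)) ⊓ LinearMap.ker (ZbA_lin K ((p + 1) * (q + 1)) f f' S))
    ?_ inf_le_left ?_ ?_
  · exact (h1 ((mem_Jst _ _ x).2 hx)).2
  · rintro y ⟨hy1, hy2⟩ h hh
    refine ⟨hJ y hy1 h hh, ?_⟩
    change Zb K ((p + 1) * (q + 1)) f f' S (fun g => y (h * g)) = 0
    have h3 : Zb K ((p + 1) * (q + 1)) f f' S y = 0 := hy2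
    rw [Zb_translate K _ f f' S y h hh, h3, Limits.zero_comp]
  · intro y hy T hT hS
    refine ⟨SEf_mem_part true S _ hJ false T hS y hy, ?_⟩
    exact Zb_SEf K _ f f' S y true false (p + 1) hf T hT hS
  · intro y hy T hT hS
    refine ⟨SEf_mem_part false S _ hJ true T hS y hy, ?_⟩
    exact Zb_SEf K _ f f' S y false true (q + 1) hf' T hT hS

end Pool.Agent.W_868bb7_h94
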